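import Mathlib

/-!
MP_6f30b3_lc: assembling an isomorphism from isomorphisms of blocks.
-/

namespace Pool.Agent.H.MP_6f30b3_lc.h34

/-- counting elements by blocks -/
theorem card_blocks {α τ : Type*} [Finite α] (r : Setoid α) (t : α → τ)
    (ht : ∀ x y, r x y → t x = t y) (θ : τ) (c : ℕ)
    (hc : ∀ a, t a = θ → Nat.card {x // r a x} = c) :
    Nat.card {x // t x = θ} =
      Nat.card {k : Quotient r // Quotient.lift t ht k = θ} * c := by
  classical
  let f : {x // t x = θ} → {k : Quotient r // Quotient.lift t ht k = θ} :=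
    fun x => ⟨Quotient.mk r x.1, x.2⟩
  have := Fintype.ofFinite {k : Quotient r // Quotient.lift t ht k = θ}
  have h1 : Nat.card {x // t x = θ} = Nat.card (Σ k, {x // f x = k}) :=
    Nat.card_congr (Equiv.sigmaFiberEquiv f).symm
  rw [h1, Nat.card_sigma]
  have h2 : ∀ k : {k : Quotient r // Quotient.lift t ht k = θ},
      Nat.card {x // f x = k} = c := by
    rintro ⟨k, hk⟩
    induction k using Quotient.inductionOn with
    | h a =>
      rw [← hc a hk]
      refine Nat.card_congr ⟨fun x => ⟨x.1.1, ?_⟩, fun x => ⟨⟨x.1, ?_⟩, ?_⟩, fun x => rfl,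
        fun x => rfl⟩
      · have h3 : Quotient.mk r x.1.1 = Quotient.mk r a := congrArg Subtype.val x.2
        exact r.symm (Quotient.exact h3)
      · exact (ht a x.1 x.2).symm.trans hk
      · exact Subtype.ext (Quotient.sound (r.symm x.2))
  rw [Finset.sum_congr rfl fun k _ => h2 k, Finset.sum_const, Finset.card_univ,
    Nat.card_eq_fintype_card, smul_eq_mul]

/-- If two labelled graphs are divided into blocks such that adjacency between different blocks is
determined by the labels, and if isomorphic blocks occur equally often, then they are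
isomorphic. -/
theorem assemble {α β Λ : Type*} [Finite α] [Finite β] (Eα : α → α → Prop) (Eβ : β → β → Prop)
    (lα : α → Λ) (lβ : β → Λ) (r : Setoid α) (s : Setoid β) (R : α ⊕ β → α ⊕ β → Prop)
    (hR : Equivalence R) (hr : ∀ x y, r x y → R (Sum.inl x) (Sum.inl y))
    (hs : ∀ x y, s x y → R (Sum.inr x) (Sum.inr y))
    (hcard : ∀ z, Nat.card {x : α // R (Sum.inl x) z} = Nat.card {y : β // R (Sum.inr y) z})
    (hiso : ∀ a b, R (Sum.inl a) (Sum.inr b) → ∃ e : {x // r a x} ≃ {y // s b y},
      (∀ x y, Eα x.1 y.1 ↔ Eβ (e x).1 (e y).1) ∧ ∀ x, lα x.1 = lβ (e x).1)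
    (Φ : Λ → Λ → Prop) (hα : ∀ x y, ¬ r x y → (Eα x y ↔ Φ (lα x) (lα y)))
    (hβ : ∀ x y, ¬ s x y → (Eβ x y ↔ Φ (lβ x) (lβ y))) :
    ∃ e : α ≃ β, (∀ x y, Eα x y ↔ Eβ (e x) (e y)) ∧ ∀ x, lα x = lβ (e x) := by
  classical
  let S : Setoid (α ⊕ β) := ⟨R, hR⟩
  let tα : α → Quotient S := fun x => Quotient.mk S (Sum.inl x)
  let tβ : β → Quotient S := fun y => Quotient.mk S (Sum.inr y)
  have htα : ∀ x y, r x y → tα x = tα y := fun x y h => Quotient.sound (hr x y h)
  have htβ : ∀ x y, s x y → tβ x = tβ y := fun x y h => Quotient.sound (hs x y h)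
  have hc : ∀ θ, Nat.card {x // tα x = θ} = Nat.card {y // tβ y = θ} := by
    intro θ
    induction θ using Quotient.inductionOn with
    | h z =>
      have e1 : Nat.card {x // tα x = Quotient.mk S z} = Nat.card {x : α // R (Sum.inl x) z} :=
        Nat.card_congr (Equiv.subtypeEquivRight fun x =>
          ⟨fun h => Quotient.exact h, fun h => Quotient.sound h⟩)
      have e2 : Nat.card {y // tβ y = Quotient.mk S z} = Nat.card {y : β // R (Sum.inr y) z} :=
        Nat.card_congr (Equiv.subtypeEquivRight fun x =>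
          ⟨fun h => Quotient.exact h, fun h => Quotient.sound h⟩)
      rw [e1, e2, hcard]
  have hblocks : ∀ θ, Nat.card {k : Quotient r // Quotient.lift tα htα k = θ} =
      Nat.card {k : Quotient s // Quotient.lift tβ htβ k = θ} := by
    intro θ
    by_cases h1 : ∃ a, tα a = θ
    · obtain ⟨a, ha⟩ := h1
      have : Nonempty {x // tα x = θ} := ⟨⟨a, ha⟩⟩
      have h2 : 0 < Nat.card {y // tβ y = θ} := by
        rw [← hc]; exact Nat.card_pos
      obtain ⟨⟨b, hb⟩⟩ := (Nat.card_pos_iff.1 h2).1
      have k1 : ∀ a', tα a' = θ → Nat.card {x // r a' x} = Nat.card {y // s b y} := by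
        intro a' ha'
        have h3 : R (Sum.inl a') (Sum.inr b) := Quotient.exact (ha'.trans hb.symm)
        obtain ⟨e, -⟩ := hiso a' b h3
        exact Nat.card_congr e
      have k2 : ∀ b', tβ b' = θ → Nat.card {y // s b' y} = Nat.card {y // s b y} := by
        intro b' hb'
        have h3 : R (Sum.inl a) (Sum.inr b') := Quotient.exact (ha.trans hb'.symm)
        obtain ⟨e, -⟩ := hiso a b' h3
        rw [← k1 a ha]
        exact (Nat.card_congr e).symm
      have h4 := card_blocks r tα htα θ _ k1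
      have h5 := card_blocks s tβ htβ θ _ k2
      have h6 : 0 < Nat.card {y // s b y} := by
        have : Nonempty {y // s b y} := ⟨⟨b, s.refl b⟩⟩
        exact Nat.card_pos
      rw [hc, h5] at h4
      exact (Nat.eq_of_mul_eq_mul_right h6 h4).symm
    · have h2 : ¬ ∃ b, tβ b = θ := by
        rintro ⟨b, hb⟩
        have : Nonempty {y // tβ y = θ} := ⟨⟨b, hb⟩⟩
        have h3 : 0 < Nat.card {x // tα x = θ} := by
          rw [hc]; exact Nat.card_pos
        obtain ⟨⟨a, ha⟩⟩ := (Nat.card_pos_iff.1 h3).1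
        exact h1 ⟨a, ha⟩
      have e1 : IsEmpty {k : Quotient r // Quotient.lift tα htα k = θ} := by
        refine ⟨fun ⟨k, hk⟩ => ?_⟩
        induction k using Quotient.inductionOn with
        | h a => exact h1 ⟨a, hk⟩
      have e2 : IsEmpty {k : Quotient s // Quotient.lift tβ htβ k = θ} := by
        refine ⟨fun ⟨k, hk⟩ => ?_⟩
        induction k using Quotient.inductionOn with
        | h a => exact h2 ⟨a, hk⟩
      rw [Nat.card_of_isEmpty, Nat.card_of_isEmpty]
  let σ : Quotient r ≃ Quotient s := Equiv.ofFiberEquiv (f := Quotient.lift tα htα)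
    (g := Quotient.lift tβ htβ) fun θ =>
      Classical.choice (Finite.card_eq.1 (hblocks θ))
  have hσ : ∀ k, Quotient.lift tβ htβ (σ k) = Quotient.lift tα htα k :=
    fun k => Equiv.ofFiberEquiv_map _ k
  have key : ∀ c : Quotient s, ∃ e : {a // σ (Quotient.mk r a) = c} ≃ {b // Quotient.mk s b = c},
      (∀ x y, Eα x.1 y.1 ↔ Eβ (e x).1 (e y).1) ∧ ∀ x, lα x.1 = lβ (e x).1 := by
    intro c
    obtain ⟨b, rfl⟩ := Quotient.exists_rep c
    obtain ⟨a, ha⟩ := Quotient.exists_rep (σ.symm (Quotient.mk s b))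
    have ha' : σ (Quotient.mk r a) = Quotient.mk s b := by
      change Quotient.mk r a = _ at ha
      rw [ha, Equiv.apply_symm_apply]
    have h1 : R (Sum.inl a) (Sum.inr b) := by
      have := hσ (Quotient.mk r a)
      rw [ha'] at this
      exact Quotient.exact this.symm
    obtain ⟨e, he1, he2⟩ := hiso a b h1
    let e1 : {x // σ (Quotient.mk r x) = Quotient.mk s b} ≃ {x // r a x} :=
      Equiv.subtypeEquivRight fun x => by
        constructor
        · intro h
          exact Quotient.exact (σ.injective (ha'.trans h.symm))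
        · intro h
          rw [← ha']
          exact congrArg σ (Quotient.sound (r.symm h))
    let e2 : {y // Quotient.mk s y = Quotient.mk s b} ≃ {y // s b y} :=
      Equiv.subtypeEquivRight fun y =>
        ⟨fun h => s.symm (Quotient.exact h), fun h => Quotient.sound (s.symm h)⟩
    exact ⟨(e1.trans e).trans e2.symm, fun x y => he1 (e1 x) (e1 y), fun x => he2 (e1 x)⟩
  choose ec hec1 hec2 using key
  let e : α ≃ β := Equiv.ofFiberEquiv (f := fun a => σ (Quotient.mk r a))
    (g := fun b => Quotient.mk s b) ec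
  have he : ∀ a c (h : σ (Quotient.mk r a) = c), e a = (ec c ⟨a, h⟩).1 := by
    rintro a c rfl
    rfl
  have hes : ∀ a, Quotient.mk s (e a) = σ (Quotient.mk r a) := fun a =>
    Equiv.ofFiberEquiv_map ec a
  refine ⟨e, fun x y => ?_, fun x => ?_⟩
  · by_cases hxy : r x y
    · have h1 : σ (Quotient.mk r y) = σ (Quotient.mk r x) :=
        congrArg σ (Quotient.sound (r.symm hxy))
      rw [he x _ rfl, he y _ h1]
      exact hec1 _ ⟨x, rfl⟩ ⟨y, h1⟩
    · have h1 : ¬ s (e x) (e y) := by
        intro h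
        have h2 : Quotient.mk s (e x) = Quotient.mk s (e y) := Quotient.sound h
        rw [hes, hes] at h2
        exact hxy (Quotient.exact (σ.injective h2))
      rw [hα x y hxy, hβ _ _ h1]
      have h2 : ∀ x, lα x = lβ (e x) := fun x => by
        rw [he x _ rfl]; exact hec2 _ ⟨x, rfl⟩
      rw [h2 x, h2 y]
  · rw [he x _ rfl]; exact hec2 _ ⟨x, rfl⟩

end Pool.Agent.H.MP_6f30b3_lc.h34
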