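import Pool.Agent.H.MP_5be563_lc.PT.Conv

/-!
MP_6f30b3_lc: the algorithm, as functions on lists; all of them are computable in polynomial time.
-/

namespace Pool.Agent.H.MP_6f30b3_lc.h34

open Pool.Agent.H.MP_5be563_lc.PT

/-- two graphs: numbers of vertices and adjacency matrices -/
abbrev Inst := ℕ × ℕ × List Bool × List Bool

/-- four vertices -/
abbrev Q4 := ℕ × ℕ × ℕ × ℕ

def iN (s : Inst) : ℕ := s.1 + s.2.1

def adj (s : Inst) (v w : ℕ) : Bool :=
  (decide (v < s.1) && decide (w < s.1) && s.2.2.1.getD (v * s.1 + w) false) ||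
  (decide (s.1 ≤ v) && decide (s.1 ≤ w) && decide (v < s.1 + s.2.1) && decide (w < s.1 + s.2.1) &&
    s.2.2.2.getD ((v - s.1) * s.2.1 + (w - s.1)) false)

def sdb (s : Inst) (v : ℕ) : Bool := decide (v < s.1)

def bsN (s : Inst) (v w : ℕ) : Bool := (List.range (iN s)).all fun x => adj s v x == adj s w x

def bff1 (s : Inst) (v : ℕ) : Bool :=
  (List.range (iN s)).all fun a => (List.range (iN s)).all fun b => (List.range (iN s)).all fun c =>
    !(adj s v a && adj s v b && adj s v c && !(adj s a b) && !(adj s b c) && adj s a c)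

def bff2 (s : Inst) (v : ℕ) : Bool :=
  (List.range (iN s)).any fun a => (List.range (iN s)).any fun b => (List.range (iN s)).any fun c =>
    adj s v a && adj s v b && adj s v c && adj s a b && adj s b c && adj s a c

def bff3 (s : Inst) (v : ℕ) : Bool :=
  (List.range (iN s)).all fun u =>
    (!((List.range (iN s)).all fun x => !(adj s v x) || adj s u x)) ||
      ((List.range (iN s)).all fun x => !(adj s u x) || adj s v x)

def bff (s : Inst) (v : ℕ) : Bool := bff1 s v && bff2 s v && bff3 s v

def bAA (s : Inst) (v x : ℕ) : Bool := adj s v x && (!(bff s v) || !(bff s x))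

def brel (s : Inst) (v w : ℕ) : Bool := (List.range (iN s)).all fun x => bAA s v x == bAA s w x

def bcl (s : Inst) (v w : ℕ) : Bool := (sdb s v == sdb s w) && brel s v w

def rpn (s : Inst) (v : ℕ) : ℕ := ((List.range (iN s)).filter fun w => bcl s v w).headD v

def bPc (s : Inst) (v : ℕ) : ℕ := ((List.range (iN s)).filter fun w => bsN s v w).length

def bRR (s : Inst) (v w : ℕ) : Bool := bff s v && bff s w && (adj s v w || bsN s v w)

def bcnt (s : Inst) (a k : ℕ) : ℕ :=
  ((List.range (iN s)).filter fun y => bRR s a y && (bPc s y == k)).length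

def blv (s : Inst) (a b : ℕ) : Bool :=
  (List.range (iN s)).all fun z => bcnt s a (bPc s z) == bcnt s b (bPc s z)

def bpe (s : Inst) (a b : ℕ) : Bool := (bff s a == bff s b) && (!(bff s a) || blv s a b)

def bcnt2 (s : Inst) (v x : ℕ) : ℕ :=
  ((List.range (iN s)).filter fun y => bcl s v y && bpe s y x).length

def bty (s : Inst) (v w : ℕ) : Bool :=
  (List.range (iN s)).all fun x => bcnt2 s v x == bcnt2 s w x

def col (s : Inst) (v : ℕ) : ℕ := ((List.range (iN s)).filter fun w => bty s v w).headD v

def fadj (s : Inst) (v w : ℕ) : Bool := (rpn s v == v) && (rpn s w == w) && adj s v w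

def bco (s : Inst) (v w : ℕ) : Bool :=
  (List.range (iN s)).any fun x => (List.range (iN s)).any fun y =>
    ((v == x) || fadj s v x) && ((x == y) || fadj s x y) && ((y == w) || fadj s y w)

def bK4 (s : Inst) (q : Q4) : Bool :=
  fadj s q.1 q.2.1 && fadj s q.1 q.2.2.1 && fadj s q.1 q.2.2.2 && fadj s q.2.1 q.2.2.1 &&
    fadj s q.2.1 q.2.2.2 && fadj s q.2.2.1 q.2.2.2

def bBl (s : Inst) (q : Q4) (v : ℕ) : Bool :=
  (fadj s v q.2.1 && fadj s v q.2.2.1 && fadj s v q.2.2.2) ||
  (fadj s v q.1 && fadj s v q.2.2.1 && fadj s v q.2.2.2) ||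
  (fadj s v q.1 && fadj s v q.2.1 && fadj s v q.2.2.2) ||
  (fadj s v q.1 && fadj s v q.2.1 && fadj s v q.2.2.1)

def bAt (s : Inst) (q : Q4) (z w : ℕ) : Bool := !(bBl s q z) && bBl s q w && fadj s z w

def bflag (s : Inst) (q : Q4) : Bool :=
  (List.range (iN s)).any fun p => (List.range (iN s)).any fun y => (List.range (iN s)).any fun r =>
    (List.range (iN s)).any fun z => bAt s q p y && bAt s q r z && fadj s y z && fadj s p r

def ban (s : Inst) (q : Q4) (x y : ℕ) : Bool :=
  bBl s q y && ((bBl s q x && !(fadj s x y)) ||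
    (!(bBl s q x) && ((List.range (iN s)).any fun z => bBl s q z && fadj s x z && !(fadj s z y))))

def bsp (s : Inst) (q : Q4) (x x' : ℕ) : Bool :=
  (List.range (iN s)).all fun y => ban s q x y == ban s q x' y

def batt (s : Inst) (q : Q4) (x : ℕ) : Bool :=
  (List.range (iN s)).any fun y => bBl s q y && fadj s x y

def blab (s : Inst) (q : Q4) (x : ℕ) : ℕ :=
  if bBl s q x = true then 0 else if batt s q x = true then 1 else 2

/-- all quadruples of vertices -/
def quads (s : Inst) : List Q4 :=
  (List.range (iN s)).flatMap fun a => (List.range (iN s)).flatMap fun b =>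
    (List.range (iN s)).flatMap fun c => (List.range (iN s)).map fun d => (a, b, c, d)

def bHk (s : Inst) (v : ℕ) : Bool := (quads s).any fun q => bK4 s q && bco s v q.1

/-- blow-up of a component -/
def LC (s : Inst) (v : ℕ) : List ℕ :=
  ((List.range (iN s)).filter fun x => bco s v x).flatMap fun x =>
    (List.range (3 * col s x + 1)).map fun _ => x

/-- blow-up of a piece -/
def LP (s : Inst) (q : Q4) (x : ℕ) : List ℕ :=
  ((List.range (iN s)).filter fun y => bco s q.1 y && bsp s q x y).flatMap fun y =>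
    (List.range (3 * col s y + blab s q y + 1)).map fun _ => y

/-- the code of a blow-up -/
def gcode (s : Inst) (L : List ℕ) : List Bool :=
  (L.map fun _ => true) ++ false :: L.flatMap fun x => L.map fun y => fadj s x y

def qC (s : Inst) (v w : ℕ) : List Bool := gcode s (LC s v) ++ gcode s (LC s w)

def qP (s : Inst) (q : Q4) (x : ℕ) (q' : Q4) (x' : ℕ) : List Bool :=
  gcode s (LP s q x) ++ gcode s (LP s q' x')

/-- the questions about components -/
def QC (s : Inst) : List (List Bool) :=
  ((List.range (iN s)).filter fun v => !(bHk s v)).flatMap fun v =>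
    ((List.range (iN s)).filter fun w => !(bHk s w)).map fun w => qC s v w

/-- cliques and vertices of their components -/
def prs (s : Inst) : List (Q4 × ℕ) :=
  ((quads s).filter fun q => bK4 s q).flatMap fun q =>
    ((List.range (iN s)).filter fun x => bco s q.1 x).map fun x => (q, x)

/-- the questions about pieces -/
def QP (s : Inst) : List (List Bool) :=
  (prs s).flatMap fun a => (prs s).map fun b => qP s a.1 a.2 b.1 b.2

/-- all questions -/
def QQ (s : Inst) : List (List Bool) := QC s ++ QP s

/-- equality of words -/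
def beqL (a b : List Bool) : Bool :=
  (a.length == b.length) && (List.range a.length).all fun i => a.getD i false == b.getD i false

/-- look up an answer -/
def lk (T : List (List Bool × Bool)) (w : List Bool) : Bool := T.any fun p => beqL p.1 w && p.2

def bPI (T : List (List Bool × Bool)) (s : Inst) (q : Q4) (x : ℕ) (q' : Q4) (x' : ℕ) : Bool :=
  lk T (qP s q x q' x')

def bcP (T : List (List Bool × Bool)) (s : Inst) (q : Q4) (q' : Q4) (z : ℕ) : ℕ :=
  ((List.range (iN s)).filter fun x => bco s q.1 x && bPI T s q x q' z).length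

def bPC (T : List (List Bool × Bool)) (s : Inst) (q q' : Q4) : Bool :=
  ((List.range (iN s)).all fun z => !(bco s q.1 z) || (bcP T s q q z == bcP T s q' q z)) &&
  ((List.range (iN s)).all fun z => !(bco s q'.1 z) || (bcP T s q q' z == bcP T s q' q' z))

def bPm (T : List (List Bool × Bool)) (s : Inst) (v w : ℕ) : Bool :=
  (quads s).any fun q => (quads s).any fun q' => bK4 s q && bco s v q.1 && bK4 s q' &&
    bco s w q'.1 && (bflag s q == bflag s q') && bPC T s q q'

def bCI (T : List (List Bool × Bool)) (s : Inst) (v w : ℕ) : Bool :=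
  (!(bHk s v) && !(bHk s w) && lk T (qC s v w)) || bPm T s v w

def dec (T : List (List Bool × Bool)) (s : Inst) : Bool :=
  (List.range (iN s)).all fun z =>
    ((List.range (iN s)).filter fun x => sdb s x && (rpn s x == x) && bCI T s x z).length ==
      ((List.range (iN s)).filter fun x => !(sdb s x) && (rpn s x == x) && bCI T s x z).length

/-! ### polynomial time -/

section poly

variable {α : Type} [Enc α] {s : α → Inst} {T : α → List (List Bool × Bool)}
  {v w x y k : α → ℕ} {q q' : α → Q4}

@[fun_prop]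
theorem p_iN (hs : Poly s) : Poly (fun a => iN (s a)) := by unfold iN; fun_prop

@[fun_prop]
theorem p_adj (hs : Poly s) (hv : Poly v) (hw : Poly w) :
    Poly (fun a => adj (s a) (v a) (w a)) := by unfold adj; fun_prop

@[fun_prop]
theorem p_sdb (hs : Poly s) (hv : Poly v) : Poly (fun a => sdb (s a) (v a)) := by
  unfold sdb; fun_prop

@[fun_prop]
theorem p_bsN (hs : Poly s) (hv : Poly v) (hw : Poly w) :
    Poly (fun a => bsN (s a) (v a) (w a)) := by unfold bsN; fun_prop

@[fun_prop]
theorem p_bff1 (hs : Poly s) (hv : Poly v) : Poly (fun a => bff1 (s a) (v a)) := by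
  unfold bff1; fun_prop

@[fun_prop]
theorem p_bff2 (hs : Poly s) (hv : Poly v) : Poly (fun a => bff2 (s a) (v a)) := by
  unfold bff2; fun_prop

@[fun_prop]
theorem p_bff3 (hs : Poly s) (hv : Poly v) : Poly (fun a => bff3 (s a) (v a)) := by
  unfold bff3; fun_prop

@[fun_prop]
theorem p_bff (hs : Poly s) (hv : Poly v) : Poly (fun a => bff (s a) (v a)) := by
  unfold bff; fun_prop

@[fun_prop]
theorem p_bAA (hs : Poly s) (hv : Poly v) (hw : Poly w) :
    Poly (fun a => bAA (s a) (v a) (w a)) := by unfold bAA; fun_prop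

@[fun_prop]
theorem p_brel (hs : Poly s) (hv : Poly v) (hw : Poly w) :
    Poly (fun a => brel (s a) (v a) (w a)) := by unfold brel; fun_prop

@[fun_prop]
theorem p_bcl (hs : Poly s) (hv : Poly v) (hw : Poly w) :
    Poly (fun a => bcl (s a) (v a) (w a)) := by unfold bcl; fun_prop

@[fun_prop]
theorem p_rpn (hs : Poly s) (hv : Poly v) : Poly (fun a => rpn (s a) (v a)) := by
  unfold rpn; fun_prop

@[fun_prop]
theorem p_bPc (hs : Poly s) (hv : Poly v) : Poly (fun a => bPc (s a) (v a)) := by
  unfold bPc; fun_prop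

@[fun_prop]
theorem p_bRR (hs : Poly s) (hv : Poly v) (hw : Poly w) :
    Poly (fun a => bRR (s a) (v a) (w a)) := by unfold bRR; fun_prop

@[fun_prop]
theorem p_bcnt (hs : Poly s) (hv : Poly v) (hw : Poly w) :
    Poly (fun a => bcnt (s a) (v a) (w a)) := by unfold bcnt; fun_prop

@[fun_prop]
theorem p_blv (hs : Poly s) (hv : Poly v) (hw : Poly w) :
    Poly (fun a => blv (s a) (v a) (w a)) := by unfold blv; fun_prop

@[fun_prop]
theorem p_bpe (hs : Poly s) (hv : Poly v) (hw : Poly w) :
    Poly (fun a => bpe (s a) (v a) (w a)) := by unfold bpe; fun_prop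

@[fun_prop]
theorem p_bcnt2 (hs : Poly s) (hv : Poly v) (hw : Poly w) :
    Poly (fun a => bcnt2 (s a) (v a) (w a)) := by unfold bcnt2; fun_prop

@[fun_prop]
theorem p_bty (hs : Poly s) (hv : Poly v) (hw : Poly w) :
    Poly (fun a => bty (s a) (v a) (w a)) := by unfold bty; fun_prop

@[fun_prop]
theorem p_col (hs : Poly s) (hv : Poly v) : Poly (fun a => col (s a) (v a)) := by
  unfold col; fun_prop

@[fun_prop]
theorem p_fadj (hs : Poly s) (hv : Poly v) (hw : Poly w) :
    Poly (fun a => fadj (s a) (v a) (w a)) := by unfold fadj; fun_prop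

@[fun_prop]
theorem p_bco (hs : Poly s) (hv : Poly v) (hw : Poly w) :
    Poly (fun a => bco (s a) (v a) (w a)) := by unfold bco; fun_prop

@[fun_prop]
theorem p_bK4 (hs : Poly s) (hq : Poly q) : Poly (fun a => bK4 (s a) (q a)) := by
  unfold bK4; fun_prop

@[fun_prop]
theorem p_bBl (hs : Poly s) (hq : Poly q) (hv : Poly v) :
    Poly (fun a => bBl (s a) (q a) (v a)) := by unfold bBl; fun_prop

@[fun_prop]
theorem p_bAt (hs : Poly s) (hq : Poly q) (hv : Poly v) (hw : Poly w) :
    Poly (fun a => bAt (s a) (q a) (v a) (w a)) := by unfold bAt; fun_prop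

@[fun_prop]
theorem p_bflag (hs : Poly s) (hq : Poly q) : Poly (fun a => bflag (s a) (q a)) := by
  unfold bflag; fun_prop

@[fun_prop]
theorem p_ban (hs : Poly s) (hq : Poly q) (hv : Poly v) (hw : Poly w) :
    Poly (fun a => ban (s a) (q a) (v a) (w a)) := by unfold ban; fun_prop

@[fun_prop]
theorem p_bsp (hs : Poly s) (hq : Poly q) (hv : Poly v) (hw : Poly w) :
    Poly (fun a => bsp (s a) (q a) (v a) (w a)) := by unfold bsp; fun_prop

@[fun_prop]
theorem p_batt (hs : Poly s) (hq : Poly q) (hv : Poly v) :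
    Poly (fun a => batt (s a) (q a) (v a)) := by unfold batt; fun_prop

@[fun_prop]
theorem p_blab (hs : Poly s) (hq : Poly q) (hv : Poly v) :
    Poly (fun a => blab (s a) (q a) (v a)) := by unfold blab; fun_prop

@[fun_prop]
theorem p_quads (hs : Poly s) : Poly (fun a => quads (s a)) := by unfold quads; fun_prop

@[fun_prop]
theorem p_bHk (hs : Poly s) (hv : Poly v) : Poly (fun a => bHk (s a) (v a)) := by
  unfold bHk; fun_prop

@[fun_prop]
theorem p_LC (hs : Poly s) (hv : Poly v) : Poly (fun a => LC (s a) (v a)) := by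
  unfold LC; fun_prop

@[fun_prop]
theorem p_LP (hs : Poly s) (hq : Poly q) (hv : Poly v) :
    Poly (fun a => LP (s a) (q a) (v a)) := by unfold LP; fun_prop

@[fun_prop]
theorem p_gcode {L : α → List ℕ} (hs : Poly s) (hL : Poly L) :
    Poly (fun a => gcode (s a) (L a)) := by unfold gcode; fun_prop

@[fun_prop]
theorem p_qC (hs : Poly s) (hv : Poly v) (hw : Poly w) :
    Poly (fun a => qC (s a) (v a) (w a)) := by unfold qC; fun_prop

@[fun_prop]
theorem p_qP (hs : Poly s) (hq : Poly q) (hv : Poly v) (hq' : Poly q') (hw : Poly w) :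
    Poly (fun a => qP (s a) (q a) (v a) (q' a) (w a)) := by unfold qP; fun_prop

@[fun_prop]
theorem p_QC (hs : Poly s) : Poly (fun a => QC (s a)) := by unfold QC; fun_prop

@[fun_prop]
theorem p_prs (hs : Poly s) : Poly (fun a => prs (s a)) := by unfold prs; fun_prop

@[fun_prop]
theorem p_QP (hs : Poly s) : Poly (fun a => QP (s a)) := by unfold QP; fun_prop

@[fun_prop]
theorem p_QQ (hs : Poly s) : Poly (fun a => QQ (s a)) := by unfold QQ; fun_prop

@[fun_prop]
theorem p_beqL {f g : α → List Bool} (hf : Poly f) (hg : Poly g) :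
    Poly (fun a => beqL (f a) (g a)) := by unfold beqL; fun_prop

@[fun_prop]
theorem p_lk {f : α → List Bool} (hT : Poly T) (hf : Poly f) :
    Poly (fun a => lk (T a) (f a)) := by unfold lk; fun_prop

@[fun_prop]
theorem p_bPI (hT : Poly T) (hs : Poly s) (hq : Poly q) (hv : Poly v) (hq' : Poly q')
    (hw : Poly w) : Poly (fun a => bPI (T a) (s a) (q a) (v a) (q' a) (w a)) := by
  unfold bPI; fun_prop

@[fun_prop]
theorem p_bcP (hT : Poly T) (hs : Poly s) (hq : Poly q) (hq' : Poly q')
    (hv : Poly v) : Poly (fun a => bcP (T a) (s a) (q a) (q' a) (v a)) := by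
  unfold bcP; fun_prop

@[fun_prop]
theorem p_bPC (hT : Poly T) (hs : Poly s) (hq : Poly q) (hq' : Poly q') :
    Poly (fun a => bPC (T a) (s a) (q a) (q' a)) := by
  unfold bPC; fun_prop

@[fun_prop]
theorem p_bPm (hT : Poly T) (hs : Poly s) (hv : Poly v) (hw : Poly w) :
    Poly (fun a => bPm (T a) (s a) (v a) (w a)) := by
  unfold bPm; fun_prop

@[fun_prop]
theorem p_bCI (hT : Poly T) (hs : Poly s) (hv : Poly v) (hw : Poly w) :
    Poly (fun a => bCI (T a) (s a) (v a) (w a)) := by
  unfold bCI; fun_prop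

@[fun_prop]
theorem p_dec (hT : Poly T) (hs : Poly s) : Poly (fun a => dec (T a) (s a)) := by
  unfold dec; fun_prop

end poly

end Pool.Agent.H.MP_6f30b3_lc.h34
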