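import Pool.Agent.H.MP_6f30b3_lc.h34.Sides
import Pool.Agent.H.MP_6f30b3_lc.h34.BDef

/-!
MP_6f30b3_lc: the functions of the algorithm compute the notions they stand for.
-/

namespace Pool.Agent.H.MP_6f30b3_lc.h34

theorem all_fin {N : ℕ} {p : ℕ → Bool} {P : Fin N → Prop}
    (h : ∀ v : Fin N, p v = true ↔ P v) : (List.range N).all p = true ↔ ∀ v, P v := by
  rw [List.all_eq_true]
  constructor
  · intro h1 v
    exact (h v).1 (h1 v (List.mem_range.2 v.2))
  · intro h1 i hi
    exact (h ⟨i, List.mem_range.1 hi⟩).2 (h1 _)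

theorem any_fin {N : ℕ} {p : ℕ → Bool} {P : Fin N → Prop}
    (h : ∀ v : Fin N, p v = true ↔ P v) : (List.range N).any p = true ↔ ∃ v, P v := by
  rw [List.any_eq_true]
  constructor
  · rintro ⟨i, hi, h1⟩
    exact ⟨⟨i, List.mem_range.1 hi⟩, (h ⟨i, List.mem_range.1 hi⟩).1 h1⟩
  · rintro ⟨v, hv⟩
    exact ⟨v, List.mem_range.2 v.2, (h v).2 hv⟩

theorem cnt_fin {N : ℕ} {p : ℕ → Bool} {P : Fin N → Prop}
    (h : ∀ v : Fin N, p v = true ↔ P v) :
    ((List.range N).filter p).length = Nat.card {v // P v} := by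
  classical
  have e : (List.range N).filter p = ((List.finRange N).filter (fun v => p v.1)).map Fin.val := by
    rw [← List.map_coe_finRange_eq_range, List.filter_map]
    rfl
  rw [e, List.length_map, ← List.toFinset_card_of_nodup ((List.nodup_finRange N).filter _),
    Nat.card_eq_fintype_card, Fintype.card_subtype]
  congr 1
  ext v
  simp [h]

theorem beq_bool_iff {a b : Bool} {P Q : Prop} (h : a = true ↔ P) (h' : b = true ↔ Q) :
    (a == b) = true ↔ (P ↔ Q) := by
  rw [← h, ← h', beq_iff_eq, Bool.eq_iff_iff]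

theorem not_bool_iff {a : Bool} {P : Prop} (h : a = true ↔ P) : (!a) = true ↔ ¬ P := by
  rw [← h]; cases a <;> simp

theorem and_bool_iff {a b : Bool} {P Q : Prop} (h : a = true ↔ P) (h' : b = true ↔ Q) :
    (a && b) = true ↔ (P ∧ Q) := by
  rw [← h, ← h', Bool.and_eq_true]

theorem or_bool_iff {a b : Bool} {P Q : Prop} (h : a = true ↔ P) (h' : b = true ↔ Q) :
    (a || b) = true ↔ (P ∨ Q) := by
  rw [← h, ← h', Bool.or_eq_true]

variable (s : Inst)

/-- adjacency of the two graphs together -/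
def EE (s : Inst) (v w : Fin (iN s)) : Prop := adj s v w = true

/-- the side of a vertex -/
def sdF (s : Inst) (v : Fin (iN s)) : Bool := sdb s v

theorem bsN_iff (v w : Fin (iN s)) : bsN s v w = true ↔ sN (EE s) v w :=
  all_fin fun _ => beq_bool_iff Iff.rfl Iff.rfl

theorem bff1_iff (v : Fin (iN s)) : bff1 s v = true ↔ CM (EE s) (EE s v) := by
  unfold bff1 CM
  refine all_fin fun a => all_fin fun b => all_fin fun c => ?_
  show _ ↔ (adj s v a = true → adj s v b = true → adj s v c = true → ¬ adj s a b = true →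
    ¬ adj s b c = true → ¬ adj s a c = true)
  cases adj s v a <;> cases adj s v b <;> cases adj s v c <;> cases adj s a b <;>
    cases adj s b c <;> cases adj s a c <;> simp

theorem bff2_iff (v : Fin (iN s)) : bff2 s v = true ↔
    ∃ a b c, EE s v a ∧ EE s v b ∧ EE s v c ∧ EE s a b ∧ EE s b c ∧ EE s a c := by
  unfold bff2
  refine any_fin fun a => any_fin fun b => any_fin fun c => ?_
  simp only [EE, Bool.and_eq_true, and_assoc]

theorem bff3_iff (v : Fin (iN s)) : bff3 s v = true ↔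
    ∀ u, (∀ x, EE s v x → EE s u x) → ∀ x, EE s u x → EE s v x := by
  unfold bff3
  have key : ∀ v u : Fin (iN s), ((List.range (iN s)).all fun x => !(adj s v x) || adj s u x) = true
      ↔ ∀ x, EE s v x → EE s u x := by
    intro v u
    refine all_fin fun x => ?_
    show _ ↔ (adj s v x = true → adj s u x = true)
    cases adj s v x <;> simp
  refine all_fin fun u => ?_
  rw [or_bool_iff (not_bool_iff (key v u)) (key u v)]
  tauto

theorem bff_iff (v : Fin (iN s)) : bff s v = true ↔ ff (EE s) v := by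
  unfold bff ff
  rw [Bool.and_eq_true, Bool.and_eq_true, bff1_iff, bff2_iff, bff3_iff, and_assoc]

theorem bAA_iff (v w : Fin (iN s)) : bAA s v w = true ↔ AA (EE s) v w := by
  unfold bAA AA
  rw [and_bool_iff Iff.rfl (or_bool_iff (not_bool_iff (bff_iff s v)) (not_bool_iff (bff_iff s w)))]
  unfold EE
  tauto

theorem brel_iff (v w : Fin (iN s)) : brel s v w = true ↔ rel (EE s) v w :=
  all_fin fun x => beq_bool_iff (bAA_iff s v x) (bAA_iff s w x)

theorem bcl_iff (v w : Fin (iN s)) : bcl s v w = true ↔ cl (EE s) (sdF s) v w := by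
  unfold bcl cl
  rw [Bool.and_eq_true, beq_iff_eq, brel_iff]
  rfl

theorem bPc_eq (v : Fin (iN s)) : bPc s v = Pc (EE s) v := cnt_fin fun w => bsN_iff s v w

theorem bRR_iff (v w : Fin (iN s)) : bRR s v w = true ↔ RR (EE s) v w := by
  unfold bRR RR
  rw [and_bool_iff (and_bool_iff (bff_iff s v) (bff_iff s w)) (or_bool_iff Iff.rfl (bsN_iff s v w)),
    and_assoc]
  rfl

theorem bcnt_eq (a : Fin (iN s)) (k : ℕ) :
    bcnt s a k = Nat.card {y // RR (EE s) a y ∧ Pc (EE s) y = k} :=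
  cnt_fin fun y => by
    rw [Bool.and_eq_true, bRR_iff, beq_iff_eq, bPc_eq]

theorem blv_iff (a b : Fin (iN s)) : blv s a b = true ↔ lv (EE s) a b := by
  have h : blv s a b = true ↔ ∀ z : Fin (iN s), bcnt s a (bPc s z) = bcnt s b (bPc s z) :=
    all_fin fun z => by rw [beq_iff_eq]
  rw [h]
  constructor
  · intro h1 k
    by_cases hk : ∃ z : Fin (iN s), Pc (EE s) z = k
    · obtain ⟨z, rfl⟩ := hk
      rw [← bcnt_eq, ← bcnt_eq, ← bPc_eq]
      exact h1 z
    · have e : ∀ a, IsEmpty {y // RR (EE s) a y ∧ Pc (EE s) y = k} :=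
        fun a => ⟨fun y => hk ⟨y.1, y.2.2⟩⟩
      have := e a
      have := e b
      rw [Nat.card_of_isEmpty, Nat.card_of_isEmpty]
  · intro h1 z
    rw [bcnt_eq, bcnt_eq]
    exact h1 _

theorem bpe_iff (a b : Fin (iN s)) : bpe s a b = true ↔ pe (EE s) a b := by
  unfold bpe pe
  rw [and_bool_iff (beq_bool_iff (bff_iff s a) (bff_iff s b))
    (or_bool_iff (not_bool_iff (bff_iff s a)) (blv_iff s a b))]
  tauto

theorem bcnt2_eq (v x : Fin (iN s)) :
    bcnt2 s v x = Nat.card {y // cl (EE s) (sdF s) v y ∧ pe (EE s) y x} :=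
  cnt_fin fun y => by rw [Bool.and_eq_true, bcl_iff, bpe_iff]

theorem bty_iff (v w : Fin (iN s)) : bty s v w = true ↔ ty (EE s) (sdF s) v w :=
  all_fin fun x => by rw [beq_iff_eq, bcnt2_eq, bcnt2_eq]

/-! ### first elements of classes -/

theorem head_mem {l : List ℕ} {v w : ℕ} (h : w ∈ l) : l.headD v ∈ l := by
  cases l with
  | nil => exact absurd h (by simp)
  | cons a l => simp

theorem rpn_spec {v : ℕ} (hv : v < iN s) : rpn s v < iN s ∧ bcl s v (rpn s v) = true := by
  have h1 : v ∈ (List.range (iN s)).filter fun w => bcl s v w := by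
    rw [List.mem_filter]
    exact ⟨List.mem_range.2 hv, (bcl_iff s ⟨v, hv⟩ ⟨v, hv⟩).2 (cl.refl _)⟩
  have h2 := head_mem (v := v) h1
  rw [List.mem_filter] at h2
  exact ⟨List.mem_range.1 h2.1, h2.2⟩

/-- the representative of a class -/
def rpF (s : Inst) (v : Fin (iN s)) : Fin (iN s) := ⟨rpn s v, (rpn_spec s v.2).1⟩

theorem rpn_eq {v w : Fin (iN s)} (h : cl (EE s) (sdF s) v w) : rpn s v = rpn s w := by
  have e : ((List.range (iN s)).filter fun x => bcl s v x) =
      (List.range (iN s)).filter fun x => bcl s w x := by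
    refine List.filter_congr fun x hx => ?_
    have hx' := List.mem_range.1 hx
    rw [Bool.eq_iff_iff, bcl_iff s v ⟨x, hx'⟩, bcl_iff s w ⟨x, hx'⟩]
    exact ⟨fun h' => h.symm.trans h', fun h' => h.trans h'⟩
  have hv : v.1 ∈ (List.range (iN s)).filter fun x => bcl s v x := by
    rw [List.mem_filter]
    exact ⟨List.mem_range.2 v.2, (bcl_iff s v v).2 (cl.refl _)⟩
  unfold rpn
  rw [← e]
  revert hv
  generalize (List.range (iN s)).filter (fun x => bcl s v x) = l
  intro hv
  cases l with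
  | nil => exact absurd hv (by simp)
  | cons a l => simp

theorem rp_spec (hsd : ∀ v w, EE s v w → sdF s v = sdF s w) : Rp (EE s) (sdF s) (rpF s) := by
  have h : ∀ v, cl (EE s) (sdF s) v (rpF s v) := fun v =>
    (bcl_iff s v (rpF s v)).1 (rpn_spec s v.2).2
  exact ⟨hsd, fun v => (h v).1.symm, fun v => (h v).2,
    fun v w h1 h2 => Fin.ext (rpn_eq s ⟨h1, h2⟩)⟩

theorem col_spec {v : ℕ} (hv : v < iN s) : col s v < iN s ∧ bty s v (col s v) = true := by
  have h1 : v ∈ (List.range (iN s)).filter fun w => bty s v w := by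
    rw [List.mem_filter]
    exact ⟨List.mem_range.2 hv, (bty_iff s ⟨v, hv⟩ ⟨v, hv⟩).2 (ty.refl _)⟩
  have h2 := head_mem (v := v) h1
  rw [List.mem_filter] at h2
  exact ⟨List.mem_range.1 h2.1, h2.2⟩

theorem col_eq_iff (v w : Fin (iN s)) : col s v = col s w ↔ ty (EE s) (sdF s) v w := by
  constructor
  · intro h
    have h1 := col_spec s v.2
    have h2 := col_spec s w.2
    rw [← h] at h2
    have h3 := (bty_iff s v ⟨_, h1.1⟩).1 h1.2
    have h4 := (bty_iff s w ⟨_, h1.1⟩).1 h2.2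
    exact h3.trans h4.symm
  · intro h
    have e : ((List.range (iN s)).filter fun x => bty s v x) =
        (List.range (iN s)).filter fun x => bty s w x := by
      refine List.filter_congr fun x hx => ?_
      have hx' := List.mem_range.1 hx
      rw [Bool.eq_iff_iff, bty_iff s v ⟨x, hx'⟩, bty_iff s w ⟨x, hx'⟩]
      exact ⟨fun h' => h.symm.trans h', fun h' => h.trans h'⟩
    have hv : v.1 ∈ (List.range (iN s)).filter fun x => bty s v x := by
      rw [List.mem_filter]
      exact ⟨List.mem_range.2 v.2, (bty_iff s v v).2 (ty.refl _)⟩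
    unfold col
    rw [← e]
    revert hv
    generalize (List.range (iN s)).filter (fun x => bty s v x) = l
    intro hv
    cases l with
    | nil => exact absurd hv (by simp)
    | cons a l => simp

/-! ### the quotient -/

/-- the quotient graph -/
abbrev FF (s : Inst) : Fin (iN s) → Fin (iN s) → Prop := FQ (EE s) (rpF s)

theorem rpn_iff (v : Fin (iN s)) : (rpn s v == v) = true ↔ rpF s v = v := by
  rw [beq_iff_eq]
  exact ⟨fun h => Fin.ext h, fun h => congrArg Fin.val h⟩

theorem fadj_iff (v w : Fin (iN s)) : fadj s v w = true ↔ FF s v w := by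
  unfold fadj
  rw [and_bool_iff (and_bool_iff (rpn_iff s v) (rpn_iff s w)) Iff.rfl, and_assoc]
  rfl

theorem natbeq_fin {N : ℕ} (v w : Fin N) : ((v : ℕ) == (w : ℕ)) = true ↔ v = w := by
  rw [beq_iff_eq]
  exact ⟨fun h => Fin.ext h, fun h => congrArg Fin.val h⟩

theorem bco_iff (v w : Fin (iN s)) : bco s v w = true ↔ co (FF s) v w := by
  unfold bco co
  refine any_fin fun x => any_fin fun y => ?_
  rw [and_bool_iff (and_bool_iff (or_bool_iff (natbeq_fin v x) (fadj_iff s v x))
    (or_bool_iff (natbeq_fin x y) (fadj_iff s x y))) (or_bool_iff (natbeq_fin y w) (fadj_iff s y w)),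
    and_assoc]

/-- the quadruple of natural numbers -/
def qn {s : Inst} (q : Fin 4 → Fin (iN s)) : Q4 := (q 0, q 1, q 2, q 3)

theorem bK4_iff (hG : IsG (FF s)) (q : Fin 4 → Fin (iN s)) :
    bK4 s (qn q) = true ↔ K4 (FF s) q := by
  refine (and_bool_iff (and_bool_iff (and_bool_iff (and_bool_iff (and_bool_iff
    (fadj_iff s (q 0) (q 1)) (fadj_iff s (q 0) (q 2))) (fadj_iff s (q 0) (q 3)))
    (fadj_iff s (q 1) (q 2))) (fadj_iff s (q 1) (q 3))) (fadj_iff s (q 2) (q 3))).trans ?_
  constructor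
  · rintro ⟨⟨⟨⟨⟨h1, h2⟩, h3⟩, h4⟩, h5⟩, h6⟩ i j hij
    fin_cases i <;> fin_cases j
    · exact absurd rfl hij
    · exact h1
    · exact h2
    · exact h3
    · exact hG.symm h1
    · exact absurd rfl hij
    · exact h4
    · exact h5
    · exact hG.symm h2
    · exact hG.symm h4
    · exact absurd rfl hij
    · exact h6
    · exact hG.symm h3
    · exact hG.symm h5
    · exact hG.symm h6
    · exact absurd rfl hij
  · intro h
    exact ⟨⟨⟨⟨⟨h 0 1 (by decide), h 0 2 (by decide)⟩, h 0 3 (by decide)⟩, h 1 2 (by decide)⟩,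
      h 1 3 (by decide)⟩, h 2 3 (by decide)⟩

theorem bBl_iff (q : Fin 4 → Fin (iN s)) (v : Fin (iN s)) :
    bBl s (qn q) v = true ↔ Bl (FF s) q v := by
  refine (or_bool_iff (or_bool_iff (or_bool_iff
    (and_bool_iff (and_bool_iff (fadj_iff s v (q 1)) (fadj_iff s v (q 2))) (fadj_iff s v (q 3)))
    (and_bool_iff (and_bool_iff (fadj_iff s v (q 0)) (fadj_iff s v (q 2))) (fadj_iff s v (q 3))))
    (and_bool_iff (and_bool_iff (fadj_iff s v (q 0)) (fadj_iff s v (q 1))) (fadj_iff s v (q 3))))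
    (and_bool_iff (and_bool_iff (fadj_iff s v (q 0)) (fadj_iff s v (q 1)))
      (fadj_iff s v (q 2)))).trans ?_
  constructor
  · rintro (((⟨⟨h1, h2⟩, h3⟩ | ⟨⟨h1, h2⟩, h3⟩) | ⟨⟨h1, h2⟩, h3⟩) | ⟨⟨h1, h2⟩, h3⟩)
    · refine ⟨0, fun j hj => ?_⟩
      fin_cases j
      · exact absurd rfl hj
      · exact h1
      · exact h2
      · exact h3
    · refine ⟨1, fun j hj => ?_⟩
      fin_cases j
      · exact h1
      · exact absurd rfl hj
      · exact h2
      · exact h3
    · refine ⟨2, fun j hj => ?_⟩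
      fin_cases j
      · exact h1
      · exact h2
      · exact absurd rfl hj
      · exact h3
    · refine ⟨3, fun j hj => ?_⟩
      fin_cases j
      · exact h1
      · exact h2
      · exact h3
      · exact absurd rfl hj
  · rintro ⟨i, h⟩
    fin_cases i
    · exact Or.inl (Or.inl (Or.inl ⟨⟨h 1 (by decide), h 2 (by decide)⟩, h 3 (by decide)⟩))
    · exact Or.inl (Or.inl (Or.inr ⟨⟨h 0 (by decide), h 2 (by decide)⟩, h 3 (by decide)⟩))
    · exact Or.inl (Or.inr ⟨⟨h 0 (by decide), h 1 (by decide)⟩, h 3 (by decide)⟩)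
    · exact Or.inr ⟨⟨h 0 (by decide), h 1 (by decide)⟩, h 2 (by decide)⟩

theorem bAt_iff (q : Fin 4 → Fin (iN s)) (v w : Fin (iN s)) :
    bAt s (qn q) v w = true ↔ At (FF s) q v w := by
  unfold bAt At
  rw [and_bool_iff (and_bool_iff (not_bool_iff (bBl_iff s q v)) (bBl_iff s q w)) (fadj_iff s v w),
    and_assoc]

theorem bflag_iff (q : Fin 4 → Fin (iN s)) : bflag s (qn q) = true ↔ Flag (FF s) q := by
  unfold bflag Flag
  refine any_fin fun p => any_fin fun y => any_fin fun r => any_fin fun z => ?_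
  rw [and_bool_iff (and_bool_iff (and_bool_iff (bAt_iff s q p y) (bAt_iff s q r z))
    (fadj_iff s y z)) (fadj_iff s p r), and_assoc, and_assoc]

theorem ban_iff (q : Fin 4 → Fin (iN s)) (x y : Fin (iN s)) :
    ban s (qn q) x y = true ↔ an (FF s) q x y := by
  unfold ban an
  rw [and_bool_iff (bBl_iff s q y) (or_bool_iff (and_bool_iff (bBl_iff s q x)
    (not_bool_iff (fadj_iff s x y))) (and_bool_iff (not_bool_iff (bBl_iff s q x))
    (any_fin fun z => and_bool_iff (and_bool_iff (bBl_iff s q z) (fadj_iff s x z))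
      (not_bool_iff (fadj_iff s z y)))))]
  simp only [and_assoc]

theorem bsp_iff (q : Fin 4 → Fin (iN s)) (x y : Fin (iN s)) :
    bsp s (qn q) x y = true ↔ sp (FF s) q x y :=
  all_fin fun z => beq_bool_iff (ban_iff s q x z) (ban_iff s q y z)

theorem batt_iff (q : Fin 4 → Fin (iN s)) (x : Fin (iN s)) :
    batt s (qn q) x = true ↔ ∃ y, Bl (FF s) q y ∧ FF s x y :=
  any_fin fun y => and_bool_iff (bBl_iff s q y) (fadj_iff s x y)

theorem blab_eq (q : Fin 4 → Fin (iN s)) (x : Fin (iN s)) :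
    blab s (qn q) x = lab (FF s) q x := by
  unfold blab
  rcases trich (FF s) q x with h | h | h
  · rw [lab_bl h, if_pos ((bBl_iff s q x).2 h)]
  · rw [lab_l1 h, if_neg (fun h' => h.1 ((bBl_iff s q x).1 h')), if_pos ((batt_iff s q x).2 h.2)]
  · rw [lab_l2 h, if_neg (fun h' => h.1 ((bBl_iff s q x).1 h')), if_neg]
    intro h'
    obtain ⟨y, hy, hxy⟩ := (batt_iff s q x).1 h'
    exact h.2 y hy hxy

theorem mem_quads (q : Q4) : q ∈ quads s ↔ ∃ r : Fin 4 → Fin (iN s), qn r = q := by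
  unfold quads
  simp only [List.mem_flatMap, List.mem_map, List.mem_range]
  constructor
  · rintro ⟨a, ha, b, hb, c, hc, d, hd, rfl⟩
    exact ⟨![⟨a, ha⟩, ⟨b, hb⟩, ⟨c, hc⟩, ⟨d, hd⟩], rfl⟩
  · rintro ⟨r, rfl⟩
    exact ⟨r 0, (r 0).2, r 1, (r 1).2, r 2, (r 2).2, r 3, (r 3).2, rfl⟩

theorem any_quads {p : Q4 → Bool} {P : (Fin 4 → Fin (iN s)) → Prop}
    (h : ∀ q, p (qn q) = true ↔ P q) : (quads s).any p = true ↔ ∃ q, P q := by
  rw [List.any_eq_true]
  constructor
  · rintro ⟨q, hq, h1⟩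
    obtain ⟨r, rfl⟩ := (mem_quads s q).1 hq
    exact ⟨r, (h r).1 h1⟩
  · rintro ⟨q, hq⟩
    exact ⟨qn q, (mem_quads s _).2 ⟨q, rfl⟩, (h q).2 hq⟩

theorem bHk_iff (hG : IsG (FF s)) (v : Fin (iN s)) : bHk s v = true ↔ Hk (FF s) v :=
  any_quads s fun q => and_bool_iff (bK4_iff s hG q) (bco_iff s v (q 0))

end Pool.Agent.H.MP_6f30b3_lc.h34
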