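import Pool.Agent.H.MP_6f30b3_lc.h34.Mod

/-!
MP_6f30b3_lc: the maximal complete multipartite set around a clique on four vertices.
-/

namespace Pool.Agent.H.MP_6f30b3_lc.h34

variable {V : Type*} {E : V → V → Prop} {q : Fin 4 → V}

/-- `q` enumerates a clique on four vertices -/
def K4 (E : V → V → Prop) (q : Fin 4 → V) : Prop := ∀ i j, i ≠ j → E (q i) (q j)

/-- the vertices which are adjacent to at least three vertices of the clique -/
def Bl (E : V → V → Prop) (q : Fin 4 → V) (v : V) : Prop := ∃ i, ∀ j, j ≠ i → E v (q j)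

theorem pick2 : ∀ i j : Fin 4, ∃ l l', l ≠ l' ∧ l ≠ i ∧ l ≠ j ∧ l' ≠ i ∧ l' ≠ j := by decide

theorem pick1 : ∀ i j k : Fin 4, ∃ l, l ≠ i ∧ l ≠ j ∧ l ≠ k := by decide

theorem pick3 : ∀ i : Fin 3, ∃ a b, a ≠ b ∧ a ≠ i ∧ b ≠ i := by decide

theorem K4.bl (hq : K4 E q) (i : Fin 4) : Bl E q (q i) := ⟨i, fun j hj => hq i j hj.symm⟩

theorem Bl.miss_eq (hG : IsG E) (h1 : C1 E) (hq : K4 E q) {u v : V} (hu : Bl E q u)
    (hv : Bl E q v) (huv : ¬ E u v) {i j : Fin 4} (hi : ¬ E u (q i)) (hj : ¬ E v (q j)) :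
    i = j := by
  by_contra hij
  obtain ⟨i', hu⟩ := hu
  obtain ⟨j', hv⟩ := hv
  have hi' : i = i' := by
    by_contra h; exact hi (hu i h)
  have hj' : j = j' := by
    by_contra h; exact hj (hv j h)
  subst hi'; subst hj'
  obtain ⟨l, l', h2, h3, h4, h5, h6⟩ := pick2 i j
  have := h1 (q l) (q l') (q i) u v (hq l l' h2) (hq l i h3) (hG.symm (hu l h3))
    (hG.symm (hv l h4)) (hq l' i h5) (hG.symm (hu l' h5)) (hG.symm (hv l' h6))
    (fun h => hi (hG.symm h)) huv
  exact this (hG.symm (hv i hij))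

theorem bl_cm (hG : IsG E) (h1 : C1 E) (hq : K4 E q) : CM E (Bl E q) := by
  intro x y z hx hy hz hxy hyz
  -- two indices that contain everything that is missed
  obtain ⟨i, j, hi⟩ : ∃ i j, ∀ l, l ≠ i → l ≠ j → E x (q l) ∧ E y (q l) ∧ E z (q l) := by
    by_cases h : ∃ i, ¬ E y (q i)
    · obtain ⟨i, hi⟩ := h
      refine ⟨i, i, fun l hl _ => ⟨?_, ?_, ?_⟩⟩
      · by_contra h; exact hl (hx.miss_eq hG h1 hq hy hxy h hi)
      · by_contra h
        obtain ⟨k, hk⟩ := hy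
        have e1 : i = k := by by_contra h'; exact hi (hk i h')
        have e2 : l = k := by by_contra h'; exact h (hk l h')
        exact hl (e2.trans e1.symm)
      · by_contra h; exact hl (hy.miss_eq hG h1 hq hz hyz hi h).symm
    · push Not at h
      obtain ⟨i, hx⟩ := hx
      obtain ⟨j, hz⟩ := hz
      exact ⟨i, j, fun l hl hl' => ⟨hx l hl, h l, hz l hl'⟩⟩
  obtain ⟨l, l', h2, h3, h4, h5, h6⟩ := pick2 i j
  obtain ⟨a1, a2, a3⟩ := hi l h3 h4
  obtain ⟨b1, b2, b3⟩ := hi l' h5 h6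
  exact h1 (q l) (q l') x y z (hq l l' h2) (hG.symm a1) (hG.symm a2) (hG.symm a3)
    (hG.symm b1) (hG.symm b2) (hG.symm b3) hxy hyz

/-- a vertex of a complete multipartite set misses at most one vertex of a triangle in it -/
theorem CM.miss {S : V → Prop} (hS : CM E S) (hG : IsG E) {y : Fin 3 → V} (hy : ∀ i, S (y i))
    (hyy : ∀ i j, i ≠ j → E (y i) (y j)) {z : V} (hz : S z) : ∃ i, ∀ j, j ≠ i → E z (y j) := by
  by_cases h : ∃ i, ¬ E z (y i)
  · obtain ⟨i, hi⟩ := h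
    refine ⟨i, fun j hj => ?_⟩
    by_contra h2
    exact hS (y i) z (y j) (hy i) hz (hy j) (fun h' => hi (hG.symm h')) h2 (hyy i j hj.symm)
  · push Not at h
    exact ⟨0, fun j _ => h j⟩

theorem Bl.of_three (hG : IsG E) (h1 : C1 E) (hq : K4 E q) {y : Fin 3 → V}
    (hy : ∀ i, Bl E q (y i)) (hyy : ∀ i j, i ≠ j → E (y i) (y j)) {x : V}
    (hx : ∀ i, E x (y i)) : Bl E q x := by
  by_contra hb
  have hb' : ∀ i, ∃ j, j ≠ i ∧ ¬ E x (q j) := by
    intro i
    by_contra h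
    push Not at h
    exact hb ⟨i, h⟩
  obtain ⟨j, -, hj⟩ := hb' 0
  obtain ⟨k, hkj, hk⟩ := hb' j
  have hcm := bl_cm hG h1 hq
  have key : ∀ l, ¬ E x (q l) → ∀ i, E (q l) (y i) := by
    intro l hl i
    obtain ⟨i', hi'⟩ := hcm.miss hG hy hyy (hq.bl l)
    by_cases hii : i = i'
    · subst hii
      by_contra h
      obtain ⟨a, b, hab, hai, hbi⟩ := pick3 i
      exact h1 (y a) (y b) x (q l) (y i) (hyy a b hab) (hG.symm (hx a)) (hG.symm (hi' a hai))
        (hyy a i hai) (hG.symm (hx b)) (hG.symm (hi' b hbi)) (hyy b i hbi) hl h (hx i)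
    · exact hi' i hii
  exact h1 (y 0) (y 1) (q j) x (q k) (hyy 0 1 (by decide)) (hG.symm (key j hj 0))
    (hG.symm (hx 0)) (hG.symm (key k hk 0)) (hG.symm (key j hj 1)) (hG.symm (hx 1))
    (hG.symm (key k hk 1)) (fun h => hj (hG.symm h)) hk (hq j k hkj.symm)

theorem Bl.of_two (hG : IsG E) (h1 : C1 E) (hq : K4 E q) {x y z : V} (hy : Bl E q y)
    (hz : Bl E q z) (hyz : E y z) (hxy : E x y) (hxz : E x z) : Bl E q x := by
  obtain ⟨i, hi⟩ := id hy
  obtain ⟨j, hj⟩ := id hz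
  obtain ⟨l, l', h2, h3, h4, h5, h6⟩ := pick2 i j
  have key : ∀ l, l ≠ i → l ≠ j → E x (q l) → Bl E q x := by
    intro l h3 h4 hxl
    refine Bl.of_three hG h1 hq (y := ![y, z, q l]) ?_ ?_ ?_
    · intro a
      fin_cases a
      · exact hy
      · exact hz
      · exact hq.bl l
    · intro a b hab
      fin_cases a <;> fin_cases b
      · exact absurd rfl hab
      · exact hyz
      · exact hi l h3
      · exact hG.symm hyz
      · exact absurd rfl hab
      · exact hj l h4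
      · exact hG.symm (hi l h3)
      · exact hG.symm (hj l h4)
      · exact absurd rfl hab
    · intro a
      fin_cases a
      · exact hxy
      · exact hxz
      · exact hxl
  by_cases hxl : E x (q l)
  · exact key l h3 h4 hxl
  · by_cases hxl' : E x (q l')
    · exact key l' h5 h6 hxl'
    · exfalso
      exact h1 y z (q l) x (q l') hyz (hi l h3) (hG.symm hxy) (hi l' h5) (hj l h4)
        (hG.symm hxz) (hj l' h6) (fun h => hxl (hG.symm h)) hxl' (hq l l' h2)

/-- an outside vertex attaches to one part only -/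
theorem attach (hG : IsG E) (h1 : C1 E) (hq : K4 E q) {x y z : V} (hx : ¬ Bl E q x)
    (hy : Bl E q y) (hz : Bl E q z) (hyz : E y z) (hxy : E x y) : ¬ E x z :=
  fun hxz => hx (Bl.of_two hG h1 hq hy hz hyz hxy hxz)

/-- a vertex of the clique that is adjacent to three given vertices -/
theorem Bl.common (hG : IsG E) {y1 y2 y3 : V} (h1 : Bl E q y1) (h2 : Bl E q y2)
    (h3 : Bl E q y3) : ∃ l, E (q l) y1 ∧ E (q l) y2 ∧ E (q l) y3 := by
  obtain ⟨i, hi⟩ := h1
  obtain ⟨j, hj⟩ := h2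
  obtain ⟨k, hk⟩ := h3
  obtain ⟨l, h4, h5, h6⟩ := pick1 i j k
  exact ⟨l, hG.symm (hi l h4), hG.symm (hj l h5), hG.symm (hk l h6)⟩

end Pool.Agent.H.MP_6f30b3_lc.h34
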