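import Mathlib

/-!
MP_6f30b3_lc: graph isomorphism on classes of graphs; polynomial time and reductions.

Time is measured with Mathlib's `Turing.TM2ComputableInPolyTime`. Graphs are coded by words over
`Bool`: the number of vertices in unary, followed by the adjacency matrix row by row.
-/

namespace Pool.Agent.H.MP_6f30b3_lc.h34

open Turing Computability

open Classical in
/-- The word of a graph with `n` vertices: `n` in unary, a zero, and the adjacency matrix row by
row. -/
noncomputable def code {n : ℕ} (G : SimpleGraph (Fin n)) : List Bool :=
  List.replicate n true ++ false ::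
    (List.finRange n).flatMap fun i => (List.finRange n).map fun j => decide (G.Adj i j)

/-- The graph `co-(2P₁ + P₃)`. -/
def coTwoP1P3 : SimpleGraph (Fin 2 ⊕ Fin 3) :=
  (SimpleGraph.sum (⊥ : SimpleGraph (Fin 2)) (SimpleGraph.pathGraph 3))ᶜ

/-- A class of finite graphs. -/
abbrev GraphClass := (n : ℕ) → SimpleGraph (Fin n) → Prop

/-- The class of the problem: the `(co-(2P₁ + P₃), P₅)`-free graphs. -/
def ClassA : GraphClass := fun _ G =>
  ¬ coTwoP1P3.IsIndContained G ∧ ¬ (SimpleGraph.pathGraph 5).IsIndContained G

/-- The `(K₄, P₅)`-free graphs. -/
def ClassB : GraphClass := fun _ G =>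
  ¬ (⊤ : SimpleGraph (Fin 4)).IsIndContained G ∧ ¬ (SimpleGraph.pathGraph 5).IsIndContained G

/-- The function `f` decides isomorphism of graphs of the class `C`. The input is the word of the
first graph followed by the word of the second graph. Nothing is required of `f` if one of the
graphs is outside `C`. -/
def Decides (C : GraphClass) (f : List Bool → Bool) : Prop :=
  ∀ (n m : ℕ) (G : SimpleGraph (Fin n)) (H : SimpleGraph (Fin m)), C n G → C m H →
    (f (code G ++ code H) = true ↔ Nonempty (G ≃g H))

/-- GRAPH ISOMORPHISM on the class `C` is solvable in polynomial time. -/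
def GIinP (C : GraphClass) : Prop :=
  ∃ f : List Bool → Bool,
    Nonempty (TM2ComputableInPolyTime (fun s : List Bool => s) encodeBool f) ∧ Decides C f

/-- The word of a list of words: every word is preceded by its length in unary and a zero. -/
def listCode (ws : List (List Bool)) : List Bool :=
  ws.flatMap fun w => List.replicate w.length true ++ false :: w

/-- GRAPH ISOMORPHISM on the class `C` is polynomial-time truth-table reducible to GRAPH
ISOMORPHISM on the class `D`: a polynomial-time function `Q` produces from a pair of graphs of `C`
a list of questions about pairs of graphs of `D`, and a polynomial-time function `A` computes the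
answer from the pair and the answers to the questions. -/
def TTReducible (C D : GraphClass) : Prop :=
  ∃ (Q : List Bool → List (List Bool)) (A : List Bool → Bool),
    Nonempty (TM2ComputableInPolyTime (fun s : List Bool => s) listCode Q) ∧
    Nonempty (TM2ComputableInPolyTime (fun s : List Bool => s) encodeBool A) ∧
    ∀ (n m : ℕ) (G : SimpleGraph (Fin n)) (H : SimpleGraph (Fin m)), C n G → C m H →
      (∀ w ∈ Q (code G ++ code H), ∃ (n' m' : ℕ) (G' : SimpleGraph (Fin n'))
        (H' : SimpleGraph (Fin m')), D n' G' ∧ D m' H' ∧ w = code G' ++ code H') ∧
      ∀ f : List Bool → Bool, Decides D f →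
        (A (listCode [code G ++ code H, (Q (code G ++ code H)).map f]) = true ↔
          Nonempty (G ≃g H))

end Pool.Agent.H.MP_6f30b3_lc.h34
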