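import Pool.Agent.H.MP_6f30b3_lc.h34.Iso
import Pool.Agent.H.MP_6f30b3_lc.h34.Stmt

/-!
MP_6f30b3_lc: blow-ups of graphs without twins.
-/

namespace Pool.Agent.H.MP_6f30b3_lc.h34

/-- blow-ups of graphs without twins -/
theorem blow_abs {I J X Y : Type*} [Finite I] [Finite J] (a : I → X) (b : J → Y)
    (ha : Function.Surjective a) (hb : Function.Surjective b) (EX : X → X → Prop)
    (EY : Y → Y → Prop) (hX : ∀ x x', (∀ z, EX x z ↔ EX x' z) → x = x')
    (hY : ∀ x x', (∀ z, EY x z ↔ EY x' z) → x = x') :
    (∃ e : I ≃ J, ∀ i i', EX (a i) (a i') ↔ EY (b (e i)) (b (e i'))) ↔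
      ∃ g : X ≃ Y, (∀ x x', EX x x' ↔ EY (g x) (g x')) ∧
        ∀ x, Nat.card {i // a i = x} = Nat.card {j // b j = g x} := by
  constructor
  · rintro ⟨e, he⟩
    have cl : ∀ i i', a i = a i' ↔ b (e i) = b (e i') := by
      intro i i'
      constructor
      · intro h
        refine hY _ _ fun z => ?_
        obtain ⟨j, rfl⟩ := hb z
        obtain ⟨k, rfl⟩ := e.surjective j
        rw [← he, ← he, h]
      · intro h
        refine hX _ _ fun z => ?_
        obtain ⟨k, rfl⟩ := ha z
        rw [he, he, h]
    let g0 : X → Y := fun x => b (e (Function.surjInv ha x))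
    have hg0 : ∀ i, g0 (a i) = b (e i) := fun i =>
      (cl _ _).1 (Function.surjInv_eq ha (a i))
    have hinj : Function.Injective g0 := by
      intro x x' h
      obtain ⟨i, rfl⟩ := ha x
      obtain ⟨i', rfl⟩ := ha x'
      rw [hg0, hg0] at h
      exact (cl _ _).2 h
    have hsurj : Function.Surjective g0 := by
      intro y
      obtain ⟨j, rfl⟩ := hb y
      obtain ⟨k, rfl⟩ := e.surjective j
      exact ⟨a k, hg0 k⟩
    refine ⟨Equiv.ofBijective g0 ⟨hinj, hsurj⟩, fun x x' => ?_, fun x => ?_⟩
    · show EX x x' ↔ EY (g0 x) (g0 x')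
      obtain ⟨i, rfl⟩ := ha x
      obtain ⟨i', rfl⟩ := ha x'
      rw [hg0, hg0]
      exact he i i'
    · show _ = Nat.card {j // b j = g0 x}
      obtain ⟨i, rfl⟩ := ha x
      rw [hg0]
      exact Nat.card_congr (e.subtypeEquiv fun i' => cl i' i)
  · rintro ⟨g, hg, hc⟩
    have h1 : ∀ y, Nonempty ({i // g (a i) = y} ≃ {j // b j = y}) := by
      intro y
      refine Finite.card_eq.1 ?_
      have h2 := hc (g.symm y)
      rw [Equiv.apply_symm_apply] at h2
      rw [← h2]
      exact Nat.card_congr (Equiv.subtypeEquivRight fun i => g.eq_symm_apply.symm)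
    let e : I ≃ J := Equiv.ofFiberEquiv (f := fun i => g (a i)) (g := b) fun y =>
      Classical.choice (h1 y)
    have he : ∀ i, b (e i) = g (a i) := fun i => Equiv.ofFiberEquiv_map _ i
    exact ⟨e, fun i i' => by rw [he, he]; exact hg _ _⟩

/-- the graph of a list of vertices -/
def LG (A : ℕ → ℕ → Bool) (hs : ∀ x y, A x y = true → A y x = true) (hi : ∀ x, A x x ≠ true)
    (L : List ℕ) : SimpleGraph (Fin L.length) where
  Adj i j := A (L.get i) (L.get j) = true
  symm := ⟨fun _ _ h => hs _ _ h⟩
  loopless := ⟨fun _ h => hi _ h⟩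

/-- the blow-up as a list -/
def bl (N : ℕ) (p : ℕ → Bool) (m : ℕ → ℕ) : List ℕ :=
  ((List.range N).filter p).flatMap fun x => (List.range (m x)).map fun _ => x

theorem mem_bl {N : ℕ} {p : ℕ → Bool} {m : ℕ → ℕ} {x : ℕ} :
    x ∈ bl N p m ↔ (x < N ∧ p x = true) ∧ 0 < m x := by
  unfold bl
  simp only [List.mem_flatMap, List.mem_filter, List.mem_range, List.mem_map]
  constructor
  · rintro ⟨y, hy, i, hi, rfl⟩
    exact ⟨hy, by omega⟩
  · rintro ⟨h1, h2⟩
    exact ⟨x, h1, 0, h2, rfl⟩

theorem count_bl {N : ℕ} {p : ℕ → Bool} {m : ℕ → ℕ} {x : ℕ} (hx : x < N) (hp : p x = true) :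
    (bl N p m).count x = m x := by
  have key : ∀ l : List ℕ, l.Nodup → (l.flatMap fun x => (List.range (m x)).map fun _ => x).count x
      = if x ∈ l then m x else 0 := by
    intro l
    induction l with
    | nil => intro _; simp
    | cons a l ih =>
      intro hn
      rw [List.nodup_cons] at hn
      rw [List.flatMap_cons, List.count_append, ih hn.2, List.map_const', List.length_range,
        List.count_replicate]
      by_cases hax : a = x
      · subst hax
        simp [hn.1]
      · have : x ≠ a := fun h => hax h.symm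
        simp [hax, this]
  unfold bl
  rw [key _ (List.nodup_range.filter _), if_pos]
  rw [List.mem_filter, List.mem_range]
  exact ⟨hx, hp⟩

theorem card_get (L : List ℕ) (x : ℕ) : Nat.card {i : Fin L.length // L.get i = x} = L.count x := by
  classical
  have e : L.count x = ((List.finRange L.length).filter fun i => L.get i == x).length := by
    conv_lhs => rw [← List.map_get_finRange L]
    rw [List.count, List.countP_map, List.countP_eq_length_filter]
    rfl
  rw [e, ← List.toFinset_card_of_nodup ((List.nodup_finRange _).filter _),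
    Nat.card_eq_fintype_card, Fintype.card_subtype]
  congr 1
  ext v
  simp

end Pool.Agent.H.MP_6f30b3_lc.h34
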