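import Pool.Agent.H.MP_6f30b3_lc.h34.Blow
import Pool.Agent.H.MP_6f30b3_lc.h34.BCor

/-!
MP_6f30b3_lc: the questions: blow-ups of induced subgraphs of the quotient.
-/

namespace Pool.Agent.H.MP_6f30b3_lc.h34

section
variable {N : ℕ} {F : Fin N → Fin N → Prop} {A : ℕ → ℕ → Bool}
  (hs : ∀ x y, A x y = true → A y x = true) (hi : ∀ x, A x x ≠ true)
  (hA : ∀ v w : Fin N, A v w = true ↔ F v w)

/-- the vertex of the induced subgraph that belongs to a position of the list -/
def pos {N : ℕ} (p : ℕ → Bool) (m : ℕ → ℕ) (i : Fin (bl N p m).length) :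
    {v : Fin N // p v = true} :=
  ⟨⟨(bl N p m).get i, (mem_bl.1 (List.get_mem _ i)).1.1⟩, (mem_bl.1 (List.get_mem _ i)).1.2⟩

theorem pos_surj (p : ℕ → Bool) (m : ℕ → ℕ) (hm : ∀ x, 0 < m x) :
    Function.Surjective (pos (N := N) p m) := by
  rintro ⟨v, hv⟩
  have h : v.1 ∈ bl N p m := mem_bl.2 ⟨⟨v.2, hv⟩, hm _⟩
  obtain ⟨i, hi⟩ := List.get_of_mem h
  exact ⟨i, Subtype.ext (Fin.ext hi)⟩

theorem pos_card (p : ℕ → Bool) (m : ℕ → ℕ) (x : {v : Fin N // p v = true}) :
    Nat.card {i // pos p m i = x} = m x.1 := by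
  rw [← count_bl (m := m) x.1.2 x.2, ← card_get]
  refine Nat.card_congr (Equiv.subtypeEquivRight fun i => ?_)
  constructor
  · intro h
    exact congrArg (fun y : {v : Fin N // p v = true} => y.1.1) h
  · intro h
    exact Subtype.ext (Fin.ext h)

include hA in
theorem lg_iso (p p' : ℕ → Bool) (m m' : ℕ → ℕ) (hm : ∀ x, 0 < m x) (hm' : ∀ x, 0 < m' x)
    (ht : ∀ v w : Fin N, p v = true → p w = true →
      (∀ x : Fin N, p x = true → (F v x ↔ F w x)) → v = w)
    (ht' : ∀ v w : Fin N, p' v = true → p' w = true →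
      (∀ x : Fin N, p' x = true → (F v x ↔ F w x)) → v = w) :
    Nonempty (LG A hs hi (bl N p m) ≃g LG A hs hi (bl N p' m')) ↔
      Si F (fun v => p v = true) (fun v => p' v = true) (fun v => m v) (fun v => m' v) := by
  have h := blow_abs (pos (N := N) p m) (pos (N := N) p' m') (pos_surj p m hm)
    (pos_surj p' m' hm') (fun x y => F x.1 y.1) (fun x y => F x.1 y.1)
    (fun x x' h => Subtype.ext (ht _ _ x.2 x'.2 fun z hz => h ⟨z, hz⟩))
    (fun x x' h => Subtype.ext (ht' _ _ x.2 x'.2 fun z hz => h ⟨z, hz⟩))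
  have h1 : Nonempty (LG A hs hi (bl N p m) ≃g LG A hs hi (bl N p' m')) ↔
      ∃ e : Fin (bl N p m).length ≃ Fin (bl N p' m').length, ∀ i i',
        F (pos p m i).1 (pos p m i').1 ↔ F (pos p' m' (e i)).1 (pos p' m' (e i')).1 := by
    constructor
    · rintro ⟨f⟩
      refine ⟨f.toEquiv, fun i i' => ?_⟩
      rw [← hA, ← hA]
      exact f.map_rel_iff.symm
    · rintro ⟨e, he⟩
      refine ⟨⟨e, fun {i i'} => ?_⟩⟩
      have := he i i'
      rw [← hA, ← hA] at this
      exact this.symm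
  rw [h1, h]
  unfold Si
  simp only [pos_card]

include hA in
theorem lg_classB (p : ℕ → Bool) (m : ℕ → ℕ) (hP : NoP5 F)
    (hk : ∀ q : Fin 4 → Fin N, K4 F q → (∀ i, p (q i) = true) → False) :
    ClassB _ (LG A hs hi (bl N p m)) := by
  have key : ∀ {n : ℕ} {K : SimpleGraph (Fin n)} (f : K ↪g LG A hs hi (bl N p m)) (i j : Fin n),
      F (pos p m (f i)).1 (pos p m (f j)).1 ↔ K.Adj i j := by
    intro n K f i j
    rw [← hA]
    exact f.map_rel_iff
  constructor
  · rintro ⟨f⟩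
    exact hk (fun i => (pos p m (f i)).1) (fun i j hij => (key f i j).2 hij)
      (fun i => (pos p m (f i)).2)
  · rintro ⟨f⟩
    have k2 : ∀ i j : Fin 5, ¬ (SimpleGraph.pathGraph 5).Adj i j →
        ¬ F (pos p m (f i)).1 (pos p m (f j)).1 := fun i j h h' => h ((key f i j).1 h')
    refine hP (pos p m (f 0)).1 (pos p m (f 1)).1 (pos p m (f 2)).1 (pos p m (f 3)).1
      (pos p m (f 4)).1 ⟨(key f _ _).2 ?_, (key f _ _).2 ?_, (key f _ _).2 ?_, (key f _ _).2 ?_,
      k2 _ _ ?_, k2 _ _ ?_, k2 _ _ ?_, k2 _ _ ?_, k2 _ _ ?_, k2 _ _ ?_⟩ <;>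
    simp [SimpleGraph.pathGraph_adj]

end

theorem gcode_eq (s : Inst) (hs : ∀ x y, fadj s x y = true → fadj s y x = true)
    (hi : ∀ x, fadj s x x ≠ true) (L : List ℕ) : gcode s L = code (LG (fadj s) hs hi L) := by
  classical
  unfold gcode code
  have h1 : (L.map fun _ => true) = List.replicate L.length true := List.map_const'
  rw [h1]
  congr 2
  conv_lhs => rw [← List.map_get_finRange L]
  rw [List.flatMap_map]
  refine List.flatMap_congr fun i _ => ?_
  rw [List.map_map]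
  refine List.map_congr_left fun j _ => ?_
  rw [Bool.eq_iff_iff, decide_eq_true_iff]
  exact Iff.rfl

end Pool.Agent.H.MP_6f30b3_lc.h34
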