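import Pool.Agent.H.MP_6f30b3_lc.h34.Struct

/-!
MP_6f30b3_lc: components of graphs without induced path on five vertices.
-/

namespace Pool.Agent.H.MP_6f30b3_lc.h34

variable {V : Type*} {E : V → V → Prop}

theorem co.refl (v : V) : co E v v := ⟨v, v, Or.inl rfl, Or.inl rfl, Or.inl rfl⟩

theorem co.of_adj {v w : V} (h : E v w) : co E v w := ⟨v, v, Or.inl rfl, Or.inl rfl, Or.inr h⟩

theorem co.symm (hG : IsG E) {v w : V} (h : co E v w) : co E w v := by
  obtain ⟨x, y, h1, h2, h3⟩ := h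
  have key : ∀ {a b : V}, (a = b ∨ E a b) → (b = a ∨ E b a) := by
    rintro a b (h | h)
    · exact Or.inl h.symm
    · exact Or.inr (hG.symm h)
  exact ⟨y, x, key h3, key h2, key h1⟩

theorem co.step (hP : NoP5 E) {v w u : V} (h : co E v w) (hwu : E w u) :
    co E v u := by
  obtain ⟨x, y, h1, h2, h3⟩ := h
  rcases h1 with rfl | h1
  · exact ⟨y, w, h2, h3, Or.inr hwu⟩
  rcases h2 with rfl | h2
  · exact ⟨x, w, Or.inr h1, h3, Or.inr hwu⟩
  rcases h3 with rfl | h3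
  · exact ⟨x, y, Or.inr h1, Or.inr h2, Or.inr hwu⟩
  by_contra hn
  refine hP v x y w u ⟨h1, h2, h3, hwu, ?_, ?_, ?_, ?_, ?_, ?_⟩ <;> intro h
  · exact hn ⟨y, w, Or.inr h, Or.inr h3, Or.inr hwu⟩
  · exact hn ⟨w, w, Or.inr h, Or.inl rfl, Or.inr hwu⟩
  · exact hn ⟨v, v, Or.inl rfl, Or.inl rfl, Or.inr h⟩
  · exact hn ⟨x, w, Or.inr h1, Or.inr h, Or.inr hwu⟩
  · exact hn ⟨x, x, Or.inr h1, Or.inl rfl, Or.inr h⟩
  · exact hn ⟨x, y, Or.inr h1, Or.inr h2, Or.inr h⟩

theorem co.trans (hP : NoP5 E) {v w u : V} (h : co E v w) (h' : co E w u) :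
    co E v u := by
  obtain ⟨x, y, h1, h2, h3⟩ := h'
  have key : ∀ {a b : V}, co E v a → (a = b ∨ E a b) → co E v b := by
    rintro a b h (rfl | h')
    · exact h
    · exact h.step hP h'
  exact key (key (key h h1) h2) h3

theorem co.inv {sd : V → Bool} (hsd : ∀ v w, E v w → sd v = sd w) {v w : V}
    (h : co E v w) : sd v = sd w := by
  obtain ⟨x, y, h1, h2, h3⟩ := h
  have key : ∀ {a b : V}, (a = b ∨ E a b) → sd a = sd b := by
    rintro a b (rfl | h')
    · rfl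
    · exact hsd _ _ h'
  exact (key h1).trans ((key h2).trans (key h3))

end Pool.Agent.H.MP_6f30b3_lc.h34
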