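import Pool.Agent.H.MP_6f30b3_lc.h34.Blow2

/-!
MP_6f30b3_lc: correctness of the algorithm.
-/

namespace Pool.Agent.H.MP_6f30b3_lc.h34

/-- the instances on which the algorithm is correct -/
structure Good (s : Inst) : Prop where
  symm : ∀ v w, adj s v w = true → adj s w v = true
  irr : ∀ v, adj s v v ≠ true
  c1 : C1 (EE s)
  p5 : NoP5 (EE s)
  sd : ∀ v w, EE s v w → sdF s v = sdF s w

/-- colours of the vertices -/
def cc (s : Inst) (v : Fin (iN s)) : ℕ := col s v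

theorem Si.label {V Λ Λ' : Type*} {E : V → V → Prop} {S T : V → Prop} {l l' : V → Λ}
    {k k' : V → Λ'} (h : ∀ x y, l x = l' y ↔ k x = k' y) :
    Si E S T l l' ↔ Si E S T k k' := by
  unfold Si
  simp only [h]

variable {s : Inst}

theorem Good.isG (h : Good s) : IsG (EE s) := ⟨fun h' => h.symm _ _ h', fun h' => h.irr _ h'⟩

theorem Good.fG (h : Good s) : IsG (FF s) := FQ.isG h.isG

theorem Good.fP (h : Good s) : NoP5 (FF s) := FQ.p5 h.p5

theorem Good.fC (h : Good s) : C1 (FF s) := FQ.c1 h.c1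

theorem Good.rp (h : Good s) : Rp (EE s) (sdF s) (rpF s) := rp_spec s h.sd

theorem Good.trim (h : Good s) : Trim (FF s) := FQ.trim h.isG h.c1 h.rp

theorem Good.fsymm (h : Good s) (x y : ℕ) (hxy : fadj s x y = true) : fadj s y x = true := by
  unfold fadj at hxy ⊢
  rw [Bool.and_eq_true, Bool.and_eq_true] at hxy ⊢
  exact ⟨⟨hxy.1.2, hxy.1.1⟩, h.symm _ _ hxy.2⟩

theorem Good.firr (h : Good s) (x : ℕ) : fadj s x x ≠ true := by
  intro hxy
  unfold fadj at hxy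
  rw [Bool.and_eq_true, Bool.and_eq_true] at hxy
  exact h.irr _ hxy.2

theorem Good.co_cases (h : Good s) {v w : Fin (iN s)} (hvw : co (FF s) v w) :
    v = w ∨ (rpF s v = v ∧ rpF s w = w ∧ sdF s v = sdF s w) := by
  have hsd : sdF s v = sdF s w := hvw.inv (sd := sdF s) fun a b hab => h.sd _ _ hab.2.2
  obtain ⟨x, y, h1, h2, h3⟩ := hvw
  have key : ∀ {a b : Fin (iN s)}, (a = b ∨ FF s a b) → a = b ∨ (rpF s a = a ∧ rpF s b = b) := by
    rintro a b (h' | h')
    · exact Or.inl h'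
    · exact Or.inr ⟨h'.1, h'.2.1⟩
  have h1 := key h1
  have h2 := key h2
  have h3 := key h3
  rcases h1 with rfl | ⟨h1, h1'⟩ <;> rcases h2 with rfl | ⟨h2, h2'⟩ <;>
    rcases h3 with rfl | ⟨h3, h3'⟩
  · exact Or.inl rfl
  · exact Or.inr ⟨h3, h3', hsd⟩
  · exact Or.inr ⟨h2, h2', hsd⟩
  · exact Or.inr ⟨h2, h3', hsd⟩
  · exact Or.inr ⟨h1, h1', hsd⟩
  · exact Or.inr ⟨h1, h3', hsd⟩
  · exact Or.inr ⟨h1, h2', hsd⟩
  · exact Or.inr ⟨h1, h3', hsd⟩

theorem Good.twin (h : Good s) (v w : Fin (iN s)) (hvw : co (FF s) v w) (ht : sN (FF s) v w) :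
    v = w := by
  rcases h.co_cases hvw with h1 | ⟨h1, h2, h3⟩
  · exact h1
  · exact h.rp.twinfree h.isG h.c1 h1 h2 h3 ht

theorem Good.twinC (h : Good s) {u v w : Fin (iN s)} (hv : co (FF s) u v) (hw : co (FF s) u w)
    (ht : ∀ x, co (FF s) u x → (FF s v x ↔ FF s w x)) : v = w := by
  refine h.twin v w ((hv.symm h.fG).trans h.fP hw) fun x => ?_
  by_cases hx : co (FF s) u x
  · exact ht x hx
  · exact ⟨fun h' => absurd (hv.step h.fP h') hx, fun h' => absurd (hw.step h.fP h') hx⟩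

theorem Good.ctx (h : Good s) {q : Fin 4 → Fin (iN s)} (hq : K4 (FF s) q) : Ctx (FF s) q :=
  ⟨h.fG, h.fC, h.fP, hq⟩

/-! ### the questions -/

theorem LC_eq (s : Inst) (v : ℕ) :
    LC s v = bl (iN s) (fun x => bco s v x) (fun x => 3 * col s x + 1) := rfl

theorem LP_eq (s : Inst) (q : Q4) (x : ℕ) :
    LP s q x = bl (iN s) (fun y => bco s q.1 y && bsp s q x y)
      (fun y => 3 * col s y + blab s q y + 1) := rfl

theorem co_comp {q : Fin 4 → Fin (iN s)} {i : Fin 4} (hK : K4 (FF s) q) :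
    co (FF s) (q 0) (q i) := by
  by_cases hi : i = 0
  · rw [hi]; exact co.refl _
  · exact co.of_adj (hK 0 i (fun h' => hi h'.symm))

theorem qC_spec (h : Good s) {v w : Fin (iN s)} (hv : ¬ Hk (FF s) v) (hw : ¬ Hk (FF s) w) :
    ∃ (n' m' : ℕ) (G' : SimpleGraph (Fin n')) (H' : SimpleGraph (Fin m')),
      ClassB n' G' ∧ ClassB m' H' ∧ qC s v w = code G' ++ code H' ∧
        (Nonempty (G' ≃g H') ↔ CI (FF s) (cc s) v w) := by
  have key : ∀ {v : Fin (iN s)}, ¬ Hk (FF s) v →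
      ClassB _ (LG (fadj s) h.fsymm h.firr (LC s v)) := by
    intro v hv
    rw [LC_eq]
    refine lg_classB h.fsymm h.firr (fadj_iff s) _ _ h.fP fun q hq hqv => hv ⟨q, hq, ?_⟩
    exact (bco_iff s v (q 0)).1 (hqv 0)
  refine ⟨_, _, LG (fadj s) h.fsymm h.firr (LC s v), LG (fadj s) h.fsymm h.firr (LC s w),
    key hv, key hw, ?_, ?_⟩
  · unfold qC
    rw [gcode_eq s h.fsymm h.firr, gcode_eq s h.fsymm h.firr]
  · rw [LC_eq, LC_eq, lg_iso h.fsymm h.firr (fadj_iff s) _ _ _ _ (fun _ => by omega)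
      (fun _ => by omega)]
    · unfold CI
      have e : ∀ u : Fin (iN s), (fun x : Fin (iN s) => bco s u x = true) = co (FF s) u :=
        fun u => funext fun x => propext (bco_iff s u x)
      rw [e, e]
      exact Si.label fun x y => by unfold cc; omega
    · intro a b ha hb hx
      exact h.twinC ((bco_iff s v a).1 ha) ((bco_iff s v b).1 hb)
        fun x hx' => hx x ((bco_iff s v x).2 hx')
    · intro a b ha hb hx
      exact h.twinC ((bco_iff s w a).1 ha) ((bco_iff s w b).1 hb)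
        fun x hx' => hx x ((bco_iff s w x).2 hx')

theorem lab_le (E : Fin (iN s) → Fin (iN s) → Prop) (q : Fin 4 → Fin (iN s)) (x : Fin (iN s)) :
    lab E q x ≤ 2 := by
  rcases trich E q x with h | h | h
  · rw [lab_bl h]; omega
  · rw [lab_l1 h]; omega
  · rw [lab_l2 h]

theorem qP_spec (h : Good s) {q q' : Fin 4 → Fin (iN s)} (hq : K4 (FF s) q) (hq' : K4 (FF s) q')
    (v w : Fin (iN s)) :
    ∃ (n' m' : ℕ) (G' : SimpleGraph (Fin n')) (H' : SimpleGraph (Fin m')),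
      ClassB n' G' ∧ ClassB m' H' ∧ qP s (qn q) v (qn q') w = code G' ++ code H' ∧
        (Nonempty (G' ≃g H') ↔ PI (FF s) (cc s) (q, v) (q', w)) := by
  have e1 : ∀ (q : Fin 4 → Fin (iN s)) (v y : Fin (iN s)),
      (bco s (qn q).1 y && bsp s (qn q) v y) = true ↔ co (FF s) (q 0) y ∧ sp (FF s) q v y :=
    fun q v y => and_bool_iff (bco_iff s (q 0) y) (bsp_iff s q v y)
  have key : ∀ {q : Fin 4 → Fin (iN s)} (v : Fin (iN s)), K4 (FF s) q →
      ClassB _ (LG (fadj s) h.fsymm h.firr (LP s (qn q) v)) := by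
    intro q v hq
    rw [LP_eq]
    refine lg_classB h.fsymm h.firr (fadj_iff s) _ _ h.fP fun p hp hpv => ?_
    have h2 : ∀ i, co (FF s) (q 0) (p i) ∧ sp (FF s) q v (p i) := fun i => (e1 q v (p i)).1 (hpv i)
    exact piece_k4free (h.ctx hq) h.trim hp (fun i => (h2 i).1)
      (fun i j => (h2 i).2.symm.trans (h2 j).2)
  have tw : ∀ {q : Fin 4 → Fin (iN s)} (v : Fin (iN s)), K4 (FF s) q → ∀ a b : Fin (iN s),
      (bco s (qn q).1 a && bsp s (qn q) v a) = true → (bco s (qn q).1 b && bsp s (qn q) v b) = true →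
      (∀ x : Fin (iN s), (bco s (qn q).1 x && bsp s (qn q) v x) = true → (FF s a x ↔ FF s b x)) →
      a = b := by
    intro q v hq a b ha hb hx
    have ha := (e1 q v a).1 ha
    have hb := (e1 q v b).1 hb
    refine piece_twinfree (h.ctx hq) h.trim h.twin ha.1 hb.1 (ha.2.symm.trans hb.2) ?_
    intro x hx1 hx2
    exact hx x ((e1 q v x).2 ⟨hx1, ha.2.trans hx2⟩)
  refine ⟨_, _, LG (fadj s) h.fsymm h.firr (LP s (qn q) v),
    LG (fadj s) h.fsymm h.firr (LP s (qn q') w), key v hq, key w hq', ?_, ?_⟩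
  · unfold qP
    rw [gcode_eq s h.fsymm h.firr, gcode_eq s h.fsymm h.firr]
  · rw [LP_eq, LP_eq, lg_iso h.fsymm h.firr (fadj_iff s) _ _ _ _ (fun _ => by omega)
      (fun _ => by omega) (tw v hq) (tw w hq')]
    unfold PI
    have e : ∀ (q : Fin 4 → Fin (iN s)) (v : Fin (iN s)),
        (fun x : Fin (iN s) => (bco s (qn q).1 x && bsp s (qn q) v x) = true) =
          fun x => co (FF s) (q 0) x ∧ sp (FF s) q v x :=
      fun q v => funext fun x => propext (e1 q v x)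
    rw [e, e]
    refine Si.label fun x y => ?_
    show _ ↔ (lab (FF s) q x, cc s x) = (lab (FF s) q' y, cc s y)
    rw [blab_eq, blab_eq, Prod.mk.injEq]
    have h1 := lab_le (FF s) q x
    have h2 := lab_le (FF s) q' y
    unfold cc
    omega

/-! ### the answers -/

/-- the table contains the right answers -/
def Tab (T : List (List Bool × Bool)) (s : Inst) : Prop :=
  ∀ (n' m' : ℕ) (G' : SimpleGraph (Fin n')) (H' : SimpleGraph (Fin m')), ClassB n' G' →
    ClassB m' H' → code G' ++ code H' ∈ QQ s →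
      (lk T (code G' ++ code H') = true ↔ Nonempty (G' ≃g H'))

variable {T : List (List Bool × Bool)}

theorem qC_mem (h : Good s) {v w : Fin (iN s)} (hv : ¬ Hk (FF s) v) (hw : ¬ Hk (FF s) w) :
    qC s v w ∈ QQ s := by
  unfold QQ QC
  rw [List.mem_append]
  refine Or.inl (List.mem_flatMap.2 ⟨v, ?_, List.mem_map.2 ⟨w, ?_, rfl⟩⟩)
  · exact List.mem_filter.2 ⟨List.mem_range.2 v.2, (not_bool_iff (bHk_iff s h.fG v)).2 hv⟩
  · exact List.mem_filter.2 ⟨List.mem_range.2 w.2, (not_bool_iff (bHk_iff s h.fG w)).2 hw⟩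

theorem mem_prs (h : Good s) (a : Q4 × ℕ) : a ∈ prs s ↔ ∃ (q : Fin 4 → Fin (iN s))
    (v : Fin (iN s)), K4 (FF s) q ∧ co (FF s) (q 0) v ∧ a = (qn q, v.1) := by
  unfold prs
  rw [List.mem_flatMap]
  constructor
  · rintro ⟨q, hq, ha⟩
    rw [List.mem_filter] at hq
    obtain ⟨q, rfl⟩ := (mem_quads s q).1 hq.1
    rw [List.mem_map] at ha
    obtain ⟨v, hv, rfl⟩ := ha
    rw [List.mem_filter, List.mem_range] at hv
    exact ⟨q, ⟨v, hv.1⟩, (bK4_iff s h.fG q).1 hq.2, (bco_iff s (q 0) ⟨v, hv.1⟩).1 hv.2, rfl⟩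
  · rintro ⟨q, v, hq, hv, rfl⟩
    refine ⟨qn q, List.mem_filter.2 ⟨(mem_quads s _).2 ⟨q, rfl⟩, (bK4_iff s h.fG q).2 hq⟩, ?_⟩
    refine List.mem_map.2 ⟨v, List.mem_filter.2 ⟨List.mem_range.2 v.2, ?_⟩, rfl⟩
    exact (bco_iff s (q 0) v).2 hv

theorem qP_mem (h : Good s) {q q' : Fin 4 → Fin (iN s)} (hq : K4 (FF s) q) (hq' : K4 (FF s) q')
    {v w : Fin (iN s)} (hv : co (FF s) (q 0) v) (hw : co (FF s) (q' 0) w) :
    qP s (qn q) v (qn q') w ∈ QQ s := by
  unfold QQ QP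
  rw [List.mem_append]
  exact Or.inr (List.mem_flatMap.2 ⟨(qn q, v.1), (mem_prs h _).2 ⟨q, v, hq, hv, rfl⟩,
    List.mem_map.2 ⟨(qn q', w.1), (mem_prs h _).2 ⟨q', w, hq', hw, rfl⟩, rfl⟩⟩)

/-- all questions are about graphs of the class -/
theorem QQ_classB (h : Good s) : ∀ u ∈ QQ s, ∃ (n' m' : ℕ) (G' : SimpleGraph (Fin n'))
    (H' : SimpleGraph (Fin m')), ClassB n' G' ∧ ClassB m' H' ∧ u = code G' ++ code H' := by
  intro u hu
  unfold QQ at hu
  rw [List.mem_append] at hu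
  rcases hu with hu | hu
  · unfold QC at hu
    obtain ⟨v, hv, hu⟩ := List.mem_flatMap.1 hu
    obtain ⟨w, hw, rfl⟩ := List.mem_map.1 hu
    rw [List.mem_filter, List.mem_range] at hv hw
    obtain ⟨n', m', G', H', h1, h2, h3, -⟩ := qC_spec h (v := ⟨v, hv.1⟩) (w := ⟨w, hw.1⟩)
      ((not_bool_iff (bHk_iff s h.fG ⟨v, hv.1⟩)).1 hv.2)
      ((not_bool_iff (bHk_iff s h.fG ⟨w, hw.1⟩)).1 hw.2)
    exact ⟨n', m', G', H', h1, h2, h3⟩
  · unfold QP at hu
    obtain ⟨a, ha, hu⟩ := List.mem_flatMap.1 hu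
    obtain ⟨b, hb, rfl⟩ := List.mem_map.1 hu
    obtain ⟨q, v, hq, hv, rfl⟩ := (mem_prs h _).1 ha
    obtain ⟨q', w, hq', hw, rfl⟩ := (mem_prs h _).1 hb
    obtain ⟨n', m', G', H', h1, h2, h3, -⟩ := qP_spec h hq hq' v w
    exact ⟨n', m', G', H', h1, h2, h3⟩

theorem lkC (h : Good s) (hT : Tab T s) {v w : Fin (iN s)} (hv : ¬ Hk (FF s) v)
    (hw : ¬ Hk (FF s) w) : lk T (qC s v w) = true ↔ CI (FF s) (cc s) v w := by
  obtain ⟨n', m', G', H', h1, h2, h3, h4⟩ := qC_spec h hv hw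
  rw [← h4, h3]
  exact hT _ _ G' H' h1 h2 (h3 ▸ qC_mem h hv hw)

theorem lkP (h : Good s) (hT : Tab T s) {q q' : Fin 4 → Fin (iN s)} (hq : K4 (FF s) q)
    (hq' : K4 (FF s) q') {v w : Fin (iN s)} (hv : co (FF s) (q 0) v)
    (hw : co (FF s) (q' 0) w) :
    bPI T s (qn q) v (qn q') w = true ↔ PI (FF s) (cc s) (q, v) (q', w) := by
  obtain ⟨n', m', G', H', h1, h2, h3, h4⟩ := qP_spec h hq hq' v w
  unfold bPI
  rw [← h4, h3]
  exact hT _ _ G' H' h1 h2 (h3 ▸ qP_mem h hq hq' hv hw)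

theorem bcP_eq (h : Good s) (hT : Tab T s) {q q' : Fin 4 → Fin (iN s)} (hq : K4 (FF s) q)
    (hq' : K4 (FF s) q') {z : Fin (iN s)} (hz : co (FF s) (q' 0) z) :
    bcP T s (qn q) (qn q') z =
      Nat.card {x // co (FF s) (q 0) x ∧ PI (FF s) (cc s) (q, x) (q', z)} :=
  cnt_fin fun x => by
    rw [Bool.and_eq_true, show (qn q).1 = (q 0).1 from rfl, bco_iff]
    exact and_congr_right fun hx => lkP h hT hq hq' hx hz

theorem bPC_iff (h : Good s) (hT : Tab T s) {q q' : Fin 4 → Fin (iN s)} (hq : K4 (FF s) q)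
    (hq' : K4 (FF s) q') : bPC T s (qn q) (qn q') = true ↔ PC (FF s) (cc s) q q' := by
  unfold bPC PC
  refine and_bool_iff (all_fin fun z => ?_) (all_fin fun z => ?_)
  · by_cases hz : co (FF s) (q 0) z
    · show (!(bco s (q 0) z) || _) = true ↔ _
      rw [or_bool_iff (not_bool_iff (bco_iff s (q 0) z)) Iff.rfl, beq_iff_eq,
        bcP_eq h hT hq hq hz, bcP_eq h hT hq' hq hz]
      tauto
    · exact ⟨fun _ h' => absurd h' hz, fun _ => (or_bool_iff (not_bool_iff (bco_iff s (q 0) z))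
        Iff.rfl).2 (Or.inl hz)⟩
  · by_cases hz : co (FF s) (q' 0) z
    · show (!(bco s (q' 0) z) || _) = true ↔ _
      rw [or_bool_iff (not_bool_iff (bco_iff s (q' 0) z)) Iff.rfl, beq_iff_eq,
        bcP_eq h hT hq hq' hz, bcP_eq h hT hq' hq' hz]
      tauto
    · exact ⟨fun _ h' => absurd h' hz, fun _ => (or_bool_iff (not_bool_iff (bco_iff s (q' 0) z))
        Iff.rfl).2 (Or.inl hz)⟩

theorem bPm_iff (h : Good s) (hT : Tab T s) (v w : Fin (iN s)) :
    bPm T s v w = true ↔ Pm (FF s) (cc s) v w := by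
  unfold bPm Pm
  refine any_quads s fun q => any_quads s fun q' => ?_
  simp only [Bool.and_eq_true]
  rw [bK4_iff s h.fG, bK4_iff s h.fG, show (qn q).1 = (q 0).1 from rfl,
    show (qn q').1 = (q' 0).1 from rfl, bco_iff, bco_iff,
    beq_bool_iff (bflag_iff s q) (bflag_iff s q')]
  constructor
  · rintro ⟨⟨⟨⟨⟨h1, h2⟩, h3⟩, h4⟩, h5⟩, h6⟩
    exact ⟨h1, h2, h3, h4, h5, (bPC_iff h hT h1 h3).1 h6⟩
  · rintro ⟨h1, h2, h3, h4, h5, h6⟩
    exact ⟨⟨⟨⟨⟨h1, h2⟩, h3⟩, h4⟩, h5⟩, (bPC_iff h hT h1 h3).2 h6⟩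

theorem bCI_iff (h : Good s) (hT : Tab T s) (v w : Fin (iN s)) :
    bCI T s v w = true ↔ CI (FF s) (cc s) v w := by
  unfold bCI
  simp only [Bool.or_eq_true, Bool.and_eq_true]
  rw [not_bool_iff (bHk_iff s h.fG v), not_bool_iff (bHk_iff s h.fG w), bPm_iff h hT]
  by_cases hv : Hk (FF s) v
  · rw [ci_iff_pm h.fG h.fC h.fP h.trim hv]
    constructor
    · rintro (h1 | h1)
      · exact absurd hv h1.1.1
      · exact h1
    · exact fun h1 => Or.inr h1
  · by_cases hw : Hk (FF s) w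
    · constructor
      · rintro (h1 | ⟨q, q', h1, h2, -⟩)
        · exact absurd hw h1.1.2
        · exact absurd ⟨q, h1, h2⟩ hv
      · intro h1
        exact absurd (h1.symm.hk h.fP hw) hv
    · rw [lkC h hT hv hw]
      constructor
      · rintro (h1 | ⟨q, q', h1, h2, -⟩)
        · exact h1.2
        · exact absurd ⟨q, h1, h2⟩ hv
      · exact fun h1 => Or.inl ⟨⟨hv, hw⟩, h1⟩

theorem dec_iff (h : Good s) (hT : Tab T s) : dec T s = true ↔
    Si (EE s) (fun v => sdF s v = true) (fun v => sdF s v = false) (fun _ => ()) (fun _ => ()) := by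
  rw [sides_iff (c := cc s) h.isG h.c1 h.p5 h.rp (col_eq_iff s)]
  unfold dec
  refine all_fin fun z => ?_
  rw [beq_iff_eq]
  have e1 : ((List.range (iN s)).filter fun x => sdb s x && (rpn s x == x) &&
      bCI T s x z).length = Nat.card {x // Rs (sdF s) (rpF s) true x ∧ CI (FF s) (cc s) x z} :=
    cnt_fin fun x => and_bool_iff (and_bool_iff Iff.rfl (rpn_iff s x)) (bCI_iff h hT x z)
  have e2 : ((List.range (iN s)).filter fun x => !(sdb s x) && (rpn s x == x) &&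
      bCI T s x z).length = Nat.card {x // Rs (sdF s) (rpF s) false x ∧ CI (FF s) (cc s) x z} :=
    cnt_fin fun x => and_bool_iff (and_bool_iff (by
      unfold sdF
      cases sdb s x <;> simp) (rpn_iff s x)) (bCI_iff h hT x z)
  rw [e1, e2]

end Pool.Agent.H.MP_6f30b3_lc.h34
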