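import Pool.Agent.H.MP_6f30b3_lc.h34.Parse

/-!
MP_6f30b3_lc: the reduction to graphs without cliques on four vertices.
-/

namespace Pool.Agent.H.MP_6f30b3_lc.h34

open Pool.Agent.H.MP_5be563_lc.PT
open Turing Computability

theorem beqL_iff (a b : List Bool) : beqL a b = true ↔ a = b := by
  unfold beqL
  rw [Bool.and_eq_true, beq_iff_eq, List.all_eq_true]
  constructor
  · rintro ⟨h1, h2⟩
    refine List.ext_getElem h1 fun i hi hi' => ?_
    have h3 := h2 i (List.mem_range.2 hi)
    rw [beq_iff_eq, List.getD_eq_getElem _ _ hi, List.getD_eq_getElem _ _ hi'] at h3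
    exact h3
  · rintro rfl
    exact ⟨rfl, fun i _ => by simp⟩

/-- the table made from the list of answers -/
def table (s : Inst) (ans : List Bool) : List (List Bool × Bool) :=
  (List.range (QQ s).length).map fun i => ((QQ s).getD i [], ans.getD i false)

theorem lk_table (s : Inst) (f : List Bool → Bool) (w : List Bool) (hw : w ∈ QQ s) :
    lk (table s ((QQ s).map f)) w = f w := by
  rw [Bool.eq_iff_iff]
  unfold lk table
  rw [List.any_eq_true]
  simp only [List.mem_map, List.mem_range]
  have e : ∀ i (hi : i < (QQ s).length), ((QQ s).getD i [], ((QQ s).map f).getD i false) =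
      ((QQ s)[i], f (QQ s)[i]) := by
    intro i hi
    rw [List.getD_eq_getElem _ _ hi, List.getD_eq_getElem _ _ (by simpa using hi),
      List.getElem_map]
  constructor
  · rintro ⟨p, ⟨i, hi, rfl⟩, h⟩
    rw [e i hi, Bool.and_eq_true, beqL_iff] at h
    rw [← h.1]
    exact h.2
  · intro h
    obtain ⟨i, hi, rfl⟩ := List.getElem_of_mem hw
    refine ⟨_, ⟨i, hi, rfl⟩, ?_⟩
    rw [e i hi, Bool.and_eq_true, beqL_iff]
    exact ⟨rfl, h⟩

/-- the questions -/
def queries (w : List Bool) : List (List Bool) := QQ (parse w)

/-- the answer -/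
def answer (w ans : List Bool) : Bool := dec (table (parse w) ans) (parse w)

/-- the answer, computed from a single word -/
def answer1 (u : List Bool) : Bool :=
  answer ((u.drop (lead u + 1)).take (lead u))
    (((u.drop (lead u + 1)).drop (lead u)).drop (lead ((u.drop (lead u + 1)).drop (lead u)) + 1))

section
variable {α : Type} [Enc α]

@[fun_prop]
theorem p_table {s : α → Inst} {l : α → List Bool} (hs : Poly s) (hl : Poly l) :
    Poly (fun a => table (s a) (l a)) := by
  unfold table
  fun_prop

@[fun_prop]
theorem p_queries {l : α → List Bool} (hl : Poly l) : Poly (fun a => queries (l a)) := by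
  unfold queries
  fun_prop

@[fun_prop]
theorem p_answer {l m : α → List Bool} (hl : Poly l) (hm : Poly m) :
    Poly (fun a => answer (l a) (m a)) := by
  unfold answer
  fun_prop

@[fun_prop]
theorem p_answer1 {l : α → List Bool} (hl : Poly l) : Poly (fun a => answer1 (l a)) := by
  unfold answer1
  fun_prop

theorem p_listCode {l : α → List (List Bool)} (hl : Poly l) :
    Poly (fun a => listCode (l a)) := by
  have h : Poly (fun a => (l a).flatMap fun w => (w.map fun _ => true) ++ false :: w) := by
    fun_prop
  simp only [List.map_const'] at h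
  exact h

end

theorem lead_list (s l : List Bool) :
    lead (List.replicate s.length true ++ false :: l) = s.length := lead_spec _ _

theorem answer1_spec (s ans : List Bool) : answer1 (listCode [s, ans]) = answer s ans := by
  have e : listCode [s, ans] = List.replicate s.length true ++ false :: (s ++
      (List.replicate ans.length true ++ false :: ans)) := by
    unfold listCode
    simp
  unfold answer1
  rw [e, lead_spec, drop_spec, List.take_left, List.drop_left, lead_spec, drop_spec]

theorem answer_spec {n m : ℕ} {G : SimpleGraph (Fin n)} {H : SimpleGraph (Fin m)}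
    (hG : ClassA n G) (hH : ClassA m H) (f : List Bool → Bool) (hf : Decides ClassB f) :
    answer (code G ++ code H) ((queries (code G ++ code H)).map f) = true ↔
      Nonempty (G ≃g H) := by
  rw [iso_iff]
  refine dec_iff (s := inst G H) (inst_good hG hH) ?_
  intro n' m' G' H' h1 h2 h3
  have h4 := lk_table (inst G H) f _ h3
  show lk (table (inst G H) ((QQ (inst G H)).map f)) _ = true ↔ _
  rw [h4]
  exact hf _ _ G' H' h1 h2

/-- the questions are about graphs of the smaller class -/
theorem queries_spec {n m : ℕ} {G : SimpleGraph (Fin n)} {H : SimpleGraph (Fin m)}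
    (hG : ClassA n G) (hH : ClassA m H) : ∀ w ∈ queries (code G ++ code H),
      ∃ (n' m' : ℕ) (G' : SimpleGraph (Fin n')) (H' : SimpleGraph (Fin m')),
        ClassB n' G' ∧ ClassB m' H' ∧ w = code G' ++ code H' :=
  QQ_classB (inst_good hG hH)

/-- graphs without cliques on four vertices belong to the class -/
theorem classA_of_classB {n : ℕ} {G : SimpleGraph (Fin n)} (h : ClassB n G) : ClassA n G := by
  refine ⟨fun h' => h.1 ?_, h.2⟩
  refine SimpleGraph.IsIndContained.trans ?_ h'
  refine ⟨⟨⟨![Sum.inl 0, Sum.inl 1, Sum.inr 0, Sum.inr 2], ?_⟩, ?_⟩⟩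
  · intro i j hij
    fin_cases i <;> fin_cases j <;> simp_all
  · intro i j
    fin_cases i <;> fin_cases j <;> simp [coTwoP1P3, SimpleGraph.pathGraph_adj]

/-- The reduction. -/
theorem tt_reducible : TTReducible ClassA ClassB := by
  refine ⟨queries, answer1, ?_, ?_, ?_⟩
  · exact Poly.tm2_encoded (ea := fun s : List Bool => s) (eb := listCode) (fun s => s) Poly.id
      (fun _ => rfl) (p_listCode Poly.id) (p_queries Poly.id)
  · exact poly_iff_tm2_raw_bool.1 (p_answer1 Poly.id)
  · intro n m G H hG hH
    refine ⟨queries_spec hG hH, fun f hf => ?_⟩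
    rw [answer1_spec]
    exact answer_spec hG hH f hf

theorem gi_iff : GIinP ClassA ↔ GIinP ClassB := by
  constructor
  · rintro ⟨f, h1, h2⟩
    exact ⟨f, h1, fun n m G H hG hH => h2 n m G H (classA_of_classB hG) (classA_of_classB hH)⟩
  · rintro ⟨f, h1, h2⟩
    have h3 : Poly f := poly_iff_tm2_raw_bool.2 h1
    refine ⟨fun w => answer w ((queries w).map f), ?_, fun n m G H hG hH =>
      answer_spec hG hH f h2⟩
    exact poly_iff_tm2_raw_bool.1 (by fun_prop)

end Pool.Agent.H.MP_6f30b3_lc.h34
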