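import Pool.Agent.H.MP_6f30b3_lc.h34.PieceK4
import Pool.Agent.H.MP_6f30b3_lc.h34.Assemble

/-!
MP_6f30b3_lc: isomorphisms between components, assembled from isomorphisms of pieces.
-/

namespace Pool.Agent.H.MP_6f30b3_lc.h34

variable {V Λ : Type*} {E : V → V → Prop} {q : Fin 4 → V}

/-- isomorphism between the subgraphs induced by `S` and `T`, preserving labels -/
def Si (E : V → V → Prop) (S T : V → Prop) (l l' : V → Λ) : Prop :=
  ∃ e : {x // S x} ≃ {y // T y}, (∀ x y, E x.1 y.1 ↔ E (e x).1 (e y).1) ∧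
    ∀ x, l x.1 = l' (e x).1

theorem Si.refl (S : V → Prop) (l : V → Λ) : Si E S S l l :=
  ⟨Equiv.refl _, fun _ _ => Iff.rfl, fun _ => rfl⟩

theorem Si.symm {S T : V → Prop} {l l' : V → Λ} (h : Si E S T l l') : Si E T S l' l := by
  obtain ⟨e, h1, h2⟩ := h
  refine ⟨e.symm, fun x y => ?_, fun x => ?_⟩
  · rw [h1, Equiv.apply_symm_apply, Equiv.apply_symm_apply]
  · rw [h2, Equiv.apply_symm_apply]

theorem Si.trans {S T U : V → Prop} {l l' l'' : V → Λ} (h : Si E S T l l')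
    (h' : Si E T U l' l'') : Si E S U l l'' := by
  obtain ⟨e, h1, h2⟩ := h
  obtain ⟨f, h3, h4⟩ := h'
  exact ⟨e.trans f, fun x y => (h1 x y).trans (h3 _ _), fun x => (h2 x).trans (h4 _)⟩

theorem Si.congr {S T : V → Prop} (l : V → Λ) (h : ∀ x, S x ↔ T x) : Si E S T l l := by
  have : S = T := funext fun x => propext (h x)
  subst this
  exact Si.refl _ _

/-- isomorphic components -/
def CI (E : V → V → Prop) (c : V → ℕ) (v w : V) : Prop := Si E (co E v) (co E w) c c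

/-- isomorphic pieces -/
def PI (E : V → V → Prop) (c : V → ℕ) (a b : (Fin 4 → V) × V) : Prop :=
  Si E (fun y => co E (a.1 0) y ∧ sp E a.1 a.2 y) (fun y => co E (b.1 0) y ∧ sp E b.1 b.2 y)
    (fun y => (lab E a.1 y, c y)) (fun y => (lab E b.1 y, c y))

variable {c : V → ℕ}

theorem CI.refl (v : V) : CI E c v v := Si.refl _ _

theorem CI.symm {v w : V} (h : CI E c v w) : CI E c w v := Si.symm h

theorem CI.trans {u v w : V} (h : CI E c u v) (h' : CI E c v w) : CI E c u w := Si.trans h h'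

theorem CI.of_co (hG : IsG E) (hP : NoP5 E) {v w : V} (h : co E v w) : CI E c v w :=
  Si.congr _ fun _ => ⟨fun h' => (h.symm hG).trans hP h', fun h' => h.trans hP h'⟩

theorem PI.refl (a : (Fin 4 → V) × V) : PI E c a a := Si.refl _ _

theorem PI.symm {a b : (Fin 4 → V) × V} (h : PI E c a b) : PI E c b a := Si.symm h

theorem PI.trans {a b d : (Fin 4 → V) × V} (h : PI E c a b) (h' : PI E c b d) : PI E c a d :=
  Si.trans h h'

theorem PI.of_sp {q : Fin 4 → V} {v w : V} (h : sp E q v w) : PI E c (q, v) (q, w) :=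
  Si.congr _ fun _ => ⟨fun h' => ⟨h'.1, h.symm.trans h'.2⟩, fun h' => ⟨h'.1, h.trans h'.2⟩⟩

/-- the numbers of isomorphic pieces agree -/
def PC (E : V → V → Prop) (c : V → ℕ) (q q' : Fin 4 → V) : Prop :=
  (∀ z, co E (q 0) z → Nat.card {x // co E (q 0) x ∧ PI E c (q, x) (q, z)} =
    Nat.card {x // co E (q' 0) x ∧ PI E c (q', x) (q, z)}) ∧
  (∀ z, co E (q' 0) z → Nat.card {x // co E (q 0) x ∧ PI E c (q, x) (q', z)} =
    Nat.card {x // co E (q' 0) x ∧ PI E c (q', x) (q', z)})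

/-- isomorphic components from isomorphic pieces -/
theorem ci_of_pc [Finite V] {q q' : Fin 4 → V} (h : Ctx E q) (h' : Ctx E q') (hT : Trim E)
    (hf : Flag E q ↔ Flag E q') (hc : PC E c q q') : CI E c (q 0) (q' 0) := by
  let r : (q : Fin 4 → V) → Setoid {x // co E (q 0) x} := fun q =>
    ⟨fun x y => sp E q x.1 y.1, fun _ => sp.refl _, fun h => h.symm, fun h h' => h.trans h'⟩
  let K : {x // co E (q 0) x} ⊕ {x // co E (q' 0) x} → (Fin 4 → V) × V :=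
    Sum.elim (fun x => (q, x.1)) (fun x => (q', x.1))
  obtain ⟨e, h1, h2⟩ := assemble (α := {x // co E (q 0) x}) (β := {x // co E (q' 0) x})
    (fun x y => E x.1 y.1) (fun x y => E x.1 y.1)
    (fun x => (lab E q x.1, c x.1)) (fun x => (lab E q' x.1, c x.1)) (r q) (r q')
    (fun a b => PI E c (K a) (K b))
    ⟨fun _ => PI.refl _, fun h => h.symm, fun h h' => h.trans h'⟩
    (fun x y hxy => PI.of_sp hxy) (fun x y hxy => PI.of_sp hxy)
    (fun z => by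
      have e1 : ∀ (q : Fin 4 → V) (k : (Fin 4 → V) × V),
          Nat.card {x : {x // co E (q 0) x} // PI E c (q, x.1) k} =
          Nat.card {x // co E (q 0) x ∧ PI E c (q, x) k} := fun q k =>
        Nat.card_congr ⟨fun y => ⟨y.1.1, y.1.2, y.2⟩, fun y => ⟨⟨y.1, y.2.1⟩, y.2.2⟩,
          fun y => rfl, fun y => rfl⟩
      show Nat.card {x : {x // co E (q 0) x} // PI E c (q, x.1) (K z)} =
        Nat.card {x : {x // co E (q' 0) x} // PI E c (q', x.1) (K z)}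
      rw [e1, e1]
      rcases z with z | z
      · exact hc.1 z.1 z.2
      · exact hc.2 z.1 z.2)
    (fun a b hab => by
      obtain ⟨e, h1, h2⟩ := hab
      let f : (q : Fin 4 → V) → (a : {x // co E (q 0) x}) → {x // r q a x} ≃
          {y // co E (q 0) y ∧ sp E q a.1 y} := fun q a =>
        ⟨fun y => ⟨y.1.1, y.1.2, y.2⟩, fun y => ⟨⟨y.1, y.2.1⟩, y.2.2⟩, fun y => rfl, fun y => rfl⟩
      refine ⟨((f q a).trans e).trans (f q' b).symm, fun x y => ?_, fun x => ?_⟩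
      · exact h1 (f q a x) (f q a y)
      · exact h2 (f q a x))
    (fun l l' => Phi (Flag E q) l.1 l'.1)
    (fun x y hxy => cross_phi h hT x.2 y.2 hxy)
    (fun x y hxy => by
      have := cross_phi h' hT x.2 y.2 hxy
      rwa [propext hf])
  exact ⟨e, h1, fun x => congrArg Prod.snd (h2 x)⟩

/-! ### the converse -/

/-- an isomorphism between components preserves the definitions made from a clique -/
structure Tr (E : V → V → Prop) (q q' : Fin 4 → V) (e : {x // co E (q 0) x} ≃ {y // co E (q' 0) y}) :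
    Prop where
  adj : ∀ x y, E x.1 y.1 ↔ E (e x).1 (e y).1
  hq : ∀ i, ∃ h, (e ⟨q i, h⟩).1 = q' i

theorem Tr.symm {q q' : Fin 4 → V} {e : {x // co E (q 0) x} ≃ {y // co E (q' 0) y}}
    (h : Tr E q q' e) : Tr E q' q e.symm := by
  refine ⟨fun x y => ?_, fun i => ?_⟩
  · rw [h.adj, Equiv.apply_symm_apply, Equiv.apply_symm_apply]
  · obtain ⟨h1, h2⟩ := h.hq i
    have h3 : co E (q' 0) (q' i) := by rw [← h2]; exact (e _).2
    refine ⟨h3, ?_⟩
    have h4 : (⟨q' i, h3⟩ : {y // co E (q' 0) y}) = e ⟨q i, h1⟩ := Subtype.ext h2.symm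
    rw [h4, Equiv.symm_apply_apply]

theorem Tr.bl {q q' : Fin 4 → V} {e : {x // co E (q 0) x} ≃ {y // co E (q' 0) y}}
    (h : Tr E q q' e) (x : {x // co E (q 0) x}) : Bl E q x.1 ↔ Bl E q' (e x).1 := by
  have key : ∀ j, E x.1 (q j) ↔ E (e x).1 (q' j) := by
    intro j
    obtain ⟨h1, h2⟩ := h.hq j
    rw [← h2]
    exact h.adj x ⟨q j, h1⟩
  simp only [Bl, key]

/-- vertices of the blob lie in the component -/
theorem Bl.co (h : Ctx E q) {x : V} (hx : Bl E q x) : co E (q 0) x := by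
  obtain ⟨i, hi⟩ := hx
  obtain ⟨l, l', h2, h3, h4, h5, h6⟩ := pick2 i 0
  exact (co.of_adj (h.k4 0 l h4.symm)).step h.p5 (h.G.symm (hi l h3))

theorem Tr.att {q q' : Fin 4 → V} {e : {x // co E (q 0) x} ≃ {y // co E (q' 0) y}}
    (h : Tr E q q' e) (hc : Ctx E q) (x : {x // co E (q 0) x})
    (hx : ∃ y, Bl E q y ∧ E x.1 y) : ∃ y, Bl E q' y ∧ E (e x).1 y := by
  obtain ⟨y, hy, hxy⟩ := hx
  exact ⟨(e ⟨y, hy.co hc⟩).1, (h.bl _).1 hy, (h.adj x ⟨y, hy.co hc⟩).1 hxy⟩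

theorem Tr.lab_eq {q q' : Fin 4 → V} {e : {x // co E (q 0) x} ≃ {y // co E (q' 0) y}}
    (h : Tr E q q' e) (hc : Ctx E q) (hc' : Ctx E q') (x : {x // co E (q 0) x}) :
    lab E q x.1 = lab E q' (e x).1 := by
  have h1 := h.bl x
  have h2 : (∃ y, Bl E q y ∧ E x.1 y) ↔ ∃ y, Bl E q' y ∧ E (e x).1 y := by
    refine ⟨h.att hc x, fun h3 => ?_⟩
    have := h.symm.att hc' (e x) h3
    rwa [Equiv.symm_apply_apply] at this
  rcases trich E q x.1 with hb | hb | hb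
  · rw [lab_bl hb, lab_bl (h1.1 hb)]
  · rw [lab_l1 hb, lab_l1 ⟨fun h' => hb.1 (h1.2 h'), h2.1 hb.2⟩]
  · rw [lab_l2 hb, lab_l2 ⟨fun h' => hb.1 (h1.2 h'), fun y hy hE => ?_⟩]
    obtain ⟨z, hz, hxz⟩ := h2.2 ⟨y, hy, hE⟩
    exact hb.2 z hz hxz

theorem Tr.an {q q' : Fin 4 → V} {e : {x // co E (q 0) x} ≃ {y // co E (q' 0) y}}
    (h : Tr E q q' e) (hc : Ctx E q) (x y : {x // co E (q 0) x})
    (hx : an E q x.1 y.1) : an E q' (e x).1 (e y).1 := by
  obtain ⟨hy, h1⟩ := hx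
  refine ⟨(h.bl y).1 hy, ?_⟩
  rcases h1 with ⟨h1, h2⟩ | ⟨h1, z, hz, h2, h3⟩
  · exact Or.inl ⟨(h.bl x).1 h1, fun h3 => h2 ((h.adj x y).2 h3)⟩
  · exact Or.inr ⟨fun h4 => h1 ((h.bl x).2 h4), (e ⟨z, hz.co hc⟩).1, (h.bl _).1 hz,
      (h.adj x ⟨z, hz.co hc⟩).1 h2, fun h4 => h3 ((h.adj ⟨z, hz.co hc⟩ y).2 h4)⟩

theorem Tr.an_iff {q q' : Fin 4 → V} {e : {x // co E (q 0) x} ≃ {y // co E (q' 0) y}}
    (h : Tr E q q' e) (hc : Ctx E q) (hc' : Ctx E q') (x y : {x // co E (q 0) x}) :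
    h34.an E q x.1 y.1 ↔ h34.an E q' (e x).1 (e y).1 := by
  refine ⟨h.an hc x y, fun h1 => ?_⟩
  have := h.symm.an hc' (e x) (e y) h1
  rwa [Equiv.symm_apply_apply, Equiv.symm_apply_apply] at this

theorem Tr.sp {q q' : Fin 4 → V} {e : {x // co E (q 0) x} ≃ {y // co E (q' 0) y}}
    (h : Tr E q q' e) (hc : Ctx E q) (hc' : Ctx E q') (x y : {x // co E (q 0) x})
    (hxy : sp E q x.1 y.1) : sp E q' (e x).1 (e y).1 := by
  intro z
  have key : ∀ (x y : {x // co E (q 0) x}), h34.sp E q x.1 y.1 → h34.an E q' (e x).1 z →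
      h34.an E q' (e y).1 z := by
    intro x y hxy hz
    have h1 : co E (q' 0) z := hz.1.co hc'
    have h2 : (e (e.symm ⟨z, h1⟩)).1 = z := by rw [Equiv.apply_symm_apply]
    rw [← h2] at hz ⊢
    exact (h.an_iff hc hc' _ _).1 ((hxy _).1 ((h.an_iff hc hc' _ _).2 hz))
  exact ⟨key x y hxy, key y x hxy.symm⟩

theorem Tr.sp_iff {q q' : Fin 4 → V} {e : {x // co E (q 0) x} ≃ {y // co E (q' 0) y}}
    (h : Tr E q q' e) (hc : Ctx E q) (hc' : Ctx E q') (x y : {x // co E (q 0) x}) :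
    h34.sp E q x.1 y.1 ↔ h34.sp E q' (e x).1 (e y).1 := by
  refine ⟨h.sp hc hc' x y, fun h1 => ?_⟩
  have := h.symm.sp hc' hc (e x) (e y) h1
  rwa [Equiv.symm_apply_apply, Equiv.symm_apply_apply] at this

theorem Tr.flag {q q' : Fin 4 → V} {e : {x // co E (q 0) x} ≃ {y // co E (q' 0) y}}
    (h : Tr E q q' e) (hc : Ctx E q) (hf : Flag E q) : Flag E q' := by
  obtain ⟨p, y, r, z, ⟨h1, h2, h3⟩, ⟨h4, h5, h6⟩, h7, h8⟩ := hf
  have cy := h2.co hc
  have cz := h5.co hc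
  have cp := cy.step hc.p5 (hc.G.symm h3)
  have cr := cz.step hc.p5 (hc.G.symm h6)
  exact ⟨(e ⟨p, cp⟩).1, (e ⟨y, cy⟩).1, (e ⟨r, cr⟩).1, (e ⟨z, cz⟩).1,
    ⟨fun h' => h1 ((h.bl ⟨p, cp⟩).2 h'), (h.bl _).1 h2, (h.adj ⟨p, cp⟩ ⟨y, cy⟩).1 h3⟩,
    ⟨fun h' => h4 ((h.bl ⟨r, cr⟩).2 h'), (h.bl _).1 h5, (h.adj ⟨r, cr⟩ ⟨z, cz⟩).1 h6⟩,
    (h.adj ⟨y, cy⟩ ⟨z, cz⟩).1 h7, (h.adj ⟨p, cp⟩ ⟨r, cr⟩).1 h8⟩

theorem Tr.pi {q q' : Fin 4 → V} {e : {x // co E (q 0) x} ≃ {y // co E (q' 0) y}}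
    (h : Tr E q q' e) (hc : Ctx E q) (hc' : Ctx E q') (hcol : ∀ x, c x.1 = c (e x).1)
    (x : {x // co E (q 0) x}) : PI E c (q, x.1) (q', (e x).1) := by
  let f : {y // co E (q 0) y ∧ h34.sp E q x.1 y} ≃ {y // co E (q' 0) y ∧ h34.sp E q' (e x).1 y} :=
    { toFun := fun y => ⟨(e ⟨y.1, y.2.1⟩).1, (e ⟨y.1, y.2.1⟩).2,
        (h.sp_iff hc hc' x ⟨y.1, y.2.1⟩).1 y.2.2⟩
      invFun := fun y => ⟨(e.symm ⟨y.1, y.2.1⟩).1, (e.symm ⟨y.1, y.2.1⟩).2, by
        refine (h.sp_iff hc hc' x (e.symm ⟨y.1, y.2.1⟩)).2 ?_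
        rw [Equiv.apply_symm_apply]
        exact y.2.2⟩
      left_inv := fun y => by
        refine Subtype.ext ?_
        show (e.symm (e ⟨y.1, y.2.1⟩)).1 = y.1
        rw [Equiv.symm_apply_apply]
      right_inv := fun y => by
        refine Subtype.ext ?_
        show (e (e.symm ⟨y.1, y.2.1⟩)).1 = y.1
        rw [Equiv.apply_symm_apply] }
  refine ⟨f, fun y z => h.adj ⟨y.1, y.2.1⟩ ⟨z.1, z.2.1⟩, fun y => ?_⟩
  exact Prod.ext (h.lab_eq hc hc' ⟨y.1, y.2.1⟩) (hcol ⟨y.1, y.2.1⟩)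

theorem Tr.pc {q q' : Fin 4 → V} {e : {x // co E (q 0) x} ≃ {y // co E (q' 0) y}}
    (h : Tr E q q' e) (hc : Ctx E q) (hc' : Ctx E q') (hcol : ∀ x, c x.1 = c (e x).1) :
    PC E c q q' := by
  have key : ∀ k, Nat.card {x // co E (q 0) x ∧ PI E c (q, x) k} =
      Nat.card {x // co E (q' 0) x ∧ PI E c (q', x) k} := by
    intro k
    refine Nat.card_congr
      { toFun := fun y => ⟨(e ⟨y.1, y.2.1⟩).1, (e ⟨y.1, y.2.1⟩).2,
          (h.pi hc hc' hcol ⟨y.1, y.2.1⟩).symm.trans y.2.2⟩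
        invFun := fun y => ⟨(e.symm ⟨y.1, y.2.1⟩).1, (e.symm ⟨y.1, y.2.1⟩).2, by
          have h2 := h.pi hc hc' hcol (e.symm ⟨y.1, y.2.1⟩)
          rw [Equiv.apply_symm_apply] at h2
          exact h2.trans y.2.2⟩
        left_inv := fun y => by
          refine Subtype.ext ?_
          show (e.symm (e ⟨y.1, y.2.1⟩)).1 = y.1
          rw [Equiv.symm_apply_apply]
        right_inv := fun y => by
          refine Subtype.ext ?_
          show (e (e.symm ⟨y.1, y.2.1⟩)).1 = y.1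
          rw [Equiv.apply_symm_apply] }
  exact ⟨fun z _ => key _, fun z _ => key _⟩

/-- clique on four vertices in the component of `v` -/
def Hk (E : V → V → Prop) (v : V) : Prop := ∃ q, K4 E q ∧ co E v (q 0)

/-- pieces with the same numbers -/
def Pm (E : V → V → Prop) (c : V → ℕ) (v w : V) : Prop :=
  ∃ q q', K4 E q ∧ co E v (q 0) ∧ K4 E q' ∧ co E w (q' 0) ∧ (Flag E q ↔ Flag E q') ∧ PC E c q q'

/-- isomorphism of components in terms of the pieces -/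
theorem ci_iff_pm [Finite V] (hG : IsG E) (h1 : C1 E) (hP : NoP5 E) (hT : Trim E) {v w : V}
    (hv : Hk E v) : CI E c v w ↔ Pm E c v w := by
  constructor
  · intro h
    obtain ⟨q, hq, hvq⟩ := hv
    have h2 : CI E c (q 0) w := (CI.of_co hG hP (hvq.symm hG)).trans h
    have hcq : ∀ i, co E (q 0) (q i) := by
      intro i
      by_cases hi : i = 0
      · rw [hi]; exact co.refl _
      · exact co.of_adj (hq 0 i (fun h' => hi h'.symm))
    obtain ⟨e, he, hcol⟩ := h2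
    let q' : Fin 4 → V := fun i => (e ⟨q i, hcq i⟩).1
    have hq' : K4 E q' := fun i j hij => (he ⟨q i, hcq i⟩ ⟨q j, hcq j⟩).1 (hq i j hij)
    have hwq : co E w (q' 0) := (e ⟨q 0, hcq 0⟩).2
    let g : {y // co E w y} ≃ {y // co E (q' 0) y} := Equiv.subtypeEquivRight fun y =>
      ⟨fun h' => (hwq.symm hG).trans hP h', fun h' => hwq.trans hP h'⟩
    have tr : Tr E q q' (e.trans g) := ⟨fun x y => he x y, fun i => ⟨hcq i, rfl⟩⟩
    have c1 : Ctx E q := ⟨hG, h1, hP, hq⟩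
    have c2 : Ctx E q' := ⟨hG, h1, hP, hq'⟩
    exact ⟨q, q', hq, hvq, hq', hwq, ⟨tr.flag c1, tr.symm.flag c2⟩, tr.pc c1 c2 hcol⟩
  · rintro ⟨q, q', hq, hvq, hq', hwq, hf, hc⟩
    have h2 := ci_of_pc ⟨hG, h1, hP, hq⟩ ⟨hG, h1, hP, hq'⟩ hT hf hc
    exact (CI.of_co hG hP hvq).trans (h2.trans (CI.of_co hG hP (hwq.symm hG)))

/-- isomorphic components both contain a clique or not -/
theorem CI.hk {v w : V} (h : CI E c v w) (hP : NoP5 E) (hv : Hk E v) : Hk E w := by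
  obtain ⟨q, hq, hvq⟩ := hv
  obtain ⟨e, he, -⟩ := h
  have hcq : ∀ i, co E v (q i) := by
    intro i
    by_cases hi : i = 0
    · rw [hi]; exact hvq
    · exact hvq.step hP (hq 0 i (fun h' => hi h'.symm))
  exact ⟨fun i => (e ⟨q i, hcq i⟩).1, fun i j hij => (he ⟨q i, hcq i⟩ ⟨q j, hcq j⟩).1 (hq i j hij),
    (e ⟨q 0, hcq 0⟩).2⟩

end Pool.Agent.H.MP_6f30b3_lc.h34
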