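import Mathlib

/-!
MP_6f30b3_lc: graphs as symmetric relations; free vertices; the relation `AA`.
-/

namespace Pool.Agent.H.MP_6f30b3_lc.h34

variable {V : Type*}

/-- A graph: a symmetric irreflexive relation. -/
structure IsG (E : V → V → Prop) : Prop where
  symm : ∀ {x y}, E x y → E y x
  irr : ∀ {x}, ¬ E x x

/-- an induced path on five vertices -/
def P5 (E : V → V → Prop) (a b c d e : V) : Prop :=
  E a b ∧ E b c ∧ E c d ∧ E d e ∧ ¬ E a c ∧ ¬ E a d ∧ ¬ E a e ∧ ¬ E b d ∧ ¬ E b e ∧ ¬ E c e

/-- no induced path on five vertices -/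
def NoP5 (E : V → V → Prop) : Prop := ∀ a b c d e, ¬ P5 E a b c d e

/-- the common neighbourhood of the ends of an edge is complete multipartite -/
def C1 (E : V → V → Prop) : Prop :=
  ∀ t t' a b c, E t t' → E t a → E t b → E t c → E t' a → E t' b → E t' c →
    ¬ E a b → ¬ E b c → ¬ E a c

/-- complete multipartite set: non-adjacency is transitive -/
def CM (E : V → V → Prop) (S : V → Prop) : Prop :=
  ∀ a b c, S a → S b → S c → ¬ E a b → ¬ E b c → ¬ E a c

/-- same neighbourhood -/
def sN (E : V → V → Prop) (v w : V) : Prop := ∀ x, E v x ↔ E w x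

/-- free vertices: the neighbourhood is complete multipartite with at least three parts, and no
vertex has a larger neighbourhood -/
def ff (E : V → V → Prop) (v : V) : Prop :=
  CM E (E v) ∧ (∃ a b c, E v a ∧ E v b ∧ E v c ∧ E a b ∧ E b c ∧ E a c) ∧
    ∀ u, (∀ x, E v x → E u x) → ∀ x, E u x → E v x

/-- the graph without the edges between free vertices -/
def AA (E : V → V → Prop) (v x : V) : Prop := E v x ∧ (ff E v → ¬ ff E x)

/-- twins in the graph `AA` -/
def rel (E : V → V → Prop) (v w : V) : Prop := ∀ x, AA E v x ↔ AA E w x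

variable {E : V → V → Prop}

theorem sN.symm {v w : V} (h : sN E v w) : sN E w v := fun x => (h x).symm

theorem sN.trans {u v w : V} (h : sN E u v) (h' : sN E v w) : sN E u w :=
  fun x => (h x).trans (h' x)

theorem sN.refl (v : V) : sN E v v := fun _ => Iff.rfl

theorem rel.symm {v w : V} (h : rel E v w) : rel E w v := fun x => (h x).symm

theorem rel.trans {u v w : V} (h : rel E u v) (h' : rel E v w) : rel E u w :=
  fun x => (h x).trans (h' x)

theorem rel.refl (v : V) : rel E v v := fun _ => Iff.rfl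

theorem sN.eq {v w : V} (h : sN E v w) : E v = E w := funext fun x => propext (h x)

theorem sN.ff_iff {v w : V} (h : sN E v w) : ff E v ↔ ff E w := by
  unfold ff; rw [h.eq]

theorem AA.symm (hG : IsG E) {v w : V} (h : AA E v w) : AA E w v :=
  ⟨hG.symm h.1, fun h1 h2 => h.2 h2 h1⟩

/-- If `x, y` are non-adjacent vertices of a complete multipartite set with a triangle, there is
an edge all of whose ends are adjacent to both. -/
theorem CM.exists_edge (hG : IsG E) {S : V → Prop} (hS : CM E S) {a b c x : V} (ha : S a)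
    (hb : S b) (hc : S c) (hx : S x) (hab : E a b) (hbc : E b c) (hac : E a c) :
    ∃ t t', S t ∧ S t' ∧ E t t' ∧ E x t ∧ E x t' := by
  by_cases h1 : E x a
  · by_cases h2 : E x b
    · exact ⟨a, b, ha, hb, hab, h1, h2⟩
    · have h3 : E x c := by
        by_contra h3
        exact hS b x c hb hx hc (fun h => h2 (hG.symm h)) h3 hbc
      exact ⟨a, c, ha, hc, hac, h1, h3⟩
  · have h2 : E x b := by
      by_contra h2
      exact hS a x b ha hx hb (fun h => h1 (hG.symm h)) h2 hab
    have h3 : E x c := by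
      by_contra h3
      exact hS a x c ha hx hc (fun h => h1 (hG.symm h)) h3 hac
    exact ⟨b, c, hb, hc, hbc, h2, h3⟩

theorem ff_sub (hG : IsG E) (h1 : C1 E) {u x y : V} (hu : ff E u) (hx : ff E x)
    (hux : E u x) (huy : E u y) (hxy : ¬ E x y) : sN E x y := by
  obtain ⟨hCu, ⟨a, b, c, ha, hb, hc, hab, hbc, hac⟩, -⟩ := hu
  obtain ⟨hCx, -, hmx⟩ := hx
  obtain ⟨t, t', ht, ht', htt, hxt, hxt'⟩ := hCu.exists_edge hG ha hb hc hux hab hbc hac
  have hyt : E y t := by
    by_contra h
    exact hCu x y t hux huy ht hxy h hxt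
  have hyt' : E y t' := by
    by_contra h
    exact hCu x y t' hux huy ht' hxy h hxt'
  have hsub : ∀ z, E x z → E y z := by
    intro z hz
    by_cases huz : E u z
    · by_contra h
      exact hCu x y z hux huy huz hxy h hz
    · have hzt : ∀ t, E u t → E x t → E z t := by
        intro t ht hxt
        by_contra h
        exact hCx t z u hxt hz (hG.symm hux) (fun h' => h (hG.symm h')) (fun h' => huz (hG.symm h'))
          (hG.symm ht)
      by_contra h
      exact h1 t t' u z y htt (hG.symm ht) (hG.symm (hzt t ht hxt)) (hG.symm hyt)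
        (hG.symm ht') (hG.symm (hzt t' ht' hxt')) (hG.symm hyt') huz
        (fun h' => h (hG.symm h')) huy
  exact fun z => ⟨hsub z, hmx y hsub z⟩

theorem ff_adj_aux (hG : IsG E) (h1 : C1 E) {u x y : V} (hu : ff E u) (hx : ff E x)
    (hux : E u x) (huy : E u y) (hy : ¬ ff E y) : E x y := by
  by_contra hxy
  exact hy ((ff_sub hG h1 hu hx hux huy hxy).ff_iff.1 hx)

theorem ff_adj_rel (hG : IsG E) (h1 : C1 E) {u x : V} (hu : ff E u) (hx : ff E x)
    (hux : E u x) : rel E u x := by
  intro y
  constructor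
  · rintro ⟨h2, h3⟩
    exact ⟨ff_adj_aux hG h1 hu hx hux h2 (h3 hu), fun _ => h3 hu⟩
  · rintro ⟨h2, h3⟩
    exact ⟨ff_adj_aux hG h1 hx hu (hG.symm hux) h2 (h3 hx), fun _ => h3 hx⟩

/-- the classes of `rel` are modules -/
theorem rel.module (hG : IsG E) (h1 : C1 E) {u w x : V} (h : rel E u w) (hx : ¬ rel E u x)
    (hux : E u x) : E w x := by
  have h2 : AA E u x := by
    refine ⟨hux, fun hu hfx => hx (ff_adj_rel hG h1 hu hfx hux)⟩
  exact ((h x).1 h2).1

theorem rel.module_iff (hG : IsG E) (h1 : C1 E) {u w x : V} (h : rel E u w)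
    (hx : ¬ rel E u x) : E u x ↔ E w x :=
  ⟨h.module hG h1 hx, h.symm.module hG h1 fun h' => hx (h.trans h')⟩

theorem rel.ff_left (hG : IsG E) {u w : V} (h : rel E u w) (hux : E u w) : ff E u := by
  by_contra hu
  have h2 : AA E u w := ⟨hux, fun h' => absurd h' hu⟩
  exact hG.irr ((h w).1 h2).1

theorem rel.ff_right (hG : IsG E) {u w : V} (h : rel E u w) (hux : E u w) : ff E w :=
  h.symm.ff_left hG (hG.symm hux)

theorem rel.AA_congr (hG : IsG E) {v y y' : V} (h : rel E y y') (hv : AA E v y) : AA E v y' :=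
  AA.symm hG ((h v).1 (AA.symm hG hv))

end Pool.Agent.H.MP_6f30b3_lc.h34
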