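import Pool.Agent.H.MP_6f30b3_lc.h34.Corr

/-!
MP_6f30b3_lc: reading the input; the hypotheses of the algorithm for graphs of the class.
-/

namespace Pool.Agent.H.MP_6f30b3_lc.h34

open Pool.Agent.H.MP_5be563_lc.PT

/-- number of leading ones -/
def lead (w : List Bool) : ℕ := (w.takeWhile (fun b => b)).length

/-- reading the input -/
def parse (w : List Bool) : Inst :=
  (lead w, lead ((w.drop (lead w + 1)).drop (lead w * lead w)), w.drop (lead w + 1),
    ((w.drop (lead w + 1)).drop (lead w * lead w)).drop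
      (lead ((w.drop (lead w + 1)).drop (lead w * lead w)) + 1))

section
variable {α : Type} [Enc α]

theorem p_takeWhile {l : α → List Bool} (hl : Poly l) :
    Poly (fun a => (l a).takeWhile (fun b => b)) := by
  have e : ∀ (l : List Bool),
      l.foldr (fun b s => bif b then b :: s else []) [] = l.takeWhile (fun b => b) := by
    intro l
    induction l with
    | nil => simp
    | cons x l ih => cases x <;> simp [ih]
  have key := Poly.foldr (f := fun p : α × List Bool × Bool => bif p.2.2 then p.2.2 :: p.2.1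
      else []) (l := l)
    (s0 := fun _ => []) (B := fun a => sz (l a))
    (Poly.cond (by fun_prop) (by fun_prop) (by fun_prop)) hl (by fun_prop) hl.sz_le (by
      intro a l₁ l₂ h
      simp only
      rw [e, h]
      exact sz_sublist_le ((List.takeWhile_sublist _).trans (List.sublist_append_right _ _)))
  simpa [e] using key

@[fun_prop]
theorem p_lead {l : α → List Bool} (hl : Poly l) : Poly (fun a => lead (l a)) := by
  unfold lead
  exact Poly.length (p_takeWhile hl)

@[fun_prop]
theorem p_parse {l : α → List Bool} (hl : Poly l) : Poly (fun a => parse (l a)) := by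
  unfold parse
  fun_prop

end

theorem lead_spec (n : ℕ) (l : List Bool) : lead (List.replicate n true ++ false :: l) = n := by
  unfold lead
  rw [List.takeWhile_append_of_pos (by simp)]
  simp

theorem drop_spec (n : ℕ) (l : List Bool) :
    (List.replicate n true ++ false :: l).drop (n + 1) = l := by
  rw [← List.drop_drop]
  have h := List.drop_left (l₁ := List.replicate n true) (l₂ := false :: l)
  rw [List.length_replicate] at h
  rw [h]
  rfl

/-- reading an entry of a matrix written row by row -/
theorem getD_flatMap (n : ℕ) (rest : List Bool) : ∀ (m : ℕ) (f : ℕ → ℕ → Bool) (i j : ℕ),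
    i < m → j < n →
    (((List.range m).flatMap fun i => (List.range n).map (f i)) ++ rest).getD (i * n + j) false =
      f i j := by
  intro m
  induction m with
  | zero => intro f i j hi; omega
  | succ m ih =>
    intro f i j hi hj
    rw [List.range_succ_eq_map, List.flatMap_cons, List.append_assoc]
    cases i with
    | zero =>
      rw [Nat.zero_mul, Nat.zero_add, List.getD_append _ _ _ _ (by simpa using hj)]
      simp [List.getD_eq_getElem?_getD, hj]
    | succ i =>
      have e : (i + 1) * n + j = ((List.range n).map (f 0)).length + (i * n + j) := by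
        rw [List.length_map, List.length_range]; ring
      rw [e, List.getD_append_right _ _ _ _ (by omega), Nat.add_sub_cancel_left, List.flatMap_map]
      exact ih (fun i => f (i + 1)) i j (by omega) hj

/-- adjacency on natural numbers -/
def gA {n : ℕ} (G : SimpleGraph (Fin n)) (i j : ℕ) : Prop :=
  ∃ (hi : i < n) (hj : j < n), G.Adj ⟨i, hi⟩ ⟨j, hj⟩

open Classical in
theorem code_eq {n : ℕ} (G : SimpleGraph (Fin n)) : code G = List.replicate n true ++ false ::
    (List.range n).flatMap fun i => (List.range n).map fun j => decide (gA G i j) := by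
  unfold code
  congr 2
  rw [← List.map_coe_finRange_eq_range, List.flatMap_map]
  refine List.flatMap_congr fun i _ => ?_
  rw [List.map_map]
  refine List.map_congr_left fun j _ => ?_
  rw [Bool.eq_iff_iff, decide_eq_true_iff, Function.comp_apply, decide_eq_true_iff]
  exact ⟨fun h => ⟨i.2, j.2, h⟩, fun ⟨_, _, h⟩ => h⟩

open Classical in
theorem mat_length {n : ℕ} (G : SimpleGraph (Fin n)) :
    ((List.range n).flatMap fun i => (List.range n).map fun j => decide (gA G i j)).length =
      n * n := by
  rw [List.length_flatMap]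
  simp

section
variable {n m : ℕ} (G : SimpleGraph (Fin n)) (H : SimpleGraph (Fin m))

/-- the instance of a pair of graphs -/
noncomputable def inst : Inst := parse (code G ++ code H)

open Classical in
theorem inst_eq : inst G H = (n, m,
    ((List.range n).flatMap fun i => (List.range n).map fun j => decide (gA G i j)) ++ code H,
    ((List.range m).flatMap fun i => (List.range m).map fun j => decide (gA H i j))) := by
  unfold inst parse
  have e1 : lead (code G ++ code H) = n := by
    rw [code_eq, List.append_assoc, List.cons_append, lead_spec]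
  have e2 : (code G ++ code H).drop (n + 1) =
      ((List.range n).flatMap fun i => (List.range n).map fun j => decide (gA G i j)) ++ code H := by
    rw [code_eq G, List.append_assoc, List.cons_append, drop_spec]
  have e3 : (((List.range n).flatMap fun i => (List.range n).map fun j => decide (gA G i j)) ++
      code H).drop (n * n) = code H := by
    rw [← mat_length G, List.drop_left]
  have e4 : lead (code H) = m := by rw [code_eq, lead_spec]
  have e5 : (code H).drop (m + 1) =
      ((List.range m).flatMap fun i => (List.range m).map fun j => decide (gA H i j)) := by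
    rw [code_eq, drop_spec]
  rw [e1, e2, e3, e4, e5]

theorem inst_iN : iN (inst G H) = n + m := by
  rw [inst_eq]; rfl

theorem adj_iff (v w : ℕ) : adj (inst G H) v w = true ↔
    gA G v w ∨ (n ≤ v ∧ n ≤ w ∧ gA H (v - n) (w - n)) := by
  classical
  rw [inst_eq]
  unfold adj
  simp only [Bool.or_eq_true, Bool.and_eq_true, decide_eq_true_iff]
  constructor
  · rintro (⟨⟨h1, h2⟩, h3⟩ | ⟨⟨⟨⟨h1, h2⟩, h3⟩, h4⟩, h5⟩)
    · rw [getD_flatMap n _ n (fun i j => decide (gA G i j)) v w h1 h2, decide_eq_true_iff] at h3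
      exact Or.inl h3
    · have h6 := getD_flatMap m [] m (fun i j => decide (gA H i j)) (v - n) (w - n) (by omega)
        (by omega)
      rw [List.append_nil] at h6
      rw [h6, decide_eq_true_iff] at h5
      exact Or.inr ⟨h1, h2, h5⟩
  · rintro (h | ⟨h1, h2, h3⟩)
    · obtain ⟨h1, h2, -⟩ := id h
      refine Or.inl ⟨⟨h1, h2⟩, ?_⟩
      rw [getD_flatMap n _ n (fun i j => decide (gA G i j)) v w h1 h2, decide_eq_true_iff]
      exact h
    · obtain ⟨h4, h5, -⟩ := id h3
      refine Or.inr ⟨⟨⟨⟨h1, h2⟩, by omega⟩, by omega⟩, ?_⟩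
      have h6 := getD_flatMap m [] m (fun i j => decide (gA H i j)) (v - n) (w - n) h4 h5
      rw [List.append_nil] at h6
      rw [h6, decide_eq_true_iff]
      exact h3

theorem sdb_iff (v : ℕ) : sdb (inst G H) v = true ↔ v < n := by
  rw [inst_eq]
  unfold sdb
  exact decide_eq_true_iff

/-- the vertices of the first graph -/
def v1 (v : Fin n) : Fin (iN (inst G H)) := ⟨v.1, by rw [inst_iN]; omega⟩

/-- the vertices of the second graph -/
def v2 (v : Fin m) : Fin (iN (inst G H)) := ⟨n + v.1, by rw [inst_iN]; omega⟩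

theorem E_v1 (v w : Fin n) : EE (inst G H) (v1 G H v) (v1 G H w) ↔ G.Adj v w := by
  unfold EE
  rw [adj_iff]
  show gA G v.1 w.1 ∨ (n ≤ v.1 ∧ _) ↔ _
  constructor
  · rintro (⟨_, _, h⟩ | ⟨h, -⟩)
    · exact h
    · exact absurd h (by omega)
  · intro h
    exact Or.inl ⟨v.2, w.2, h⟩

theorem E_v2 (v w : Fin m) : EE (inst G H) (v2 G H v) (v2 G H w) ↔ H.Adj v w := by
  unfold EE
  rw [adj_iff]
  show gA G (n + v.1) (n + w.1) ∨ (n ≤ n + v.1 ∧ n ≤ n + w.1 ∧ gA H (n + v.1 - n) (n + w.1 - n)) ↔ _
  rw [Nat.add_sub_cancel_left, Nat.add_sub_cancel_left]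
  constructor
  · rintro (⟨h, _⟩ | ⟨-, -, _, _, h⟩)
    · exact absurd h (by omega)
    · exact h
  · intro h
    exact Or.inr ⟨by omega, by omega, v.2, w.2, h⟩

theorem sd_v1 (v : Fin n) : sdF (inst G H) (v1 G H v) = true := by
  unfold sdF
  rw [sdb_iff]
  exact v.2

theorem sd_v2 (v : Fin m) : sdF (inst G H) (v2 G H v) = false := by
  unfold sdF
  rw [← Bool.not_eq_true, sdb_iff]
  show ¬ (n + v.1 < n)
  omega

theorem of_sd1 (x : Fin (iN (inst G H))) (hx : sdF (inst G H) x = true) :
    ∃ v, x = v1 G H v := by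
  unfold sdF at hx
  rw [sdb_iff] at hx
  exact ⟨⟨x.1, hx⟩, rfl⟩

theorem of_sd2 (x : Fin (iN (inst G H))) (hx : sdF (inst G H) x = false) :
    ∃ v, x = v2 G H v := by
  unfold sdF at hx
  rw [← Bool.not_eq_true, sdb_iff] at hx
  have h2 : x.1 < n + m := lt_of_lt_of_eq x.2 (inst_iN G H)
  exact ⟨⟨x.1 - n, by omega⟩, Fin.ext (by show x.1 = n + (x.1 - n); omega)⟩

theorem E_sd (x y : Fin (iN (inst G H))) (h : EE (inst G H) x y) :
    sdF (inst G H) x = sdF (inst G H) y := by
  unfold EE at h
  rw [adj_iff] at h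
  unfold sdF
  rw [Bool.eq_iff_iff, sdb_iff, sdb_iff]
  rcases h with ⟨h1, h2, -⟩ | ⟨h1, h2, -⟩
  · omega
  · omega

theorem v1_inj {v w : Fin n} (h : v1 G H v = v1 G H w) : v = w := by
  have h1 := congrArg Fin.val h
  exact Fin.ext h1

theorem v2_inj {v w : Fin m} (h : v2 G H v = v2 G H w) : v = w := by
  have h1 : n + v.1 = n + w.1 := congrArg Fin.val h
  exact Fin.ext (by omega)

/-- isomorphism of the two graphs is isomorphism of the two sides -/
theorem iso_iff : Nonempty (G ≃g H) ↔
    Si (EE (inst G H)) (fun v => sdF (inst G H) v = true) (fun v => sdF (inst G H) v = false)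
      (fun _ => ()) (fun _ => ()) := by
  let a : Fin n ≃ {v // sdF (inst G H) v = true} := Equiv.ofBijective
    (fun v => ⟨v1 G H v, sd_v1 G H v⟩) ⟨fun v w h => v1_inj G H (congrArg Subtype.val h), by
      rintro ⟨x, hx⟩
      obtain ⟨v, rfl⟩ := of_sd1 G H x hx
      exact ⟨v, rfl⟩⟩
  let b : Fin m ≃ {v // sdF (inst G H) v = false} := Equiv.ofBijective
    (fun v => ⟨v2 G H v, sd_v2 G H v⟩) ⟨fun v w h => v2_inj G H (congrArg Subtype.val h), by
      rintro ⟨x, hx⟩
      obtain ⟨v, rfl⟩ := of_sd2 G H x hx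
      exact ⟨v, rfl⟩⟩
  have ea : ∀ v w, G.Adj v w ↔ EE (inst G H) (a v).1 (a w).1 := fun v w => (E_v1 G H v w).symm
  have eb : ∀ v w, H.Adj v w ↔ EE (inst G H) (b v).1 (b w).1 := fun v w => (E_v2 G H v w).symm
  constructor
  · rintro ⟨f⟩
    refine ⟨(a.symm.trans f.toEquiv).trans b, fun x y => ?_, fun _ => rfl⟩
    obtain ⟨v, rfl⟩ := a.surjective x
    obtain ⟨w, rfl⟩ := a.surjective y
    have h1 : ∀ v, ((a.symm.trans f.toEquiv).trans b) (a v) = b (f v) := by
      intro v
      simp [Equiv.trans_apply]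
    rw [h1, h1, ← ea, ← eb]
    exact f.map_rel_iff.symm
  · rintro ⟨e, he, -⟩
    refine ⟨⟨(a.trans e).trans b.symm, fun {v w} => ?_⟩⟩
    rw [eb, ea, he]
    simp only [Equiv.trans_apply, Equiv.apply_symm_apply]

end

/-! ### forbidden induced subgraphs -/

theorem c1_of {n : ℕ} {G : SimpleGraph (Fin n)} (h : ¬ coTwoP1P3.IsIndContained G) :
    C1 G.Adj := by
  intro t t' a b c htt ha hb hc ha' hb' hc' hab hbc hac
  apply h
  have hba : ¬ G.Adj b a := fun h => hab h.symm
  have hcb : ¬ G.Adj c b := fun h => hbc h.symm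
  have nab : a ≠ b := fun h' => hbc (h' ▸ hac)
  have nbc : b ≠ c := fun h' => hab (h' ▸ hac)
  refine ⟨⟨⟨Sum.elim ![t, t'] ![a, b, c], ?_⟩, ?_⟩⟩
  · rintro (i | i) (j | j) h
    · fin_cases i <;> fin_cases j <;> first
        | rfl
        | exact absurd h htt.ne
        | exact absurd h htt.ne'
    · exfalso
      fin_cases i <;> fin_cases j <;> first
        | exact ha.ne h
        | exact hb.ne h
        | exact hc.ne h
        | exact ha'.ne h
        | exact hb'.ne h
        | exact hc'.ne h
    · exfalso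
      fin_cases i <;> fin_cases j <;> first
        | exact ha.ne' h
        | exact hb.ne' h
        | exact hc.ne' h
        | exact ha'.ne' h
        | exact hb'.ne' h
        | exact hc'.ne' h
    · fin_cases i <;> fin_cases j <;> first
        | rfl
        | exact absurd h nab
        | exact absurd h nbc
        | exact absurd h hac.ne
        | exact absurd h.symm nab
        | exact absurd h.symm nbc
        | exact absurd h.symm hac.ne
  · rintro (i | i) (j | j)
    · fin_cases i <;> fin_cases j <;> simp [coTwoP1P3, htt, htt.symm]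
    · fin_cases i <;> fin_cases j <;> simp [coTwoP1P3, ha, hb, hc, ha', hb', hc']
    · fin_cases i <;> fin_cases j <;> simp [coTwoP1P3, ha.symm, hb.symm, hc.symm, ha'.symm,
        hb'.symm, hc'.symm]
    · fin_cases i <;> fin_cases j <;> simp [coTwoP1P3, SimpleGraph.pathGraph_adj, hab, hbc, hac,
        hba, hcb, hac.symm]

theorem p5_of {n : ℕ} {G : SimpleGraph (Fin n)} (h : ¬ (SimpleGraph.pathGraph 5).IsIndContained G) :
    NoP5 G.Adj := by
  rintro a b c d e ⟨hab, hbc, hcd, hde, hac, had, hae, hbd, hbe, hce⟩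
  apply h
  have nac : a ≠ c := fun h' => had (h' ▸ hcd)
  have nad : a ≠ d := fun h' => hae (h' ▸ hde)
  have nae : a ≠ e := fun h' => had (h' ▸ hde.symm)
  have nbd : b ≠ d := fun h' => hbe (h' ▸ hde)
  have nbe : b ≠ e := fun h' => hbd (h' ▸ hde.symm)
  have nce : c ≠ e := fun h' => hbe (h' ▸ hbc)
  have hca : ¬ G.Adj c a := fun h' => hac h'.symm
  have hda : ¬ G.Adj d a := fun h' => had h'.symm
  have hea : ¬ G.Adj e a := fun h' => hae h'.symm
  have hdb : ¬ G.Adj d b := fun h' => hbd h'.symm
  have heb : ¬ G.Adj e b := fun h' => hbe h'.symm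
  have hec : ¬ G.Adj e c := fun h' => hce h'.symm
  refine ⟨⟨⟨![a, b, c, d, e], ?_⟩, ?_⟩⟩
  · have nab := hab.ne
    have nbc := hbc.ne
    have ncd := hcd.ne
    have nde := hde.ne
    intro i j h
    fin_cases i <;> fin_cases j <;> first
      | rfl
      | (exfalso; first
        | exact nab h
        | exact nac h
        | exact nad h
        | exact nae h
        | exact nbc h
        | exact nbd h
        | exact nbe h
        | exact ncd h
        | exact nce h
        | exact nde h
        | exact nab h.symm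
        | exact nac h.symm
        | exact nad h.symm
        | exact nae h.symm
        | exact nbc h.symm
        | exact nbd h.symm
        | exact nbe h.symm
        | exact ncd h.symm
        | exact nce h.symm
        | exact nde h.symm)
  · intro i j
    fin_cases i <;> fin_cases j <;> simp [SimpleGraph.pathGraph_adj, hab, hbc, hcd, hde, hac, had,
      hae, hbd, hbe, hce, hca, hda, hea, hdb, heb, hec, hab.symm, hbc.symm, hcd.symm, hde.symm]

/-- the algorithm is correct on graphs of the class -/
theorem inst_good {n m : ℕ} {G : SimpleGraph (Fin n)} {H : SimpleGraph (Fin m)}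
    (hG : ClassA n G) (hH : ClassA m H) : Good (inst G H) := by
  have gsym : ∀ {n : ℕ} (G : SimpleGraph (Fin n)) (i j : ℕ), gA G i j → gA G j i :=
    fun G i j ⟨hi, hj, h⟩ => ⟨hj, hi, h.symm⟩
  have hs : ∀ v w, adj (inst G H) v w = true → adj (inst G H) w v = true := by
    intro v w h
    rw [adj_iff] at h ⊢
    rcases h with h | ⟨h1, h2, h3⟩
    · exact Or.inl (gsym G _ _ h)
    · exact Or.inr ⟨h2, h1, gsym H _ _ h3⟩
  have hi : ∀ v, adj (inst G H) v v ≠ true := by
    intro v h
    rw [adj_iff] at h
    rcases h with ⟨_, _, h⟩ | ⟨-, -, _, _, h⟩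
    · exact h.ne rfl
    · exact h.ne rfl
  have same : ∀ {x y}, EE (inst G H) x y → sdF (inst G H) x = sdF (inst G H) y :=
    fun h => E_sd G H _ _ h
  refine ⟨hs, hi, ?_, ?_, fun _ _ => same⟩
  · intro t t' a b c htt ha hb hc ha' hb' hc' hab hbc hac
    have e1 := same htt
    have e2 := same ha
    have e3 := same hb
    have e4 := same hc
    cases ht : sdF (inst G H) t
    · rw [ht] at e1 e2 e3 e4
      obtain ⟨t, rfl⟩ := of_sd2 G H t ht
      obtain ⟨t', rfl⟩ := of_sd2 G H t' e1.symm
      obtain ⟨a, rfl⟩ := of_sd2 G H a e2.symm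
      obtain ⟨b, rfl⟩ := of_sd2 G H b e3.symm
      obtain ⟨c, rfl⟩ := of_sd2 G H c e4.symm
      rw [E_v2] at *
      exact c1_of hH.1 t t' a b c htt ha hb hc ha' hb' hc' hab hbc hac
    · rw [ht] at e1 e2 e3 e4
      obtain ⟨t, rfl⟩ := of_sd1 G H t ht
      obtain ⟨t', rfl⟩ := of_sd1 G H t' e1.symm
      obtain ⟨a, rfl⟩ := of_sd1 G H a e2.symm
      obtain ⟨b, rfl⟩ := of_sd1 G H b e3.symm
      obtain ⟨c, rfl⟩ := of_sd1 G H c e4.symm
      rw [E_v1] at *
      exact c1_of hG.1 t t' a b c htt ha hb hc ha' hb' hc' hab hbc hac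
  · rintro a b c d e ⟨hab, hbc, hcd, hde, hac, had, hae, hbd, hbe, hce⟩
    have e1 := same hab
    have e2 := e1.trans (same hbc)
    have e3 := e2.trans (same hcd)
    have e4 := e3.trans (same hde)
    cases ha : sdF (inst G H) a
    · rw [ha] at e1 e2 e3 e4
      obtain ⟨a, rfl⟩ := of_sd2 G H a ha
      obtain ⟨b, rfl⟩ := of_sd2 G H b e1.symm
      obtain ⟨c, rfl⟩ := of_sd2 G H c e2.symm
      obtain ⟨d, rfl⟩ := of_sd2 G H d e3.symm
      obtain ⟨e, rfl⟩ := of_sd2 G H e e4.symm
      rw [E_v2] at *
      exact p5_of hH.2 a b c d e ⟨hab, hbc, hcd, hde, hac, had, hae, hbd, hbe, hce⟩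
    · rw [ha] at e1 e2 e3 e4
      obtain ⟨a, rfl⟩ := of_sd1 G H a ha
      obtain ⟨b, rfl⟩ := of_sd1 G H b e1.symm
      obtain ⟨c, rfl⟩ := of_sd1 G H c e2.symm
      obtain ⟨d, rfl⟩ := of_sd1 G H d e3.symm
      obtain ⟨e, rfl⟩ := of_sd1 G H e e4.symm
      rw [E_v1] at *
      exact p5_of hG.2 a b c d e ⟨hab, hbc, hcd, hde, hac, had, hae, hbd, hbe, hce⟩

end Pool.Agent.H.MP_6f30b3_lc.h34
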