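import Pool.Agent.H.MP_6f30b3_lc.h34.Pieces

/-!
MP_6f30b3_lc: the pieces contain no clique on four vertices.
-/

namespace Pool.Agent.H.MP_6f30b3_lc.h34

variable {V : Type*} {E : V → V → Prop} {q : Fin 4 → V}

/-- the case of far vertices -/
theorem k4free_far (h : Ctx E q) (hT : Trim E) {p : Fin 4 → V} (hp : K4 E p)
    (hco : ∀ i, co E (q 0) (p i)) (h2 : ∀ i, L2 E q (p i)) : False := by
  have G := h.G
  obtain ⟨bx, bY, hb⟩ := hT.base h
  have hcm := bl_cm h.G h.c1 h.k4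
  have hcp := bl_cm h.G h.c1 hp
  by_cases hf : Flag E q
  swap
  · exact no_far h hb hf (h.k4.bl 0) (hco 0) (h2 0)
  have h3 : ∀ i k, E (p i) (bx k) := fun i k =>
    far_of_flag h hb hf (h.k4.bl 0) (h2 i) (hco i) (hb.at' k)
  have h4 : ∀ k, Bl E p (bx k) := fun k => ⟨0, fun j _ => G.symm (h3 j k)⟩
  have key : ∀ i, Unatt E p i := by
    intro i a ha hia x hxa
    have h5 : ∀ k, E a (bx k) := by
      intro k
      by_contra h'
      exact hcp (p i) a (bx k) (hp.bl i) ha (h4 k) hia h' (h3 i k)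
    have hca : co E (q 0) a := ((hco i).step h.p5 (h3 i 0)).step h.p5 (G.symm (h5 0))
    have hcx : co E (q 0) x := hca.step h.p5 (G.symm hxa)
    have hab : ¬ Bl E q a := by
      intro hab
      have h6 : ∀ k, ¬ E (bY k) a := fun k h' => (hb.at' k).sep h hab h' (G.symm (h5 k))
      exact hcm (bY 0) a (bY 1) (hb.at' 0).2.1 hab (hb.at' 1).2.1 (h6 0)
        (fun h' => h6 1 (G.symm h')) (hb.adj 0 1 (by decide))
    have ha2 : L2 E q a := by
      refine ⟨hab, fun w hw haw => ?_⟩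
      exact hia (far_of_flag h hb hf (h.k4.bl 0) (h2 i) (hco i) ⟨hab, hw, haw⟩)
    rcases trich E q x with h6 | h6 | h6
    · exact absurd (G.symm hxa) (ha2.2 x h6)
    · obtain ⟨w, hw⟩ := h6.at_
      exact ⟨0, fun j _ => G.symm (far_of_flag h hb hf (h.k4.bl 0) (h2 j) (hco j) hw)⟩
    · exact Bl.of_three G h.c1 hp h4 (hb.full h hf)
        (fun k => far_of_flag h hb hf (h.k4.bl 0) h6 hcx (hb.at' k))
  exact absurd (hT p hp 0 1 (key 0) (key 1)) (by decide)

/-- the case of a piece at a part, with cross edges -/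
theorem k4free_flag (h : Ctx E q) (hT : Trim E) (hf : Flag E q) {p : Fin 4 → V} (hp : K4 E p)
    (i : Fin 4) (w : Fin 4 → V) (hw : ∀ j, j ≠ i → At E q (p j) (w j))
    (hww : ∀ j k, j ≠ i → k ≠ i → ¬ E (w j) (w k)) : False := by
  have G := h.G
  obtain ⟨x, y, hb⟩ := hT.base h
  have hcm := bl_cm h.G h.c1 h.k4
  obtain ⟨a, b, c, ha, hbb, hc, hab, hbc, hac⟩ := pick43 i
  obtain ⟨m, hm⟩ := hb.miss h (hw a ha.symm).2.1
  obtain ⟨s, t, hst, hsm, htm⟩ := pick3 m
  have h1 : ∀ j, j ≠ i → ∀ r, r ≠ m → E (w j) (y r) := by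
    intro j hj r hr
    by_contra h'
    exact hcm (w a) (w j) (y r) (hw a ha.symm).2.1 (hw j hj).2.1 (hb.at' r).2.1
      (hww a j ha.symm hj) h' (hm r hr)
  have h2 : ∀ j, j ≠ i → ∀ r, r ≠ m → E (p j) (x r) := fun j hj r hr =>
    cross_of_flag h hb hf (hw j hj) (hb.at' r) (h1 j hj r hr)
  -- complete to the part
  have h3 : ∀ j, j ≠ i → ∀ u, Bl E q u → ¬ E u (w j) → E (p j) u := by
    intro j hj u hu huw
    by_contra hpu
    have hwj := hw j hj
    have hxs := hb.at' s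
    have hus : E u (y s) := by
      by_contra h'
      exact hcm (w j) u (y s) hwj.2.1 hu hxs.2.1 (fun h'' => huw (G.symm h'')) h' (h1 j hj s hsm)
    obtain ⟨l, l1, l2, l3⟩ := Bl.common G hu hwj.2.1 hxs.2.1
    have hl := h.k4.bl l
    exact h.p5 u (q l) (w j) (p j) (x s) ⟨G.symm l1, l2, G.symm hwj.2.2, h2 j hj s hsm, huw,
      fun h' => hpu (G.symm h'), fun h' => hxs.sep h hu (G.symm hus) (G.symm h'),
      fun h' => hwj.sep h hl (G.symm l2) (G.symm h'),
      fun h' => hxs.sep h hl (G.symm l3) (G.symm h'),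
      fun h' => hxs.sep h hwj.2.1 (G.symm (h1 j hj s hsm)) (G.symm h')⟩
  -- a vertex adjacent to three of them
  have h4 : ∀ j, j ≠ i → E (p j) (w a) := fun j hj =>
    h3 j hj (w a) (hw a ha.symm).2.1 (hww a j ha.symm hj)
  let P : Fin 4 → V := ![p a, p b, p c, x s]
  have hP : K4 E P := by
    intro j k hjk
    fin_cases j <;> fin_cases k
    · exact absurd rfl hjk
    · exact hp _ _ hab
    · exact hp _ _ hac
    · exact h2 a ha.symm s hsm
    · exact hp _ _ hab.symm
    · exact absurd rfl hjk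
    · exact hp _ _ hbc
    · exact h2 b hbb.symm s hsm
    · exact hp _ _ hac.symm
    · exact hp _ _ hbc.symm
    · exact absurd rfl hjk
    · exact h2 c hc.symm s hsm
    · exact G.symm (h2 a ha.symm s hsm)
    · exact G.symm (h2 b hbb.symm s hsm)
    · exact G.symm (h2 c hc.symm s hsm)
    · exact absurd rfl hjk
  have hbl : ∀ z, E (p a) z → E (p b) z → E (p c) z → Bl E P z := by
    intro z h5 h6 h7
    refine ⟨3, fun j hj => ?_⟩
    fin_cases j
    · exact G.symm h5
    · exact G.symm h6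
    · exact G.symm h7
    · exact absurd rfl hj
  have e1 : Bl E P (w a) := hbl _ (h4 a ha.symm) (h4 b hbb.symm) (h4 c hc.symm)
  have e2 : Bl E P (x t) := hbl _ (h2 a ha.symm t htm) (h2 b hbb.symm t htm) (h2 c hc.symm t htm)
  have e3 : Bl E P (x s) := hP.bl 3
  have e4 : ∀ r, r ≠ m → ¬ E (x r) (w a) := fun r hr =>
    (hb.at' r).sep h (hw a ha.symm).2.1 (G.symm (h1 a ha.symm r hr))
  exact bl_cm h.G h.c1 hP (x s) (w a) (x t) e3 e1 e2 (e4 s hsm)
    (fun h' => e4 t htm (G.symm h')) (hb.full h hf s t hst)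

/-- without cross edges, adjacent attached vertices have the same neighbours in the blob -/
theorem same_nb (h : Ctx E q) {bx bY : Fin 3 → V} (hb : Base E q bx bY) (hf : ¬ Flag E q)
    {x y v : V} (hx : L1 E q x) (hy : L1 E q y) (hxy : E x y) (hv : Bl E q v) (hxv : E x v) :
    E y v := by
  have G := h.G
  have hcm := bl_cm h.G h.c1 h.k4
  by_contra hyv
  have hx' : At E q x v := ⟨hx.1, hv, hxv⟩
  obtain ⟨w, hw⟩ := hy.at_
  have hvw : ¬ E v w := fun h' => hf ((cross_iff h hb hx' hw h').1 hxy)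
  obtain ⟨r, -, hr⟩ := hb.other h hv 0
  have hxr := hb.at' r
  have hwr : E w (bY r) := by
    by_contra h'
    exact hcm v w (bY r) hv hw.2.1 hxr.2.1 hvw h' hr
  exact h.p5 y x v (bY r) (bx r) ⟨G.symm hxy, hxv, hr, G.symm hxr.2.2, hyv,
    hw.sep h hxr.2.1 hwr, fun h' => hf ((cross_iff h hb hw hxr hwr).1 h'),
    hx'.sep h hxr.2.1 hr, fun h' => hf ((cross_iff h hb hx' hxr hr).1 h'),
    fun h' => hxr.sep h hv (G.symm hr) (G.symm h')⟩

/-- the case of a piece at a part, without cross edges -/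
theorem k4free_noflag (h : Ctx E q) (hT : Trim E) (hf : ¬ Flag E q) {p : Fin 4 → V}
    (hp : K4 E p) (i : Fin 4) (hw : ∀ j, j ≠ i → L1 E q (p j)) (hi : ¬ L2 E q (p i)) :
    False := by
  have G := h.G
  obtain ⟨bx, bY, hb⟩ := hT.base h
  have hcm := bl_cm h.G h.c1 h.k4
  have hcp := bl_cm h.G h.c1 hp
  obtain ⟨a, b, c, ha, hbb, hc, hab, hbc, hac⟩ := pick43 i
  -- a common neighbour in the blob
  obtain ⟨v, hv, hvp, hvv⟩ : ∃ v, Bl E q v ∧ (∀ j, j ≠ i → E (p j) v) ∧ Bl E p v := by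
    rcases trich E q (p i) with h1 | h1 | h1
    · exact ⟨p i, h1, fun j hj => hp j i hj, hp.bl i⟩
    · obtain ⟨v, hv⟩ := h1.at_
      have h2 : ∀ j, j ≠ i → E (p j) v := fun j hj =>
        same_nb h hb hf h1 (hw j hj) (hp i j hj.symm) hv.2.1 hv.2.2
      exact ⟨v, hv.2.1, h2, ⟨i, fun j hj => G.symm (h2 j hj)⟩⟩
    · exact absurd h1 hi
  have hsame : ∀ j k, j ≠ i → k ≠ i → j ≠ k → ∀ u, Bl E q u → E (p j) u → E (p k) u :=
    fun j k hj hk hjk u hu hju => same_nb h hb hf (hw j hj) (hw k hk) (hp j k hjk) hu hju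
  have key : ∀ j k, j ≠ i → k ≠ i → j ≠ k → Unatt E p j := by
    intro j k hj hk hjk z hz hjz x hxz
    have hzv : E z v := by
      by_contra h'
      exact hcp (p j) z v (hp.bl j) hz hvv hjz h' (hvp j hj)
    have hzk : E z (p k) := by
      by_contra h'
      exact hcp (p j) z (p k) (hp.bl j) hz (hp.bl k) hjz h' (hp j k hjk)
    have hkv : At E q (p k) v := ⟨(hw k hk).1, hv, hvp k hk⟩
    have hzb : ¬ Bl E q z := fun h' => hkv.sep h h' (G.symm hzv) (G.symm hzk)
    have hzv' : At E q z v := ⟨hzb, hv, hzv⟩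
    rcases trich E q x with h1 | h1 | h1
    · refine ⟨i, fun l hl => ?_⟩
      have h2 : E (p k) x := same_nb h hb hf hzv'.l1 hkv.l1 hzk h1 (G.symm hxz)
      by_cases hlk : k = l
      · subst hlk
        exact G.symm h2
      · exact G.symm (hsame k l hk hl hlk x h1 h2)
    · have h2 : E x v := same_nb h hb hf hzv'.l1 h1 (G.symm hxz) hv hzv
      exact Bl.of_two G h.c1 hp hz hvv hzv hxz h2
    · exact absurd hxz (far_of_not_flag h hb hf h1 hzv')
  exact hab (hT p hp a b (key a b ha.symm hbb.symm hab) (key b a hbb.symm ha.symm hab.symm))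

/-- a piece contains no clique on four vertices -/
theorem piece_k4free (h : Ctx E q) (hT : Trim E) {p : Fin 4 → V} (hp : K4 E p)
    (hco : ∀ i, co E (q 0) (p i)) (hs : ∀ i j, sp E q (p i) (p j)) : False := by
  have G := h.G
  by_cases h2 : ∃ i, L2 E q (p i)
  · obtain ⟨i, hi⟩ := h2
    exact k4free_far h hT hp hco fun j => sp_l2 (hs i j) G hi
  push Not at h2
  -- at most one vertex is in the blob
  obtain ⟨i, hi⟩ : ∃ i, ∀ j, j ≠ i → L1 E q (p j) := by
    have h3 : ∀ j, ¬ Bl E q (p j) → L1 E q (p j) := by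
      intro j hj
      rcases trich E q (p j) with h4 | h4 | h4
      · exact absurd h4 hj
      · exact h4
      · exact absurd h4 (h2 j)
    by_cases h4 : ∃ i, Bl E q (p i)
    · obtain ⟨i, hi⟩ := h4
      refine ⟨i, fun j hj => h3 j fun hbj => ?_⟩
      have h5 := (hs i j (p j)).2 ((an_bl hbj).2 ⟨hbj, G.irr⟩)
      exact ((an_bl hi).1 h5).2 (hp i j hj.symm)
    · push Not at h4
      exact ⟨0, fun j _ => h3 j (h4 j)⟩
  by_cases hf : Flag E q
  · have h5 : ∀ j, ∃ w, j ≠ i → At E q (p j) w := by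
      intro j
      by_cases hj : j = i
      · exact ⟨p j, fun h' => absurd hj h'⟩
      · obtain ⟨w, hw⟩ := (hi j hj).at_
        exact ⟨w, fun _ => hw⟩
    choose w hw using h5
    refine k4free_flag h hT hf hp i w hw fun j k hj hk hE => ?_
    have h6 := (hs j k (w k)).2 ((an_at h (hw k hk)).2 ⟨(hw k hk).2.1, G.irr⟩)
    exact ((an_at h (hw j hj)).1 h6).2 hE
  · exact k4free_noflag h hT hf hp i hi (h2 i)

end Pool.Agent.H.MP_6f30b3_lc.h34
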