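import Pool.Agent.H.MP_6f30b3_lc.h34.Quot

/-!
MP_6f30b3_lc: the pieces of a component around a blob.
-/

namespace Pool.Agent.H.MP_6f30b3_lc.h34

variable {V : Type*} {E : V → V → Prop} {q : Fin 4 → V}

/-- the part of the blob to which a vertex belongs or is attached -/
def an (E : V → V → Prop) (q : Fin 4 → V) (x y : V) : Prop :=
  Bl E q y ∧ ((Bl E q x ∧ ¬ E x y) ∨ (¬ Bl E q x ∧ ∃ z, Bl E q z ∧ E x z ∧ ¬ E z y))

/-- same piece -/
def sp (E : V → V → Prop) (q : Fin 4 → V) (x x' : V) : Prop := ∀ y, an E q x y ↔ an E q x' y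

/-- attached vertices -/
def L1 (E : V → V → Prop) (q : Fin 4 → V) (x : V) : Prop :=
  ¬ Bl E q x ∧ ∃ y, Bl E q y ∧ E x y

open Classical in
/-- the label of a vertex: in the blob, attached to it, or far away -/
noncomputable def lab (E : V → V → Prop) (q : Fin 4 → V) (x : V) : ℕ :=
  if Bl E q x then 0 else if ∃ y, Bl E q y ∧ E x y then 1 else 2

/-- adjacency between different pieces -/
def Phi (b : Prop) (l l' : ℕ) : Prop := (l = 0 ∧ l' = 0) ∨ (l ≠ 0 ∧ l' ≠ 0 ∧ b)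

theorem lab_bl {x : V} (h : Bl E q x) : lab E q x = 0 := if_pos h

theorem lab_l1 {x : V} (h : L1 E q x) : lab E q x = 1 := by
  unfold lab; rw [if_neg h.1, if_pos h.2]

theorem lab_l2 {x : V} (h : L2 E q x) : lab E q x = 2 := by
  unfold lab; rw [if_neg h.1, if_neg]
  rintro ⟨y, hy, hE⟩
  exact h.2 y hy hE

theorem trich (E : V → V → Prop) (q : Fin 4 → V) (x : V) :
    Bl E q x ∨ L1 E q x ∨ L2 E q x := by
  by_cases h : Bl E q x
  · exact Or.inl h
  · by_cases h' : ∃ y, Bl E q y ∧ E x y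
    · exact Or.inr (Or.inl ⟨h, h'⟩)
    · push Not at h'
      exact Or.inr (Or.inr ⟨h, h'⟩)

theorem L1.at_ {x : V} (h : L1 E q x) : ∃ y, At E q x y := by
  obtain ⟨h1, y, h2, h3⟩ := h
  exact ⟨y, h1, h2, h3⟩

theorem At.l1 {x y : V} (h : At E q x y) : L1 E q x := ⟨h.1, y, h.2.1, h.2.2⟩

theorem an_bl {x w : V} (hx : Bl E q x) : an E q x w ↔ Bl E q w ∧ ¬ E x w := by
  unfold an
  constructor
  · rintro ⟨h1, ⟨_, h2⟩ | ⟨h2, _⟩⟩
    · exact ⟨h1, h2⟩
    · exact absurd hx h2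
  · rintro ⟨h1, h2⟩
    exact ⟨h1, Or.inl ⟨hx, h2⟩⟩

theorem an_at (h : Ctx E q) {x y w : V} (hx : At E q x y) :
    an E q x w ↔ Bl E q w ∧ ¬ E y w := by
  have hcm := bl_cm h.G h.c1 h.k4
  unfold an
  constructor
  · rintro ⟨h1, ⟨h2, _⟩ | ⟨_, z, hz, hxz, hzw⟩⟩
    · exact absurd h2 hx.1
    · refine ⟨h1, hcm y z w hx.2.1 hz h1 (fun hyz => hx.sep h hz hyz hxz) hzw⟩
  · rintro ⟨h1, h2⟩
    exact ⟨h1, Or.inr ⟨hx.1, y, hx.2.1, hx.2.2, h2⟩⟩

theorem an_l2 {x w : V} (hx : L2 E q x) : ¬ an E q x w := by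
  rintro ⟨h1, ⟨h2, _⟩ | ⟨_, z, hz, hxz, hzw⟩⟩
  · exact hx.1 h2
  · exact hx.2 z hz hxz

theorem sp.symm {x y : V} (h : sp E q x y) : sp E q y x := fun z => (h z).symm

theorem sp.trans {x y z : V} (h : sp E q x y) (h' : sp E q y z) : sp E q x z :=
  fun w => (h w).trans (h' w)

theorem sp.refl (x : V) : sp E q x x := fun _ => Iff.rfl

/-- vertices attached to or in the same part -/
theorem sp_of_root (h : Ctx E q) {x y u v : V} (hx : ∀ w, an E q x w ↔ Bl E q w ∧ ¬ E u w)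
    (hy : ∀ w, an E q y w ↔ Bl E q w ∧ ¬ E v w) (hu : Bl E q u) (hv : Bl E q v)
    (huv : ¬ E u v) : sp E q x y := by
  have hcm := bl_cm h.G h.c1 h.k4
  intro w
  rw [hx, hy]
  constructor
  · rintro ⟨h1, h2⟩
    exact ⟨h1, hcm v u w hv hu h1 (fun h' => huv (h.G.symm h')) h2⟩
  · rintro ⟨h1, h2⟩
    exact ⟨h1, hcm u v w hu hv h1 huv h2⟩

theorem sp_l2 {x y : V} (h : sp E q x y) (hG : IsG E) (hx : L2 E q x) : L2 E q y := by
  rcases trich E q y with h1 | h1 | h1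
  · exact absurd ((h y).2 ((an_bl h1).2 ⟨h1, hG.irr⟩)) (an_l2 hx)
  · obtain ⟨hb, z, hz, hyz⟩ := h1
    exact absurd ((h z).2 ⟨hz, Or.inr ⟨hb, z, hz, hyz, hG.irr⟩⟩) (an_l2 hx)
  · exact h1

theorem l2_sp {x y : V} (hx : L2 E q x) (hy : L2 E q y) : sp E q x y :=
  fun _ => ⟨fun h => absurd h (an_l2 hx), fun h => absurd h (an_l2 hy)⟩

/-- adjacency between different pieces is determined by the labels -/
theorem cross_phi (h : Ctx E q) (hT : Trim E) {x x' : V} (hx : co E (q 0) x)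
    (hx' : co E (q 0) x') (hne : ¬ sp E q x x') :
    E x x' ↔ Phi (Flag E q) (lab E q x) (lab E q x') := by
  have G := h.G
  obtain ⟨bx, bY, hb⟩ := hT.base h
  have hcm := bl_cm h.G h.c1 h.k4
  have case01 : ∀ {x x' : V}, Bl E q x → ¬ Bl E q x' → ¬ sp E q x x' → ¬ E x' x := by
    intro x x' h1 h2 hne hE
    have h3 : At E q x' x := ⟨h2, h1, hE⟩
    exact hne (sp_of_root h (fun w => an_bl h1) (fun w => an_at h h3) h1 h1 G.irr)
  have case12 : ∀ {x x' : V}, L1 E q x → L2 E q x' → co E (q 0) x' →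
      (E x' x ↔ Flag E q) := by
    intro x x' h1 h2 hc
    obtain ⟨y, hy⟩ := h1.at_
    by_cases hf : Flag E q
    · exact ⟨fun _ => hf, fun _ => far_of_flag h hb hf (h.k4.bl 0) h2 hc hy⟩
    · exact ⟨fun h' => absurd h' (far_of_not_flag h hb hf h2 hy), fun h' => absurd h' hf⟩
  rcases trich E q x with h1 | h1 | h1 <;> rcases trich E q x' with h2 | h2 | h2
  · rw [lab_bl h1, lab_bl h2]
    refine ⟨fun _ => Or.inl ⟨rfl, rfl⟩, fun _ => ?_⟩
    by_contra hE
    exact hne (sp_of_root h (fun w => an_bl h1) (fun w => an_bl h2) h1 h2 hE)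
  · rw [lab_bl h1, lab_l1 h2]
    refine ⟨fun hE => absurd (G.symm hE) (case01 h1 h2.1 hne), ?_⟩
    rintro (⟨_, h'⟩ | ⟨h', _⟩)
    · exact absurd h' (by decide)
    · exact absurd rfl h'
  · rw [lab_bl h1, lab_l2 h2]
    refine ⟨fun hE => absurd (G.symm hE) (h2.2 x h1), ?_⟩
    rintro (⟨_, h'⟩ | ⟨h', _⟩)
    · exact absurd h' (by decide)
    · exact absurd rfl h'
  · rw [lab_l1 h1, lab_bl h2]
    refine ⟨fun hE => absurd hE (case01 h2 h1.1 (fun h' => hne h'.symm)), ?_⟩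
    rintro (⟨h', _⟩ | ⟨_, h', _⟩)
    · exact absurd h' (by decide)
    · exact absurd rfl h'
  · rw [lab_l1 h1, lab_l1 h2]
    obtain ⟨y, hy⟩ := h1.at_
    obtain ⟨y', hy'⟩ := h2.at_
    have hyy : E y y' := by
      by_contra hE
      exact hne (sp_of_root h (fun w => an_at h hy) (fun w => an_at h hy') hy.2.1 hy'.2.1 hE)
    rw [cross_iff h hb hy hy' hyy]
    refine ⟨fun hf => Or.inr ⟨by decide, by decide, hf⟩, ?_⟩
    rintro (⟨h', _⟩ | ⟨_, _, h'⟩)
    · exact absurd h' (by decide)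
    · exact h'
  · rw [lab_l1 h1, lab_l2 h2]
    have h3 := case12 h1 h2 hx'
    constructor
    · intro hE
      exact Or.inr ⟨by decide, by decide, h3.1 (G.symm hE)⟩
    · rintro (⟨h', _⟩ | ⟨_, _, h'⟩)
      · exact absurd h' (by decide)
      · exact G.symm (h3.2 h')
  · rw [lab_l2 h1, lab_bl h2]
    refine ⟨fun hE => absurd hE (h1.2 x' h2), ?_⟩
    rintro (⟨h', _⟩ | ⟨_, h', _⟩)
    · exact absurd h' (by decide)
    · exact absurd rfl h'
  · rw [lab_l2 h1, lab_l1 h2]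
    have h3 := case12 h2 h1 hx
    constructor
    · intro hE
      exact Or.inr ⟨by decide, by decide, h3.1 hE⟩
    · rintro (⟨h', _⟩ | ⟨_, _, h'⟩)
      · exact absurd h' (by decide)
      · exact h3.2 h'
  · exact absurd (l2_sp h1 h2) hne

/-- the pieces inherit the absence of twins -/
theorem piece_twinfree (h : Ctx E q) (hT : Trim E)
    (htf : ∀ v w, co E v w → sN E v w → v = w) {v w : V} (hv : co E (q 0) v)
    (hw : co E (q 0) w) (hvw : sp E q v w)
    (hE : ∀ x, co E (q 0) x → sp E q v x → (E v x ↔ E w x)) : v = w := by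
  have G := h.G
  -- a vertex of the blob and an attached vertex are distinguished
  have key : ∀ {v w : V}, co E (q 0) w → sp E q v w →
      (∀ x, co E (q 0) x → sp E q v x → (E v x ↔ E w x)) → Bl E q v → ¬ L1 E q w := by
    intro v w hw hvw hE h1 h2
    obtain ⟨y, hy⟩ := h2.at_
    have h3 : ¬ E v y := ((an_bl h1).1 ((hvw y).2 ((an_at h hy).2 ⟨hy.2.1, G.irr⟩))).2
    have h4 : sp E q v y := sp_of_root h (fun w => an_bl h1) (fun w => an_bl hy.2.1) h1 hy.2.1 h3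
    exact h3 ((hE y (hw.step h.p5 hy.2.2) h4).2 hy.2.2)
  have hlab : lab E q v = lab E q w := by
    rcases trich E q v with h1 | h1 | h1
    · rcases trich E q w with h2 | h2 | h2
      · rw [lab_bl h1, lab_bl h2]
      · exact absurd h2 (key hw hvw hE h1)
      · exact absurd h1 (sp_l2 hvw.symm G h2).1
    · rcases trich E q w with h2 | h2 | h2
      · refine absurd h1 (key hv hvw.symm (fun x hx hxs => (hE x hx (hvw.trans hxs)).symm) h2)
      · rw [lab_l1 h1, lab_l1 h2]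
      · exact absurd h1 (fun h' => by
          obtain ⟨y, hy⟩ := h'.at_
          exact (sp_l2 hvw.symm G h2).2 y hy.2.1 hy.2.2)
    · rw [lab_l2 h1, lab_l2 (sp_l2 hvw G h1)]
  refine htf v w ((hv.symm G).trans h.p5 hw) fun x => ?_
  by_cases hx : co E (q 0) x
  · by_cases hs : sp E q v x
    · exact hE x hx hs
    · rw [cross_phi h hT hv hx hs, cross_phi h hT hw hx (fun h' => hs (hvw.trans h')), hlab]
  · exact ⟨fun h' => absurd (hv.step h.p5 h') hx, fun h' => absurd (hw.step h.p5 h') hx⟩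

end Pool.Agent.H.MP_6f30b3_lc.h34
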