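import Pool.Agent.H.MP_6f30b3_lc.h34.Conn

/-!
MP_6f30b3_lc: the quotient by the classes of `rel`.
-/

namespace Pool.Agent.H.MP_6f30b3_lc.h34

variable {V : Type*} {E : V → V → Prop}

/-- representatives of the classes, in a graph with two sides -/
structure Rp (E : V → V → Prop) (sd : V → Bool) (rp : V → V) : Prop where
  sdE : ∀ v w, E v w → sd v = sd w
  sd_rp : ∀ v, sd (rp v) = sd v
  rel_rp : ∀ v, rel E v (rp v)
  eq_of : ∀ v w, sd v = sd w → rel E v w → rp v = rp w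

/-- the graph on the representatives -/
def FQ (E : V → V → Prop) (rp : V → V) (v w : V) : Prop := rp v = v ∧ rp w = w ∧ E v w

/-- the part of `q i` has no neighbours outside the blob -/
def Unatt (E : V → V → Prop) (q : Fin 4 → V) (i : Fin 4) : Prop :=
  ∀ a, Bl E q a → ¬ E (q i) a → ∀ x, E x a → Bl E q x

variable {sd : V → Bool} {rp : V → V}

theorem FQ.isG (hG : IsG E) : IsG (FQ E rp) :=
  ⟨fun h => ⟨h.2.1, h.1, hG.symm h.2.2⟩, fun h => hG.irr h.2.2⟩

theorem FQ.c1 (h1 : C1 E) : C1 (FQ E rp) := by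
  intro t t' a b c h htA htB htC htA' htB' htC' hab hbc hac
  exact h1 t t' a b c h.2.2 htA.2.2 htB.2.2 htC.2.2 htA'.2.2 htB'.2.2 htC'.2.2
    (fun h' => hab ⟨htA.2.1, htB.2.1, h'⟩) (fun h' => hbc ⟨htB.2.1, htC.2.1, h'⟩) hac.2.2

theorem FQ.p5 (hP : NoP5 E) : NoP5 (FQ E rp) := by
  rintro a b c d e ⟨h1, h2, h3, h4, h5, h6, h7, h8, h9, h10⟩
  have ha := h1.1
  have hb := h1.2.1
  have hc := h2.2.1
  have hd := h3.2.1
  have he := h4.2.1
  exact hP a b c d e ⟨h1.2.2, h2.2.2, h3.2.2, h4.2.2, fun h => h5 ⟨ha, hc, h⟩,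
    fun h => h6 ⟨ha, hd, h⟩, fun h => h7 ⟨ha, he, h⟩, fun h => h8 ⟨hb, hd, h⟩,
    fun h => h9 ⟨hb, he, h⟩, fun h => h10 ⟨hc, he, h⟩⟩

theorem Rp.idem (h : Rp E sd rp) (v : V) : rp (rp v) = rp v :=
  h.eq_of _ _ (h.sd_rp v) (h.rel_rp v).symm

theorem Rp.same (h : Rp E sd rp) {v w : V} (hvw : rp v = rp w) : sd v = sd w ∧ rel E v w := by
  refine ⟨by rw [← h.sd_rp v, ← h.sd_rp w, hvw], ?_⟩
  have h1 := h.rel_rp v
  rw [hvw] at h1
  exact h1.trans (h.rel_rp w).symm

theorem Rp.half (hG : IsG E) (h1 : C1 E) (h : Rp E sd rp) {v w : V} (hvw : rp v ≠ rp w) :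
    E v w ↔ E (rp v) w := by
  by_cases hs : sd v = sd w
  · have hr : ¬ rel E v w := fun h' => hvw (h.eq_of _ _ hs h')
    exact (h.rel_rp v).module_iff hG h1 hr
  · constructor
    · intro h'
      exact absurd (h.sdE _ _ h') hs
    · intro h'
      exact absurd ((h.sd_rp v).symm.trans (h.sdE _ _ h')) hs

/-- adjacency between different classes is adjacency of the representatives -/
theorem Rp.adj_iff (hG : IsG E) (h1 : C1 E) (h : Rp E sd rp) {v w : V} (hvw : rp v ≠ rp w) :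
    E v w ↔ FQ E rp (rp v) (rp w) := by
  have h2 : E (rp v) w ↔ E (rp v) (rp w) := by
    have h3 : rp w ≠ rp (rp v) := by rw [h.idem]; exact hvw.symm
    have h4 := h.half hG h1 h3
    constructor
    · intro h'; exact hG.symm (h4.1 (hG.symm h'))
    · intro h'; exact hG.symm (h4.2 (hG.symm h'))
  rw [h.half hG h1 hvw, h2]
  exact ⟨fun h' => ⟨h.idem v, h.idem w, h'⟩, fun h' => h'.2.2⟩

/-- the quotient has no twins on the same side -/
theorem Rp.twinfree (hG : IsG E) (h1 : C1 E) (h : Rp E sd rp) {v w : V} (hv : rp v = v)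
    (hw : rp w = w) (hs : sd v = sd w) (ht : sN (FQ E rp) v w) : v = w := by
  have key : ∀ {v w : V}, rp v = v → rp w = w → sd v = sd w → sN (FQ E rp) v w →
      ∀ x, AA E v x → AA E w x := by
    intro v w hv hw hs ht x hx
    have hx' := (h.rel_rp x).AA_congr hG hx
    have h2 : FQ E rp w (rp x) := (ht (rp x)).1 ⟨hv, h.idem x, hx'.1⟩
    have h3 : AA E w (rp x) := by
      refine ⟨h2.2.2, fun hf hf' => ?_⟩
      have h4 := ff_adj_rel hG h1 hf hf' h2.2.2
      have h5 := h.eq_of _ _ (h.sdE _ _ h2.2.2) h4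
      rw [hw, h.idem] at h5
      have h6 := h2.2.2
      rw [← h5] at h6
      exact hG.irr h6
    exact (h.rel_rp x).symm.AA_congr hG h3
  have h2 := h.eq_of v w hs fun x => ⟨key hv hw hs ht x, key hw hv hs.symm ht.symm x⟩
  rwa [hv, hw] at h2

theorem FQ.k4 {q : Fin 4 → V} (hq : K4 (FQ E rp) q) : K4 E q := fun i j hij => (hq i j hij).2.2

theorem FQ.rep {q : Fin 4 → V} (hq : K4 (FQ E rp) q) (i : Fin 4) : rp (q i) = q i := by
  obtain ⟨j, hj⟩ : ∃ j, i ≠ j := by revert i; decide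
  exact (hq i j hj).1

theorem FQ.bl {q : Fin 4 → V} {v : V} (hv : Bl (FQ E rp) q v) : rp v = v ∧ Bl E q v := by
  obtain ⟨i, hi⟩ := hv
  obtain ⟨j, hj⟩ : ∃ j, j ≠ i := by
    obtain ⟨l, -, -, h, -⟩ := pick2 i i
    exact ⟨l, h⟩
  exact ⟨(hi j hj).1, i, fun j hj => (hi j hj).2.2⟩

theorem pick43 : ∀ i : Fin 4, ∃ a b c : Fin 4, i ≠ a ∧ i ≠ b ∧ i ≠ c ∧
    a ≠ b ∧ b ≠ c ∧ a ≠ c := by decide

/-- an unattached vertex of a clique of the quotient is free -/
theorem ff_of_unatt (hG : IsG E) (h1 : C1 E) (h : Rp E sd rp) {q : Fin 4 → V}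
    (hq : K4 (FQ E rp) q) {i : Fin 4} (hu : Unatt (FQ E rp) q i) : ff E (q i) := by
  have hqE := FQ.k4 hq
  have hrep := FQ.rep hq
  obtain ⟨j0, k0, hjk, hj0, -, hk0, -⟩ := pick2 i i
  -- a representative attached below cannot be in the blob
  have rpout : ∀ x, (∀ j, j ≠ i → ¬ E x (q j)) → sd x = sd (q i) →
      ¬ Bl (FQ E rp) q (rp x) := by
    intro x hx hsx hb
    obtain ⟨m, hm⟩ := hb
    obtain ⟨j, -, -, hji, hjm, -, -⟩ := pick2 i m
    have h2 := (hm j hjm).2.2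
    have hne : rp x ≠ rp (q j) := by
      intro h'
      rw [h', hrep] at h2
      exact hG.irr h2
    exact hx j hji ((h.half hG h1 hne).2 h2)
  -- non-free vertices attached from outside
  have nonff : ∀ a x, (∀ j, j ≠ i → E a (q j)) → E a x → (∀ j, j ≠ i → ¬ E x (q j)) →
      ¬ ff E a := by
    intro a x ha hax hx hf
    exact hf.1 (q j0) x (q k0) (ha j0 hj0) hax (ha k0 hk0) (fun h' => hx j0 hj0 (hG.symm h'))
      (hx k0 hk0) (hqE j0 k0 hjk)
  have hsub : ∀ x, E (q i) x → Bl E q x := by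
    intro x hx
    by_contra hb
    have hxj : ∀ j, j ≠ i → ¬ E x (q j) := fun j hj =>
      attach hG h1 hqE hb (hqE.bl i) (hqE.bl j) (hqE i j hj.symm) (hG.symm hx)
    have hnf := nonff (q i) x (fun j hj => hqE i j hj.symm) hx hxj
    have hne : rp x ≠ rp (q i) := by
      intro h'
      exact hnf ((h.same h').2.ff_right hG (hG.symm hx))
    have h2 := (h.adj_iff hG h1 hne).1 (hG.symm hx)
    rw [hrep i] at h2
    exact rpout x hxj (h.sdE _ _ (hG.symm hx)) (hu (q i) (hq.bl i) (fun h' => hG.irr h'.2.2) _ h2)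
  have hcm := bl_cm hG h1 hqE
  refine ⟨fun a b c ha hb hc => hcm a b c (hsub a ha) (hsub b hb) (hsub c hc), ?_, ?_⟩
  · obtain ⟨a, b, c, h2, h3, h4, h5, h6, h7⟩ := pick43 i
    exact ⟨q a, q b, q c, hqE _ _ h2, hqE _ _ h3, hqE _ _ h4, hqE _ _ h5, hqE _ _ h6,
      hqE _ _ h7⟩
  · intro u hu' x hux
    have huq : ∀ j, j ≠ i → E u (q j) := fun j hj => hu' _ (hqE i j hj.symm)
    have hub : Bl E q u := ⟨i, huq⟩
    have hnu : ¬ E (q i) u := fun h' => hG.irr (hu' u h')
    by_contra hix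
    by_cases hb : Bl E q x
    · exact hcm u (q i) x hub (hqE.bl i) hb (fun h' => hnu (hG.symm h')) hix hux
    · have hxj : ∀ j, j ≠ i → ¬ E x (q j) := fun j hj =>
        attach hG h1 hqE hb hub (hqE.bl j) (huq j hj) (hG.symm hux)
      have hnf := nonff u x huq hux hxj
      have hne : rp x ≠ rp u := by
        intro h'
        exact hnf ((h.same h').2.ff_right hG (hG.symm hux))
      have h2 := (h.adj_iff hG h1 hne).1 (hG.symm hux)
      have hu2 : ∀ j, j ≠ i → FQ E rp (rp u) (q j) := by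
        intro j hj
        have hne' : rp u ≠ rp (q j) := by
          intro h'
          exact hnf ((h.same h').2.ff_left hG (huq j hj))
        have := (h.adj_iff hG h1 hne').1 (huq j hj)
        rwa [hrep j] at this
      have hu3 : ¬ FQ E rp (q i) (rp u) := by
        intro h'
        have hne' : rp u ≠ rp (q i) := by
          intro h''
          rw [h'', hrep] at h'
          exact hG.irr h'.2.2
        exact hnu (hG.symm ((h.half hG h1 hne').2 (hG.symm h'.2.2)))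
      have hs : sd x = sd (q i) := by
        have e1 := h.sdE _ _ hux
        have e2 := h.sdE _ _ (huq j0 hj0)
        have e3 := h.sdE _ _ (hqE i j0 hj0.symm)
        rw [← e1, e2, ← e3]
      exact rpout x hxj hs (hu (rp u) ⟨i, hu2⟩ hu3 _ h2)

/-- at most one vertex of a clique of the quotient is unattached -/
theorem unatt_unique (hG : IsG E) (h1 : C1 E) (h : Rp E sd rp) {q : Fin 4 → V}
    (hq : K4 (FQ E rp) q) {i j : Fin 4} (hi : Unatt (FQ E rp) q i)
    (hj : Unatt (FQ E rp) q j) : i = j := by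
  by_contra hij
  have hE := (hq i j hij).2.2
  have h2 := ff_adj_rel hG h1 (ff_of_unatt hG h1 h hq hi) (ff_of_unatt hG h1 h hq hj) hE
  have h3 := h.eq_of _ _ (h.sdE _ _ hE) h2
  rw [FQ.rep hq, FQ.rep hq] at h3
  rw [h3] at hE
  exact hG.irr hE

/-- the property of the quotient that is used below: at most one unattached part -/
def Trim (E : V → V → Prop) : Prop :=
  ∀ q : Fin 4 → V, K4 E q → ∀ i j, Unatt E q i → Unatt E q j → i = j

theorem FQ.trim (hG : IsG E) (h1 : C1 E) (h : Rp E sd rp) : Trim (FQ E rp) :=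
  fun _ hq _ _ hi hj => unatt_unique hG h1 h hq hi hj

theorem Trim.base (hT : Trim E) {q : Fin 4 → V} (h : Ctx E q) : ∃ x y, Base E q x y := by
  obtain ⟨i, hi⟩ : ∃ i, ∀ j, j ≠ i → ¬ Unatt E q j := by
    by_cases h2 : ∃ i, Unatt E q i
    · obtain ⟨i, hi⟩ := h2
      exact ⟨i, fun j hj hu => hj (hT q h.k4 j i hu hi)⟩
    · push Not at h2
      exact ⟨0, fun j _ => h2 j⟩
  have key : ∀ k : Fin 3, ∃ x y, At E q x y ∧ ¬ E (q (i.succAbove k)) y := by
    intro k
    have h3 := hi _ (Fin.succAbove_ne i k)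
    unfold Unatt at h3
    push Not at h3
    obtain ⟨a, ha, hna, x, hx, hbx⟩ := h3
    exact ⟨x, a, ⟨hbx, ha, hx⟩, hna⟩
  choose x y hxy hn using key
  refine ⟨x, y, hxy, fun k l hkl => ?_⟩
  have hcm := bl_cm h.G h.c1 h.k4
  have hne : i.succAbove k ≠ i.succAbove l := fun h' => hkl (Fin.succAbove_right_injective h')
  by_contra hyy
  have h4 := hcm (q (i.succAbove k)) (y k) (y l) (h.k4.bl _) (hxy k).2.1 (hxy l).2.1 (hn k) hyy
  exact hcm (q (i.succAbove k)) (y l) (q (i.succAbove l)) (h.k4.bl _) (hxy l).2.1 (h.k4.bl _) h4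
    (fun h' => hn l (h.G.symm h')) (h.k4 _ _ hne)

end Pool.Agent.H.MP_6f30b3_lc.h34
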