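import Pool.Agent.H.MP_6f30b3_lc.h34.Quot
import Pool.Agent.H.MP_6f30b3_lc.h34.Assemble

/-!
MP_6f30b3_lc: the isomorphism types of the classes of `rel`.
-/

namespace Pool.Agent.H.MP_6f30b3_lc.h34

variable {V : Type*} {E : V → V → Prop} {sd : V → Bool}

/-- the number of twins -/
noncomputable def Pc (E : V → V → Prop) (v : V) : ℕ := Nat.card {w // sN E v w}

/-- free vertices in the same blob -/
def RR (E : V → V → Prop) (v w : V) : Prop := ff E v ∧ ff E w ∧ (E v w ∨ sN E v w)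

/-- same numbers of free vertices in parts of given size -/
def lv (E : V → V → Prop) (a b : V) : Prop :=
  ∀ k, Nat.card {y // RR E a y ∧ Pc E y = k} = Nat.card {y // RR E b y ∧ Pc E y = k}

/-- same profile -/
def pe (E : V → V → Prop) (a b : V) : Prop := (ff E a ↔ ff E b) ∧ (ff E a → lv E a b)

/-- same class -/
def cl (E : V → V → Prop) (sd : V → Bool) (v y : V) : Prop := sd v = sd y ∧ rel E v y

/-- same type of the classes -/
def ty (E : V → V → Prop) (sd : V → Bool) (v w : V) : Prop :=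
  ∀ x, Nat.card {y // cl E sd v y ∧ pe E y x} = Nat.card {y // cl E sd w y ∧ pe E y x}

theorem lv.symm {a b : V} (h : lv E a b) : lv E b a := fun k => (h k).symm

theorem lv.trans {a b c : V} (h : lv E a b) (h' : lv E b c) : lv E a c :=
  fun k => (h k).trans (h' k)

theorem pe.refl (a : V) : pe E a a := ⟨Iff.rfl, fun _ _ => rfl⟩

theorem pe.symm {a b : V} (h : pe E a b) : pe E b a :=
  ⟨h.1.symm, fun hb => (h.2 (h.1.2 hb)).symm⟩

theorem pe.trans {a b c : V} (h : pe E a b) (h' : pe E b c) : pe E a c :=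
  ⟨h.1.trans h'.1, fun ha => (h.2 ha).trans (h'.2 (h.1.1 ha))⟩

theorem ty.refl (v : V) : ty E sd v v := fun _ => rfl

theorem ty.symm {v w : V} (h : ty E sd v w) : ty E sd w v := fun x => (h x).symm

theorem ty.trans {u v w : V} (h : ty E sd u v) (h' : ty E sd v w) : ty E sd u w :=
  fun x => (h x).trans (h' x)

theorem cl.refl (v : V) : cl E sd v v := ⟨rfl, rel.refl v⟩

theorem cl.symm {v w : V} (h : cl E sd v w) : cl E sd w v := ⟨h.1.symm, h.2.symm⟩

theorem cl.trans {u v w : V} (h : cl E sd u v) (h' : cl E sd v w) : cl E sd u w :=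
  ⟨h.1.trans h'.1, h.2.trans h'.2⟩

theorem cl.ty_eq {v w : V} (h : cl E sd v w) : ty E sd v w := by
  intro x
  have e : ∀ y, cl E sd v y ↔ cl E sd w y := fun y => ⟨fun h' => h.symm.trans h', fun h' => h.trans h'⟩
  simp only [e]

theorem sN.rel {v w : V} (h : sN E v w) : rel E v w := by
  intro x
  unfold AA
  rw [h x, h.ff_iff]

theorem RR.refl {v : V} (h : ff E v) : RR E v v := ⟨h, h, Or.inr (sN.refl v)⟩

theorem RR.symm (hG : IsG E) {v w : V} (h : RR E v w) : RR E w v := by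
  refine ⟨h.2.1, h.1, ?_⟩
  rcases h.2.2 with h' | h'
  · exact Or.inl (hG.symm h')
  · exact Or.inr h'.symm

theorem RR.nonadj (hG : IsG E) (h1 : C1 E) {a x y : V} (hx : RR E a x) (hy : RR E a y)
    (hxy : ¬ E x y) : sN E x y := by
  rcases hx.2.2 with h2 | h2 <;> rcases hy.2.2 with h3 | h3
  · exact ff_sub hG h1 hx.1 hx.2.1 h2 h3 hxy
  · exact absurd (hG.symm ((h3 x).1 h2)) hxy
  · exact absurd ((h2 y).1 h3) hxy
  · exact h2.symm.trans h3

theorem RR.trans (hG : IsG E) (h1 : C1 E) {a x y : V} (hx : RR E a x) (hy : RR E x y) :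
    RR E a y := by
  refine ⟨hx.1, hy.2.1, ?_⟩
  by_cases h : E a y
  · exact Or.inl h
  · exact Or.inr ((hx.symm hG).nonadj hG h1 hy h)

theorem RR.rel (hG : IsG E) (h1 : C1 E) {a x : V} (h : RR E a x) : rel E a x := by
  rcases h.2.2 with h2 | h2
  · exact ff_adj_rel hG h1 h.1 h.2.1 h2
  · exact h2.rel

theorem RR.cl (hG : IsG E) (h1 : C1 E) (hsd : ∀ v w, E v w → sd v = sd w) {a x : V}
    (h : RR E a x) : cl E sd a x := by
  refine ⟨?_, h.rel hG h1⟩
  rcases h.2.2 with h2 | h2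
  · exact hsd _ _ h2
  · obtain ⟨-, ⟨b, -, -, hb, -⟩, -⟩ := h.1
    exact (hsd _ _ hb).trans (hsd _ _ ((h2 b).1 hb)).symm

theorem RR.pe (hG : IsG E) (h1 : C1 E) {a x : V} (h : RR E a x) : pe E a x := by
  refine ⟨⟨fun _ => h.2.1, fun _ => h.1⟩, fun _ k => ?_⟩
  have e : ∀ y, RR E a y ↔ RR E x y := fun y =>
    ⟨fun h' => (h.symm hG).trans hG h1 h', fun h' => h.trans hG h1 h'⟩
  simp only [e]

/-- same profile: the free parts of the blobs are isomorphic -/
theorem lv.iso [Finite V] (hG : IsG E) (h1 : C1 E) {a b : V} (h : lv E a b) :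
    ∃ e : {x // RR E a x} ≃ {y // RR E b y}, ∀ x y, E x.1 y.1 ↔ E (e x).1 (e y).1 := by
  have key : ∀ {a : V} (x : {x // RR E a x}), Nat.card {y : {x // RR E a x} // sN E x.1 y.1} =
      Pc E x.1 := by
    intro a x
    refine Nat.card_congr ⟨fun y => ⟨y.1.1, y.2⟩, fun y => ⟨⟨y.1, ?_⟩, y.2⟩, fun y => rfl,
      fun y => rfl⟩
    exact x.2.trans hG h1 ⟨x.2.2.1, y.2.ff_iff.1 x.2.2.1, Or.inr y.2⟩
  have noE : ∀ {x y z : V}, sN E x y → sN E x z → ¬ E y z := by
    intro x y z hy hz hE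
    exact hG.irr ((hz z).1 ((hy z).2 hE))
  let r : (a : V) → Setoid {x // RR E a x} := fun a =>
    ⟨fun x y => sN E x.1 y.1, fun _ => sN.refl _, fun h => h.symm, fun h h' => h.trans h'⟩
  obtain ⟨e, he, -⟩ := assemble (α := {x // RR E a x}) (β := {y // RR E b y}) (Λ := Unit)
    (fun x y => E x.1 y.1) (fun x y => E x.1 y.1) (fun _ => ()) (fun _ => ()) (r a) (r b)
    (fun x y => (Sum.elim (fun x => Pc E x.1) (fun x => Pc E x.1) x) =
      Sum.elim (fun x => Pc E x.1) (fun x => Pc E x.1) y)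
    ⟨fun _ => rfl, fun h => h.symm, fun h h' => h.trans h'⟩
    (fun x y hxy => by
      have : sN E x.1 y.1 := hxy
      show Pc E x.1 = Pc E y.1
      unfold Pc
      refine Nat.card_congr (Equiv.subtypeEquivRight fun z =>
        ⟨fun h' => this.symm.trans h', fun h' => this.trans h'⟩))
    (fun x y hxy => by
      have : sN E x.1 y.1 := hxy
      show Pc E x.1 = Pc E y.1
      unfold Pc
      refine Nat.card_congr (Equiv.subtypeEquivRight fun z =>
        ⟨fun h' => this.symm.trans h', fun h' => this.trans h'⟩))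
    (fun z => by
      have e1 : ∀ (a : V) (k : ℕ), Nat.card {x : {x // RR E a x} // Pc E x.1 = k} =
          Nat.card {y // RR E a y ∧ Pc E y = k} := fun a k =>
        Nat.card_congr ⟨fun y => ⟨y.1.1, y.1.2, y.2⟩, fun y => ⟨⟨y.1, y.2.1⟩, y.2.2⟩,
          fun y => rfl, fun y => rfl⟩
      show Nat.card {x : {x // RR E a x} // Pc E x.1 = _} =
        Nat.card {x : {x // RR E b x} // Pc E x.1 = _}
      rw [e1, e1, h])
    (fun x y hxy => by
      have hP : Pc E x.1 = Pc E y.1 := hxy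
      have h2 : Nat.card {z : {x // RR E a x} // sN E x.1 z.1} =
          Nat.card {z : {x // RR E b x} // sN E y.1 z.1} := by rw [key x, key y, hP]
      obtain ⟨e⟩ := Finite.card_eq.1 h2
      exact ⟨e, fun u v => ⟨fun h' => absurd h' (noE u.2 v.2),
        fun h' => absurd h' (noE (e u).2 (e v).2)⟩, fun _ => rfl⟩)
    (fun _ _ => True)
    (fun x y hxy => ⟨fun _ => trivial, fun _ => by
      by_contra hE
      exact hxy (x.2.nonadj hG h1 y.2 hE)⟩)
    (fun x y hxy => ⟨fun _ => trivial, fun _ => by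
      by_contra hE
      exact hxy (x.2.nonadj hG h1 y.2 hE)⟩)
  exact ⟨e, he⟩

/-- same type: the classes are isomorphic -/
theorem ty.iso [Finite V] (hG : IsG E) (h1 : C1 E) (hsd : ∀ v w, E v w → sd v = sd w)
    {v w : V} (h : ty E sd v w) :
    ∃ e : {x // cl E sd v x} ≃ {y // cl E sd w y}, ∀ x y, E x.1 y.1 ↔ E (e x).1 (e y).1 := by
  let r : (v : V) → Setoid {x // cl E sd v x} := fun v =>
    ⟨fun x y => x = y ∨ RR E x.1 y.1, fun _ => Or.inl rfl, fun {x y} h => by
      rcases h with rfl | h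
      · exact Or.inl rfl
      · exact Or.inr (h.symm hG), fun {x y z} h h' => by
      rcases h with rfl | h
      · exact h'
      · rcases h' with rfl | h'
        · exact Or.inr h
        · exact Or.inr (h.trans hG h1 h')⟩
  have hr : ∀ (v : V) (x y : {x // cl E sd v x}), r v x y → pe E x.1 y.1 := by
    rintro v x y (rfl | h')
    · exact pe.refl _
    · exact h'.pe hG h1
  have blk : ∀ (v : V) (x : {x // cl E sd v x}), ff E x.1 →
      Nonempty {e : {y // r v x y} ≃ {y // RR E x.1 y} // ∀ y, (e y).1 = y.1.1} := by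
    intro v x hx
    refine ⟨⟨⟨fun y => ⟨y.1.1, ?_⟩, fun y => ⟨⟨y.1, x.2.trans (y.2.cl hG h1 hsd)⟩, Or.inr y.2⟩,
      fun y => rfl, fun y => rfl⟩, fun y => rfl⟩⟩
    rcases y.2 with h' | h'
    · rw [← h']
      exact RR.refl hx
    · exact h'
  have hno : ∀ (v : V) (x y : {x // cl E sd v x}), ¬ r v x y → ¬ E x.1 y.1 := by
    intro v x y hxy hE
    have h2 : rel E x.1 y.1 := x.2.2.symm.trans y.2.2
    exact hxy (Or.inr ⟨h2.ff_left hG hE, h2.ff_right hG hE, Or.inl hE⟩)
  let R : {x // cl E sd v x} ⊕ {y // cl E sd w y} → V :=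
    Sum.elim (fun x => x.1) (fun x => x.1)
  obtain ⟨e, he, -⟩ := assemble (α := {x // cl E sd v x}) (β := {y // cl E sd w y}) (Λ := Unit)
    (fun x y => E x.1 y.1) (fun x y => E x.1 y.1) (fun _ => ()) (fun _ => ()) (r v) (r w)
    (fun x y => pe E (R x) (R y))
    ⟨fun _ => pe.refl _, fun h => h.symm, fun h h' => h.trans h'⟩
    (fun x y hxy => hr v x y hxy) (fun x y hxy => hr w x y hxy)
    (fun z => by
      have e1 : ∀ (a k : V), Nat.card {x : {x // cl E sd a x} // pe E x.1 k} =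
          Nat.card {y // cl E sd a y ∧ pe E y k} := fun a k =>
        Nat.card_congr ⟨fun y => ⟨y.1.1, y.1.2, y.2⟩, fun y => ⟨⟨y.1, y.2.1⟩, y.2.2⟩,
          fun y => rfl, fun y => rfl⟩
      show Nat.card {x : {x // cl E sd v x} // pe E x.1 (R z)} =
        Nat.card {x : {x // cl E sd w x} // pe E x.1 (R z)}
      rw [e1, e1, h])
    (fun x y hxy => by
      have hP : pe E x.1 y.1 := hxy
      by_cases hx : ff E x.1
      · obtain ⟨e, he⟩ := (hP.2 hx).iso hG h1
        obtain ⟨⟨e1, he1⟩⟩ := blk v x hx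
        obtain ⟨⟨e2, he2⟩⟩ := blk w y (hP.1.1 hx)
        refine ⟨(e1.trans e).trans e2.symm, fun a b => ?_, fun _ => rfl⟩
        have h3 : ∀ a, ((e2.symm (e (e1 a))).1.1 : V) = (e (e1 a)).1 := by
          intro a
          rw [← he2, Equiv.apply_symm_apply]
        show E a.1.1 b.1.1 ↔ E (e2.symm (e (e1 a))).1.1 (e2.symm (e (e1 b))).1.1
        rw [h3, h3, ← he, he1, he1]
      · have hy : ¬ ff E y.1 := fun h' => hx (hP.1.2 h')
        have u1 : ∀ a : {a // r v x a}, a = ⟨x, Or.inl rfl⟩ := by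
          rintro ⟨a, h' | h'⟩
          · exact Subtype.ext h'.symm
          · exact absurd h'.1 hx
        have u2 : ∀ a : {a // r w y a}, a = ⟨y, Or.inl rfl⟩ := by
          rintro ⟨a, h' | h'⟩
          · exact Subtype.ext h'.symm
          · exact absurd h'.1 hy
        refine ⟨⟨fun _ => ⟨y, Or.inl rfl⟩, fun _ => ⟨x, Or.inl rfl⟩, fun a => (u1 a).symm,
          fun a => (u2 a).symm⟩, fun a b => ?_, fun _ => rfl⟩
        rw [u1 a, u1 b]
        exact ⟨fun h' => absurd h' hG.irr, fun h' => absurd h' hG.irr⟩)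
    (fun _ _ => False)
    (fun x y hxy => ⟨fun hE => hno v x y hxy hE, fun h' => h'.elim⟩)
    (fun x y hxy => ⟨fun hE => hno w x y hxy hE, fun h' => h'.elim⟩)
  exact ⟨e, he⟩

end Pool.Agent.H.MP_6f30b3_lc.h34
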