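import Pool.Agent.H.MP_6f30b3_lc.h34.Iso
import Pool.Agent.H.MP_6f30b3_lc.h34.Types

/-!
MP_6f30b3_lc: isomorphism of the two sides, reduced to components of the quotient.
-/

namespace Pool.Agent.H.MP_6f30b3_lc.h34

variable {V : Type*} {E F : V → V → Prop} {c : V → ℕ} {S T : V → Prop}

/-- closed under adjacency -/
def Cld (F : V → V → Prop) (S : V → Prop) : Prop := ∀ x y, S x → F x y → S y

theorem Cld.co (hS : Cld F S) {x y : V} (hx : S x) (h : co F x y) : S y := by
  obtain ⟨a, b, h1, h2, h3⟩ := h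
  have key : ∀ {a b : V}, S a → (a = b ∨ F a b) → S b := by
    rintro a b ha (rfl | h')
    · exact ha
    · exact hS _ _ ha h'
  exact key (key (key hx h1) h2) h3

theorem co.map (hS : Cld F S) (e : {x // S x} ≃ {y // T y})
    (he : ∀ x y, F x.1 y.1 ↔ F (e x).1 (e y).1) (x y : {x // S x}) (h : co F x.1 y.1) :
    co F (e x).1 (e y).1 := by
  obtain ⟨a, b, h1, h2, h3⟩ := h
  have key : ∀ (a : {x // S x}) (b : V), (a.1 = b ∨ F a.1 b) →
      ∃ hb : S b, (e a).1 = (e ⟨b, hb⟩).1 ∨ F (e a).1 (e ⟨b, hb⟩).1 := by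
    rintro a b (h' | h')
    · subst h'
      exact ⟨a.2, Or.inl rfl⟩
    · have hb := hS _ _ a.2 h'
      exact ⟨hb, Or.inr ((he a ⟨b, hb⟩).1 h')⟩
  obtain ⟨ha, h1⟩ := key x a h1
  obtain ⟨hb, h2⟩ := key ⟨a, ha⟩ b h2
  obtain ⟨_, h3⟩ := key ⟨b, hb⟩ y.1 h3
  exact ⟨_, _, h1, h2, h3⟩

/-- isomorphism in terms of the components -/
theorem comp_iff [Finite V] (hG : IsG F) (hP : NoP5 F) (hS : Cld F S) (hT : Cld F T) :
    Si F S T c c ↔ ∀ z, Nat.card {x // S x ∧ CI F c x z} = Nat.card {y // T y ∧ CI F c y z} := by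
  constructor
  · rintro ⟨e, he, hcol⟩ z
    have he' : ∀ x y, F x.1 y.1 ↔ F (e.symm x).1 (e.symm y).1 := by
      intro x y
      rw [he, Equiv.apply_symm_apply, Equiv.apply_symm_apply]
    have hci : ∀ x : {x // S x}, CI F c x.1 (e x).1 := by
      intro x
      refine ⟨⟨fun y => ⟨(e ⟨y.1, hS.co x.2 y.2⟩).1, co.map hS e he x ⟨y.1, hS.co x.2 y.2⟩ y.2⟩,
        fun y => ⟨(e.symm ⟨y.1, hT.co (e x).2 y.2⟩).1, ?_⟩, fun y => ?_, fun y => ?_⟩,
        fun y z => he ⟨y.1, hS.co x.2 y.2⟩ ⟨z.1, hS.co x.2 z.2⟩,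
        fun y => hcol ⟨y.1, hS.co x.2 y.2⟩⟩
      · have := co.map hT e.symm he' (e x) ⟨y.1, hT.co (e x).2 y.2⟩ y.2
        rwa [Equiv.symm_apply_apply] at this
      · refine Subtype.ext ?_
        show (e.symm (e ⟨y.1, _⟩)).1 = y.1
        rw [Equiv.symm_apply_apply]
      · refine Subtype.ext ?_
        show (e (e.symm ⟨y.1, _⟩)).1 = y.1
        rw [Equiv.apply_symm_apply]
    have h1 : Nat.card {x // S x ∧ CI F c x z} = Nat.card {x : {x // S x} // CI F c x.1 z} :=
      Nat.card_congr ⟨fun y => ⟨⟨y.1, y.2.1⟩, y.2.2⟩, fun y => ⟨y.1.1, y.1.2, y.2⟩,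
        fun y => rfl, fun y => rfl⟩
    have h2 : Nat.card {x // T x ∧ CI F c x z} = Nat.card {x : {x // T x} // CI F c x.1 z} :=
      Nat.card_congr ⟨fun y => ⟨⟨y.1, y.2.1⟩, y.2.2⟩, fun y => ⟨y.1.1, y.1.2, y.2⟩,
        fun y => rfl, fun y => rfl⟩
    rw [h1, h2]
    exact Nat.card_congr (e.subtypeEquiv fun x =>
      ⟨fun h => (hci x).symm.trans h, fun h => (hci x).trans h⟩)
  · intro hc
    let r : (S : V → Prop) → Setoid {x // S x} := fun S =>
      ⟨fun x y => co F x.1 y.1, fun _ => co.refl _, fun h => h.symm hG, fun h h' => h.trans hP h'⟩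
    let K : {x // S x} ⊕ {x // T x} → V := Sum.elim (fun x => x.1) (fun x => x.1)
    obtain ⟨e, h1, h2⟩ := assemble (α := {x // S x}) (β := {x // T x})
      (fun x y => F x.1 y.1) (fun x y => F x.1 y.1)
      (fun x => c x.1) (fun x => c x.1) (r S) (r T)
      (fun a b => CI F c (K a) (K b))
      ⟨fun _ => CI.refl _, fun h => h.symm, fun h h' => h.trans h'⟩
      (fun x y hxy => CI.of_co hG hP hxy) (fun x y hxy => CI.of_co hG hP hxy)
      (fun z => by
        have e1 : ∀ (S : V → Prop) (k : V),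
            Nat.card {x : {x // S x} // CI F c x.1 k} =
            Nat.card {x // S x ∧ CI F c x k} := fun q k =>
          Nat.card_congr ⟨fun y => ⟨y.1.1, y.1.2, y.2⟩, fun y => ⟨⟨y.1, y.2.1⟩, y.2.2⟩,
            fun y => rfl, fun y => rfl⟩
        show Nat.card {x : {x // S x} // CI F c x.1 (K z)} =
          Nat.card {x : {x // T x} // CI F c x.1 (K z)}
        rw [e1, e1]
        exact hc _)
      (fun a b hab => by
        obtain ⟨e, h1, h2⟩ := hab
        let f : (S : V → Prop) → Cld F S → (a : {x // S x}) → {x // r S a x} ≃ {y // co F a.1 y} :=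
          fun S hS a => ⟨fun y => ⟨y.1.1, y.2⟩, fun y => ⟨⟨y.1, hS.co a.2 y.2⟩, y.2⟩,
            fun y => rfl, fun y => rfl⟩
        refine ⟨((f S hS a).trans e).trans (f T hT b).symm, fun x y => ?_, fun x => ?_⟩
        · exact h1 (f S hS a x) (f S hS a y)
        · exact h2 (f S hS a x))
      (fun _ _ => False)
      (fun x y hxy => ⟨fun h' => hxy (co.of_adj h'), fun h' => h'.elim⟩)
      (fun x y hxy => ⟨fun h' => hxy (co.of_adj h'), fun h' => h'.elim⟩)
    exact ⟨e, h1, h2⟩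

/-! ### automorphisms -/

section aut

variable {sd : V → Bool} (f : V ≃ V) (hf : ∀ x y, E x y ↔ E (f x) (f y))

include hf

theorem aut_sN (x y : V) : sN E x y ↔ sN E (f x) (f y) := by
  unfold sN
  constructor
  · intro h z
    have := h (f.symm z)
    rwa [hf, hf y, Equiv.apply_symm_apply] at this
  · intro h z
    rw [hf, hf y]
    exact h _

theorem aut_ff1 (x : V) (h : ff E x) : ff E (f x) := by
  obtain ⟨h1, ⟨a, b, d, ha, hb, hd, hab, hbd, had⟩, h3⟩ := h
  refine ⟨?_, ⟨f a, f b, f d, (hf _ _).1 ha, (hf _ _).1 hb, (hf _ _).1 hd, (hf _ _).1 hab,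
    (hf _ _).1 hbd, (hf _ _).1 had⟩, ?_⟩
  · intro a b d ha hb hd hab hbd had
    refine h1 (f.symm a) (f.symm b) (f.symm d) ?_ ?_ ?_ ?_ ?_ ?_
    · rwa [hf, Equiv.apply_symm_apply]
    · rwa [hf, Equiv.apply_symm_apply]
    · rwa [hf, Equiv.apply_symm_apply]
    · rwa [hf, Equiv.apply_symm_apply, Equiv.apply_symm_apply]
    · rwa [hf, Equiv.apply_symm_apply, Equiv.apply_symm_apply]
    · rwa [hf, Equiv.apply_symm_apply, Equiv.apply_symm_apply]
  · intro u hu y hy
    have h4 := h3 (f.symm u) (fun z hz => by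
      rw [hf, Equiv.apply_symm_apply]
      exact hu _ ((hf _ _).1 hz)) (f.symm y) (by
      rwa [hf, Equiv.apply_symm_apply, Equiv.apply_symm_apply])
    rwa [hf, Equiv.apply_symm_apply] at h4

theorem aut_symm (x y : V) : E x y ↔ E (f.symm x) (f.symm y) := by
  rw [hf (f.symm x), Equiv.apply_symm_apply, Equiv.apply_symm_apply]

theorem aut_ff (x : V) : ff E x ↔ ff E (f x) := by
  refine ⟨aut_ff1 f hf x, fun h => ?_⟩
  have := aut_ff1 f.symm (aut_symm f hf) (f x) h
  rwa [Equiv.symm_apply_apply] at this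

theorem aut_AA (x y : V) : AA E x y ↔ AA E (f x) (f y) := by
  unfold AA
  rw [hf, aut_ff f hf, aut_ff f hf y]

theorem aut_rel (x y : V) : rel E x y ↔ rel E (f x) (f y) := by
  unfold rel
  constructor
  · intro h z
    have := h (f.symm z)
    rwa [aut_AA f hf, aut_AA f hf y, Equiv.apply_symm_apply] at this
  · intro h z
    rw [aut_AA f hf, aut_AA f hf y]
    exact h _

theorem aut_Pc (x : V) : Pc E x = Pc E (f x) :=
  Nat.card_congr (f.subtypeEquiv fun y => aut_sN f hf x y)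

theorem aut_RR (x y : V) : RR E x y ↔ RR E (f x) (f y) := by
  unfold RR
  rw [aut_ff f hf x, aut_ff f hf y, hf, aut_sN f hf]

theorem aut_pe (x : V) : pe E x (f x) := by
  refine ⟨aut_ff f hf x, fun _ k => ?_⟩
  refine Nat.card_congr (f.subtypeEquiv fun y => ?_)
  rw [aut_RR f hf x, aut_Pc f hf y]

theorem aut_cl (hs : ∀ x y, sd x = sd y ↔ sd (f x) = sd (f y)) (x y : V) :
    cl E sd x y ↔ cl E sd (f x) (f y) := by
  unfold cl
  rw [hs, aut_rel f hf]

theorem aut_ty (hs : ∀ x y, sd x = sd y ↔ sd (f x) = sd (f y)) (x : V) : ty E sd x (f x) := by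
  intro z
  refine Nat.card_congr (f.subtypeEquiv fun y => ?_)
  rw [aut_cl f hf hs]
  exact and_congr_right fun _ => ⟨fun h => (aut_pe f hf y).symm.trans h,
    fun h => (aut_pe f hf y).trans h⟩

end aut

/-- the vertices of the quotient on one side -/
def Rs (sd : V → Bool) (rp : V → V) (b : Bool) (v : V) : Prop := sd v = b ∧ rp v = v

variable {sd : V → Bool} {rp : V → V}

theorem Rp.cl_iff (h : Rp E sd rp) (v w : V) : rp v = rp w ↔ cl E sd v w :=
  ⟨fun h' => h.same h', fun h' => h.eq_of _ _ h'.1 h'.2⟩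

theorem class_mp (hG : IsG E) (h1 : C1 E) (h : Rp E sd rp)
    (hc : ∀ v w, ty E sd v w → c v = c w)
    (hI : Si E (fun v => sd v = true) (fun v => sd v = false) (fun _ => ()) (fun _ => ())) :
    Si (FQ E rp) (Rs sd rp true) (Rs sd rp false) c c := by
  classical
  obtain ⟨e, he, -⟩ := hI
  let σ : V → V := fun v => if hv : sd v = true then (e ⟨v, hv⟩).1 else
    (e.symm ⟨v, by simpa using hv⟩).1
  have σt : ∀ (v : V) (hv : sd v = true), σ v = (e ⟨v, hv⟩).1 := fun v hv => dif_pos hv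
  have σf : ∀ (v : V) (hv : sd v = false), σ v = (e.symm ⟨v, hv⟩).1 := fun v hv =>
    dif_neg (by simp [hv])
  have σsd : ∀ v, sd (σ v) = !(sd v) := by
    intro v
    cases hv : sd v
    · rw [σf v hv]; exact (e.symm ⟨v, hv⟩).2
    · rw [σt v hv]; exact (e ⟨v, hv⟩).2
  have σσ : ∀ v, σ (σ v) = v := by
    intro v
    cases hv : sd v
    · rw [σf v hv, σt _ (e.symm ⟨v, hv⟩).2]
      show (e (e.symm ⟨v, hv⟩)).1 = v
      rw [Equiv.apply_symm_apply]
    · rw [σt v hv, σf _ (e ⟨v, hv⟩).2]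
      show (e.symm (e ⟨v, hv⟩)).1 = v
      rw [Equiv.symm_apply_apply]
  have σE : ∀ v w, E v w ↔ E (σ v) (σ w) := by
    intro v w
    cases hv : sd v <;> cases hw : sd w
    · rw [σf v hv, σf w hw, he, Equiv.apply_symm_apply, Equiv.apply_symm_apply]
    · constructor
      · intro h'
        have := h.sdE _ _ h'
        rw [hv, hw] at this
        exact absurd this (by decide)
      · intro h'
        have := h.sdE _ _ h'
        rw [σsd, σsd, hv, hw] at this
        exact absurd this (by decide)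
    · constructor
      · intro h'
        have := h.sdE _ _ h'
        rw [hv, hw] at this
        exact absurd this (by decide)
      · intro h'
        have := h.sdE _ _ h'
        rw [σsd, σsd, hv, hw] at this
        exact absurd this (by decide)
    · rw [σt v hv, σt w hw]
      exact he ⟨v, hv⟩ ⟨w, hw⟩
  let f : V ≃ V := ⟨σ, σ, σσ, σσ⟩
  have hs : ∀ x y, sd x = sd y ↔ sd (f x) = sd (f y) := by
    intro x y
    show _ ↔ sd (σ x) = sd (σ y)
    rw [σsd, σsd]
    cases sd x <;> cases sd y <;> simp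
  have hrr : ∀ v, rp v = v → rp (σ (rp (σ v))) = v := by
    intro v hv
    have h2 : cl E sd (rp (σ v)) (σ v) := (h.cl_iff _ _).1 (h.idem _)
    have h3 : cl E sd (σ (rp (σ v))) (σ (σ v)) := (aut_cl f σE hs _ _).1 h2
    rw [σσ] at h3
    rw [(h.cl_iff _ _).2 h3, hv]
  have hcl : ∀ v w, rp v = rp w ↔ rp (σ v) = rp (σ w) := by
    intro v w
    rw [h.cl_iff, h.cl_iff]
    exact aut_cl f σE hs v w
  refine ⟨⟨fun v => ⟨rp (σ v.1), ?_, h.idem _⟩, fun v => ⟨rp (σ v.1), ?_, h.idem _⟩,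
    fun v => Subtype.ext (hrr _ v.2.2), fun v => Subtype.ext (hrr _ v.2.2)⟩,
    fun v w => ?_, fun v => ?_⟩
  · rw [h.sd_rp, σsd, v.2.1]; rfl
  · rw [h.sd_rp, σsd, v.2.1]; rfl
  · show FQ E rp v.1 w.1 ↔ FQ E rp (rp (σ v.1)) (rp (σ w.1))
    by_cases hvw : v.1 = w.1
    · rw [hvw]
      exact ⟨fun h' => absurd h' (FQ.isG hG).irr, fun h' => absurd h' (FQ.isG hG).irr⟩
    · have h2 : rp v.1 ≠ rp w.1 := by rw [v.2.2, w.2.2]; exact hvw
      have h3 : rp (σ v.1) ≠ rp (σ w.1) := fun h' => h2 ((hcl _ _).2 h')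
      rw [← h.adj_iff hG h1 h3, ← σE, h.adj_iff hG h1 h2, v.2.2, w.2.2]
  · show c v.1 = c (rp (σ v.1))
    refine hc _ _ ((aut_ty f σE hs v.1).trans (cl.ty_eq ?_))
    exact (h.cl_iff _ _).1 (h.idem _).symm

theorem class_mpr [Finite V] (hG : IsG E) (h1 : C1 E) (h : Rp E sd rp)
    (hc : ∀ v w, rp v = v → rp w = w → c v = c w → ty E sd v w)
    (hI : Si (FQ E rp) (Rs sd rp true) (Rs sd rp false) c c) :
    Si E (fun v => sd v = true) (fun v => sd v = false) (fun _ => ()) (fun _ => ()) := by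
  obtain ⟨g, hg, hgc⟩ := hI
  let t : (x : {v // sd v = true}) → {v // Rs sd rp false v} := fun x =>
    g ⟨rp x.1, (h.sd_rp _).trans x.2, h.idem _⟩
  let t' : (x : {v // sd v = false}) → {v // Rs sd rp false v} := fun x =>
    ⟨rp x.1, (h.sd_rp _).trans x.2, h.idem _⟩
  have htt : ∀ x y, t x = t y ↔ rp x.1 = rp y.1 := by
    intro x y
    refine ⟨fun h' => congrArg Subtype.val (g.injective h'), fun h' => ?_⟩
    show g _ = g _
    congr 1
    exact Subtype.ext h'
  have htt' : ∀ x y, t' x = t' y ↔ rp x.1 = rp y.1 := by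
    intro x y
    exact ⟨fun h' => congrArg Subtype.val h', fun h' => Subtype.ext h'⟩
  let r : Setoid {v // sd v = true} := Setoid.ker t
  let s : Setoid {v // sd v = false} := Setoid.ker t'
  let K : {v // sd v = true} ⊕ {v // sd v = false} → {v // Rs sd rp false v} := Sum.elim t t'
  have hiso : ∀ a b, t a = t' b → ∃ e : {x // t a = t x} ≃ {y // t' b = t' y},
      (∀ x y, E x.1.1 y.1.1 ↔ E (e x).1.1 (e y).1.1) := by
    intro a b hab
    have h3 : ty E sd (rp a.1) (rp b.1) := by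
      refine hc _ _ (h.idem _) (h.idem _) ?_
      rw [show rp b.1 = (g ⟨rp a.1, (h.sd_rp _).trans a.2, h.idem _⟩).1 from
        congrArg Subtype.val hab.symm]
      exact hgc ⟨rp a.1, (h.sd_rp _).trans a.2, h.idem _⟩
    have h4 : ty E sd a.1 b.1 :=
      ((cl.ty_eq ((h.cl_iff _ _).1 (h.idem a.1).symm)).trans h3).trans
        (cl.ty_eq ((h.cl_iff _ _).1 (h.idem b.1)))
    obtain ⟨e, he⟩ := h4.iso hG h1 h.sdE
    let f1 : {x // t a = t x} ≃ {x // cl E sd a.1 x} :=
      ⟨fun x => ⟨x.1.1, (h.cl_iff _ _).1 ((htt _ _).1 x.2)⟩,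
        fun x => ⟨⟨x.1, x.2.1.symm.trans a.2⟩, (htt _ _).2 ((h.cl_iff _ _).2 x.2)⟩,
        fun x => rfl, fun x => rfl⟩
    let f2 : {x // t' b = t' x} ≃ {x // cl E sd b.1 x} :=
      ⟨fun x => ⟨x.1.1, (h.cl_iff _ _).1 ((htt' _ _).1 x.2)⟩,
        fun x => ⟨⟨x.1, x.2.1.symm.trans b.2⟩, (htt' _ _).2 ((h.cl_iff _ _).2 x.2)⟩,
        fun x => rfl, fun x => rfl⟩
    exact ⟨(f1.trans e).trans f2.symm, fun x y => he (f1 x) (f1 y)⟩
  obtain ⟨e, h2, -⟩ := assemble (α := {v // sd v = true}) (β := {v // sd v = false})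
    (fun x y => E x.1 y.1) (fun x y => E x.1 y.1) t t' r s (fun a b => K a = K b)
    ⟨fun _ => rfl, fun h => h.symm, fun h h' => h.trans h'⟩
    (fun x y hxy => hxy) (fun x y hxy => hxy)
    (fun z => by
      have e1 : Nat.card {x // t x = K z} = Nat.card {y // t' y = K z} := by
        obtain ⟨a, ha⟩ : ∃ a, t a = K z := by
          refine ⟨⟨(g.symm (K z)).1, (g.symm (K z)).2.1⟩, ?_⟩
          have : (⟨rp (g.symm (K z)).1, (h.sd_rp _).trans (g.symm (K z)).2.1, h.idem _⟩ :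
              {v // Rs sd rp true v}) = g.symm (K z) := Subtype.ext (g.symm (K z)).2.2
          show g _ = _
          rw [this, Equiv.apply_symm_apply]
        obtain ⟨b, hb⟩ : ∃ b, t' b = K z := ⟨⟨(K z).1, (K z).2.1⟩, Subtype.ext (K z).2.2⟩
        obtain ⟨e, -⟩ := hiso a b (ha.trans hb.symm)
        rw [← ha]
        have e2 : Nat.card {x // t x = t a} = Nat.card {x // t a = t x} :=
          Nat.card_congr (Equiv.subtypeEquivRight fun x => eq_comm)
        have e3 : Nat.card {x // t' x = t a} = Nat.card {x // t' b = t' x} := by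
          rw [ha, ← hb]
          exact Nat.card_congr (Equiv.subtypeEquivRight fun x => eq_comm)
        rw [e2, e3]
        exact Nat.card_congr e
      exact e1)
    (fun a b hab => by
      obtain ⟨e, he⟩ := hiso a b hab
      refine ⟨e, he, fun x => ?_⟩
      have h5 : t a = t x.1 := x.2
      have h6 : t' b = t' (e x).1 := (e x).2
      have h7 : t a = t' b := hab
      rw [← h5, h7, h6])
    (fun l l' => FQ E rp l.1 l'.1)
    (fun x y hxy => by
      have h3 : rp x.1 ≠ rp y.1 := fun h' => hxy ((htt _ _).2 h')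
      rw [h.adj_iff hG h1 h3]
      exact hg ⟨rp x.1, (h.sd_rp _).trans x.2, h.idem _⟩ ⟨rp y.1, (h.sd_rp _).trans y.2, h.idem _⟩)
    (fun x y hxy => by
      have h3 : rp x.1 ≠ rp y.1 := fun h' => hxy ((htt' _ _).2 h')
      exact h.adj_iff hG h1 h3)
  exact ⟨e, h2, fun _ => rfl⟩

theorem rs_cld (h : Rp E sd rp) (b : Bool) : Cld (FQ E rp) (Rs sd rp b) :=
  fun _ _ hx hxy => ⟨(h.sdE _ _ hxy.2.2).symm.trans hx.1, hxy.2.1⟩

/-- isomorphism of the sides in terms of the components of the quotient -/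
theorem sides_iff [Finite V] (hG : IsG E) (h1 : C1 E) (hP : NoP5 E) (h : Rp E sd rp)
    (hc : ∀ v w, c v = c w ↔ ty E sd v w) :
    Si E (fun v => sd v = true) (fun v => sd v = false) (fun _ => ()) (fun _ => ()) ↔
      ∀ z, Nat.card {x // Rs sd rp true x ∧ CI (FQ E rp) c x z} =
        Nat.card {y // Rs sd rp false y ∧ CI (FQ E rp) c y z} := by
  rw [← comp_iff (FQ.isG hG) (FQ.p5 hP) (rs_cld h true) (rs_cld h false)]
  exact ⟨class_mp hG h1 h (fun v w h' => (hc v w).2 h'),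
    class_mpr hG h1 h (fun v w _ _ h' => (hc v w).1 h')⟩

end Pool.Agent.H.MP_6f30b3_lc.h34
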