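import Pool.Agent.H.MP_6f30b3_lc.h34.Blob

/-!
MP_6f30b3_lc: the structure around a blob with at least three attached parts.
-/

namespace Pool.Agent.H.MP_6f30b3_lc.h34

variable {V : Type*} {E : V → V → Prop} {q : Fin 4 → V}

/-- `z` is an outside vertex which is attached at `w` -/
def At (E : V → V → Prop) (q : Fin 4 → V) (z w : V) : Prop := ¬ Bl E q z ∧ Bl E q w ∧ E z w

/-- outside vertices without neighbours in the blob -/
def L2 (E : V → V → Prop) (q : Fin 4 → V) (z : V) : Prop :=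
  ¬ Bl E q z ∧ ∀ w, Bl E q w → ¬ E z w

/-- same component (in graphs without induced path on five vertices) -/
def co (E : V → V → Prop) (v w : V) : Prop :=
  ∃ x y, (v = x ∨ E v x) ∧ (x = y ∨ E x y) ∧ (y = w ∨ E y w)

/-- three attached parts -/
structure Base (E : V → V → Prop) (q : Fin 4 → V) (x y : Fin 3 → V) : Prop where
  at' : ∀ i, At E q (x i) (y i)
  adj : ∀ i j, i ≠ j → E (y i) (y j)

/-- some edge between vertices attached to different parts -/
def Flag (E : V → V → Prop) (q : Fin 4 → V) : Prop :=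
  ∃ p y r z, At E q p y ∧ At E q r z ∧ E y z ∧ E p r

/-- the hypotheses on the graph and the clique -/
structure Ctx (E : V → V → Prop) (q : Fin 4 → V) : Prop where
  G : IsG E
  c1 : C1 E
  p5 : NoP5 E
  k4 : K4 E q

theorem At.sep (h : Ctx E q) {p y z : V} (hp : At E q p y) (hz : Bl E q z) (hyz : E y z) :
    ¬ E p z := attach h.G h.c1 h.k4 hp.1 hp.2.1 hz hyz hp.2.2

theorem alpha (h : Ctx E q) {p yp r yr s ys : V} (hp : At E q p yp) (hr : At E q r yr)
    (hs : At E q s ys) (hpr : E yp yr) (hrs : E yr ys) (hps : E yp ys) (hE : E r s) :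
    E p r ∨ E p s := by
  by_contra hcon
  push Not at hcon
  have G := h.G
  refine h.p5 p yp ys s r ⟨hp.2.2, hps, G.symm hs.2.2, G.symm hE, hp.sep h hs.2.1 hps, hcon.2,
    hcon.1, fun h' => hs.sep h hp.2.1 (G.symm hps) (G.symm h'),
    fun h' => hr.sep h hp.2.1 (G.symm hpr) (G.symm h'), fun h' => hr.sep h hs.2.1 hrs (G.symm h')⟩

theorem beta (h : Ctx E q) {p yp r yr s ys : V} (hp : At E q p yp) (hr : At E q r yr)
    (hs : At E q s ys) (hpr : E yp yr) (hps : E yp ys) (h1 : E p r) (h2 : E r s) : E p s := by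
  by_contra hcon
  have G := h.G
  obtain ⟨l, l1, l2, l3⟩ := Bl.common G hp.2.1 hr.2.1 hs.2.1
  have hb := h.k4.bl l
  refine h.p5 (q l) yp p r s ⟨l1, G.symm hp.2.2, h1, h2,
    fun h' => hp.sep h hb (G.symm l1) (G.symm h'), fun h' => hr.sep h hb (G.symm l2) (G.symm h'),
    fun h' => hs.sep h hb (G.symm l3) (G.symm h'),
    fun h' => hr.sep h hp.2.1 (G.symm hpr) (G.symm h'),
    fun h' => hs.sep h hp.2.1 (G.symm hps) (G.symm h'), hcon⟩

/-- a vertex attached to a third part is adjacent to both ends of a cross edge -/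
theorem claim1 (h : Ctx E q) {p yp r yr s ys : V} (hp : At E q p yp) (hr : At E q r yr)
    (hs : At E q s ys) (hpr : E yp yr) (hsp : E ys yp) (hsr : E ys yr) (hE : E p r) :
    E s p ∧ E s r := by
  have G := h.G
  rcases alpha h hs hp hr hsp hpr hsr hE with h1 | h1
  · exact ⟨h1, beta h hs hp hr hsp hsr h1 hE⟩
  · exact ⟨beta h hs hr hp hsr hsp h1 (G.symm hE), h1⟩

theorem Base.miss (h : Ctx E q) {x y : Fin 3 → V} (hb : Base E q x y) {z : V}
    (hz : Bl E q z) : ∃ i, ∀ j, j ≠ i → E z (y j) :=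
  (bl_cm h.G h.c1 h.k4).miss h.G (fun i => (hb.at' i).2.1) hb.adj hz

theorem pick31 : ∀ i j : Fin 3, ∃ l, l ≠ i ∧ l ≠ j := by decide

theorem Base.miss2 (h : Ctx E q) {x y : Fin 3 → V} (hb : Base E q x y) {z w : V}
    (hz : Bl E q z) (hw : Bl E q w) : ∃ i, E z (y i) ∧ E w (y i) := by
  obtain ⟨i, hi⟩ := hb.miss h hz
  obtain ⟨j, hj⟩ := hb.miss h hw
  obtain ⟨l, h1, h2⟩ := pick31 i j
  exact ⟨l, hi l h1, hj l h2⟩

theorem Base.other (h : Ctx E q) {x y : Fin 3 → V} (hb : Base E q x y) {z : V}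
    (hz : Bl E q z) (r : Fin 3) : ∃ s, s ≠ r ∧ E z (y s) := by
  obtain ⟨i, hi⟩ := hb.miss h hz
  obtain ⟨l, h1, h2⟩ := pick31 i r
  exact ⟨l, h2, hi l h1⟩

/-- if there is a cross edge then the base is complete -/
theorem Base.full (h : Ctx E q) {x y : Fin 3 → V} (hb : Base E q x y) (hf : Flag E q) :
    ∀ i j, i ≠ j → E (x i) (x j) := by
  have G := h.G
  have hcm := bl_cm h.G h.c1 h.k4
  obtain ⟨p, yp, r, yr, hp, hr, hpr, hE⟩ := hf
  obtain ⟨a, ha1, ha2⟩ := hb.miss2 h hp.2.1 hr.2.1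
  obtain ⟨h1, h2⟩ := claim1 h hp hr (hb.at' a) hpr (G.symm ha1) (G.symm ha2) hE
  -- `x a` is adjacent to the others
  have h3 : ∀ s, s ≠ a → E (x s) (x a) := by
    intro s hs
    by_cases hsp : E (y s) yp
    · exact (claim1 h (hb.at' a) hp (hb.at' s) (G.symm ha1) (hb.adj s a hs) hsp h1).1
    · have hsr : E (y s) yr := by
        by_contra hsr
        exact hcm yp (y s) yr hp.2.1 (hb.at' s).2.1 hr.2.1 (fun h' => hsp (G.symm h')) hsr hpr
      exact (claim1 h (hb.at' a) hr (hb.at' s) (G.symm ha2) (hb.adj s a hs) hsr h2).1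
  intro i j hij
  by_cases hi : i = a
  · subst hi
    exact G.symm (h3 j hij.symm)
  · by_cases hj : j = a
    · subst hj
      exact h3 i hi
    · exact (claim1 h (hb.at' j) (hb.at' a) (hb.at' i) (hb.adj j a hj) (hb.adj i j hij)
        (hb.adj i a hi) (h3 j hj)).1

theorem Base.base_adj (h : Ctx E q) {x y : Fin 3 → V} (hb : Base E q x y) (hf : Flag E q)
    {z yz : V} (hz : At E q z yz) {r : Fin 3} (hr : E yz (y r)) : E z (x r) := by
  obtain ⟨s, hs, hzs⟩ := hb.other h hz.2.1 r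
  exact (claim1 h (hb.at' r) (hb.at' s) hz (hb.adj r s hs.symm) hr hzs
    (hb.full h hf r s hs.symm)).1

theorem cross_of_flag (h : Ctx E q) {x y : Fin 3 → V} (hb : Base E q x y) (hf : Flag E q)
    {z yz w yw : V} (hz : At E q z yz) (hw : At E q w yw) (hzw : E yz yw) : E z w := by
  have G := h.G
  obtain ⟨r, h1, h2⟩ := hb.miss2 h hz.2.1 hw.2.1
  exact G.symm (claim1 h hz (hb.at' r) hw h1 (G.symm hzw) h2 (hb.base_adj h hf hz h1)).1

theorem cross_iff (h : Ctx E q) {x y : Fin 3 → V} (hb : Base E q x y)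
    {z yz w yw : V} (hz : At E q z yz) (hw : At E q w yw) (hzw : E yz yw) :
    E z w ↔ Flag E q :=
  ⟨fun hE => ⟨z, yz, w, yw, hz, hw, hzw, hE⟩, fun hf => cross_of_flag h hb hf hz hw hzw⟩

/-- without cross edges, attached vertices have no neighbours far away -/
theorem far_of_not_flag (h : Ctx E q) {x y : Fin 3 → V} (hb : Base E q x y)
    (hf : ¬ Flag E q) {z p yp : V} (hz : L2 E q z) (hp : At E q p yp) : ¬ E z p := by
  intro hzp
  have G := h.G
  obtain ⟨r, -, hr⟩ := hb.other h hp.2.1 0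
  have hx := hb.at' r
  have hpx : ¬ E p (x r) := fun h' => hf ((cross_iff h hb hp hx hr).1 h')
  have hzx : E z (x r) := by
    by_contra h'
    exact h.p5 z p yp (y r) (x r) ⟨hzp, hp.2.2, hr, G.symm hx.2.2, hz.2 _ hp.2.1,
      hz.2 _ hx.2.1, h', hp.sep h hx.2.1 hr, hpx, fun h' => hx.sep h hp.2.1 (G.symm hr) (G.symm h')⟩
  obtain ⟨l, l1, l2, -⟩ := Bl.common G hp.2.1 hx.2.1 hx.2.1
  have hl := h.k4.bl l
  exact h.p5 (q l) yp p z (x r) ⟨l1, G.symm hp.2.2, G.symm hzp, hzx,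
    fun h' => hp.sep h hl (G.symm l1) (G.symm h'), fun h' => hz.2 _ hl (G.symm h'),
    fun h' => hx.sep h hl (G.symm l2) (G.symm h'), fun h' => hz.2 _ hp.2.1 (G.symm h'),
    fun h' => hx.sep h hp.2.1 (G.symm hr) (G.symm h'), hpx⟩

/-- with cross edges, a far vertex adjacent to one attached vertex is adjacent to all -/
theorem far_all (h : Ctx E q) {x y : Fin 3 → V} (hb : Base E q x y) (hf : Flag E q)
    {z p yp : V} (hz : L2 E q z) (hp : At E q p yp) (hzp : E z p) {w yw : V}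
    (hw : At E q w yw) : E z w := by
  have G := h.G
  have hcm := bl_cm h.G h.c1 h.k4
  have key : ∀ {p yp w yw : V}, At E q p yp → E z p → At E q w yw → E yw yp → E z w := by
    intro p yp w yw hp hzp hw hwp
    by_contra hzw
    have hwp' : E w p := cross_of_flag h hb hf hw hp hwp
    obtain ⟨l, l1, l2, -⟩ := Bl.common G hw.2.1 hp.2.1 hp.2.1
    have hl := h.k4.bl l
    exact h.p5 (q l) yw w p z ⟨l1, G.symm hw.2.2, hwp', G.symm hzp,
      fun h' => hw.sep h hl (G.symm l1) (G.symm h'),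
      fun h' => hp.sep h hl (G.symm l2) (G.symm h'),
      fun h' => hz.2 _ hl (G.symm h'), fun h' => hp.sep h hw.2.1 (G.symm hwp) (G.symm h'),
      fun h' => hz.2 _ hw.2.1 (G.symm h'), fun h' => hzw (G.symm h')⟩
  by_cases hwp : E yw yp
  · exact key hp hzp hw hwp
  · obtain ⟨r, hr1, hr2⟩ := hb.miss2 h hp.2.1 hw.2.1
    have h1 := key hp hzp (hb.at' r) (G.symm hr1)
    exact key (hb.at' r) h1 hw hr2

/-- with cross edges, every far vertex of the component is adjacent to all attached vertices -/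
theorem far_of_flag (h : Ctx E q) {x y : Fin 3 → V} (hb : Base E q x y) (hf : Flag E q)
    {a z : V} (ha : Bl E q a) (hz : L2 E q z) (hco : co E a z) {w yw : V} (hw : At E q w yw) :
    E z w := by
  have G := h.G
  have hcm := bl_cm h.G h.c1 h.k4
  -- `L2` vertices not adjacent to `w`
  have step : ∀ u v, L2 E q u → ¬ E u w → E v u → L2 E q v ∧ ¬ E v w := by
    intro u v hu huw hvu
    have hvb : ¬ Bl E q v := fun h' => hu.2 v h' (G.symm hvu)
    have hv2 : L2 E q v := by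
      refine ⟨hvb, fun t ht hvt => ?_⟩
      exact huw (far_all h hb hf hu ⟨hvb, ht, hvt⟩ (G.symm hvu) hw)
    refine ⟨hv2, fun hvw => ?_⟩
    obtain ⟨l, l1, -, -⟩ := Bl.common G hw.2.1 hw.2.1 hw.2.1
    have hl := h.k4.bl l
    exact h.p5 (q l) yw w v u ⟨l1, G.symm hw.2.2, G.symm hvw, hvu,
      fun h' => hw.sep h hl (G.symm l1) (G.symm h'), fun h' => hv2.2 _ hl (G.symm h'),
      fun h' => hu.2 _ hl (G.symm h'), fun h' => hv2.2 _ hw.2.1 (G.symm h'),
      fun h' => hu.2 _ hw.2.1 (G.symm h'), fun h' => huw (G.symm h')⟩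
  by_contra hzw
  have step' : ∀ u v, (v = u ∨ E v u) → (L2 E q u ∧ ¬ E u w) → (L2 E q v ∧ ¬ E v w) := by
    rintro u v (rfl | huv) ⟨h1, h2⟩
    · exact ⟨h1, h2⟩
    · exact step u v h1 h2 huv
  obtain ⟨b, c, h1, h2, h3⟩ := hco
  have := step' _ _ h1 (step' _ _ h2 (step' _ _ h3 ⟨hz, hzw⟩))
  exact this.1.1 ha

/-- without cross edges there are no far vertices in the component -/
theorem no_far (h : Ctx E q) {x y : Fin 3 → V} (hb : Base E q x y) (hf : ¬ Flag E q)
    {a z : V} (ha : Bl E q a) (hco : co E a z) : ¬ L2 E q z := by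
  have G := h.G
  intro hz
  have step : ∀ u v, (v = u ∨ E v u) → L2 E q u → L2 E q v := by
    rintro u v (rfl | hvu) hu
    · exact hu
    · have hvb : ¬ Bl E q v := fun h' => hu.2 v h' (G.symm hvu)
      refine ⟨hvb, fun t ht hvt => ?_⟩
      exact far_of_not_flag h hb hf hu ⟨hvb, ht, hvt⟩ (G.symm hvu)
  obtain ⟨b, c, h1, h2, h3⟩ := hco
  exact (step _ _ h1 (step _ _ h2 (step _ _ h3 hz))).1 ha

end Pool.Agent.H.MP_6f30b3_lc.h34
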